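/-
Vanishing of `Ext` of modules: long exact sequences, retracts, finite powers.
-/
import Mathlib

namespace W5h64.TT

open CategoryTheory CategoryTheory.Abelian

universe u

/-- `Ext_R^i(M, N) = 0`. -/
def ExtZero (R : Type u) [Ring R] (M N : Type u) [AddCommGroup M] [AddCommGroup N]
    [Module R M] [Module R N] (i : ℕ) : Prop :=
  Subsingleton (Ext (ModuleCat.of R M) (ModuleCat.of R N) i)

variable {R : Type u} [Ring R]

/-- The short complex of a short exact sequence of modules. -/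
def sc {N P M : Type u} [AddCommGroup M] [AddCommGroup P] [AddCommGroup N]
    [Module R M] [Module R P] [Module R N] (i : N →ₗ[R] P) (p : P →ₗ[R] M)
    (hex : Function.Exact i p) : ShortComplex (ModuleCat.{u} R) :=
  ShortComplex.mk (ModuleCat.ofHom i) (ModuleCat.ofHom p) (by
    ext x
    exact hex.apply_apply_eq_zero x)

theorem sc_exact {N P M : Type u} [AddCommGroup M] [AddCommGroup P] [AddCommGroup N]
    [Module R M] [Module R P] [Module R N] (i : N →ₗ[R] P) (p : P →ₗ[R] M)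
    (hex : Function.Exact i p)
    (hi : Function.Injective i) (hp : Function.Surjective p) : (sc i p hex).ShortExact where
  exact := (ShortComplex.ShortExact.moduleCat_exact_iff_function_exact _).2 hex
  mono_f := (ModuleCat.mono_iff_injective _).2 hi
  epi_g := (ModuleCat.epi_iff_surjective _).2 hp

section LES

variable {X₁ X₂ X₃ Y : Type u} [AddCommGroup X₁] [AddCommGroup X₂] [AddCommGroup X₃]
  [AddCommGroup Y] [Module R X₁] [Module R X₂] [Module R X₃] [Module R Y]
  {i : X₁ →ₗ[R] X₂} {p : X₂ →ₗ[R] X₃}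

theorem ext_X₂ (hex : Function.Exact i p) (hi : Function.Injective i)
    (hp : Function.Surjective p) {n : ℕ} (h1 : ExtZero R X₁ Y n) (h3 : ExtZero R X₃ Y n) :
    ExtZero R X₂ Y n := by
  refine subsingleton_of_forall_eq 0 fun x => ?_
  have hS := sc_exact i p hex hi hp
  obtain ⟨y, hy⟩ := Ext.contravariant_sequence_exact₂ (S := sc i p hex) hS
    (ModuleCat.of R Y) (n := n) x (h1.elim _ _)
  have h0 : y = 0 := @Subsingleton.elim _ h3 y 0
  rw [← hy, h0, Ext.comp_zero]
  rfl

theorem ext_X₃ (hex : Function.Exact i p) (hi : Function.Injective i)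
    (hp : Function.Surjective p) {n : ℕ} (h1 : ExtZero R X₁ Y n)
    (h2 : ExtZero R X₂ Y (n + 1)) : ExtZero R X₃ Y (n + 1) := by
  refine subsingleton_of_forall_eq 0 fun x => ?_
  have hS := sc_exact i p hex hi hp
  obtain ⟨y, hy⟩ := Ext.contravariant_sequence_exact₃ (S := sc i p hex) hS
    (ModuleCat.of R Y) (n₁ := n + 1) x (h2.elim _ _) (n₀ := n) (add_comm 1 n)
  have h0 : y = 0 := @Subsingleton.elim _ h1 y 0
  rw [← hy, h0, Ext.comp_zero]
  rfl

theorem ext_X₁ (hex : Function.Exact i p) (hi : Function.Injective i)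
    (hp : Function.Surjective p) {n : ℕ} (h2 : ExtZero R X₂ Y n)
    (h3 : ExtZero R X₃ Y (n + 1)) : ExtZero R X₁ Y n := by
  refine subsingleton_of_forall_eq 0 fun x => ?_
  have hS := sc_exact i p hex hi hp
  obtain ⟨y, hy⟩ := Ext.contravariant_sequence_exact₁ (S := sc i p hex) hS
    (ModuleCat.of R Y) (n₀ := n) x (n₁ := n + 1) (add_comm 1 n) (h3.elim _ _)
  have h0 : y = 0 := @Subsingleton.elim _ h2 y 0
  rw [← hy, h0, Ext.comp_zero]
  rfl

/-- `Ext¹(X₃, Y) = 0` if `Ext¹(X₂, Y) = 0` and every map `X₁ → Y` extends to `X₂`. -/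
theorem ext_one_X₃ (hex : Function.Exact i p) (hi : Function.Injective i)
    (hp : Function.Surjective p) (h2 : ExtZero R X₂ Y 1)
    (h : ∀ g : X₁ →ₗ[R] Y, ∃ g' : X₂ →ₗ[R] Y, g' ∘ₗ i = g) : ExtZero R X₃ Y 1 := by
  refine subsingleton_of_forall_eq 0 fun x => ?_
  have hS := sc_exact i p hex hi hp
  obtain ⟨y, hy⟩ := Ext.contravariant_sequence_exact₃ (S := sc i p hex) hS
    (ModuleCat.of R Y) (n₁ := 1) x (h2.elim _ _) (n₀ := 0) (add_comm 1 0)
  obtain ⟨g, rfl⟩ := Ext.addEquiv₀.symm.surjective y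
  obtain ⟨g', hg'⟩ := h g.hom
  have e1 : g = (sc i p hex).f ≫ ModuleCat.ofHom g' := by
    ext x
    exact (LinearMap.congr_fun hg' x).symm
  have e2 : (Ext.addEquiv₀.symm ((sc i p hex).f ≫ ModuleCat.ofHom g') :
      Ext (sc i p hex).X₁ (ModuleCat.of R Y) 0) =
      (Ext.mk₀ (sc i p hex).f).comp
        (Ext.mk₀ (Y := ModuleCat.of R Y) (X := (sc i p hex).X₂) (ModuleCat.ofHom g'))
        (add_zero 0) :=
    (Ext.mk₀_comp_mk₀ (sc i p hex).f
      (Z := ModuleCat.of R Y) (ModuleCat.ofHom g')).symm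
  rw [← hy, e1, e2, hS.extClass_comp_assoc]
  rfl

/-- If `Ext¹(X₃, Y) = 0`, every map `X₁ → Y` extends to `X₂`. -/
theorem exists_extend (hex : Function.Exact i p) (hi : Function.Injective i)
    (hp : Function.Surjective p) (h3 : ExtZero R X₃ Y 1) (g : X₁ →ₗ[R] Y) :
    ∃ g' : X₂ →ₗ[R] Y, g' ∘ₗ i = g := by
  have hS := sc_exact i p hex hi hp
  obtain ⟨y, hy⟩ := Ext.contravariant_sequence_exact₁ (S := sc i p hex) hS
    (ModuleCat.of R Y) (n₀ := 0)
    (Ext.mk₀ (X := (sc i p hex).X₁) (Y := ModuleCat.of R Y) (ModuleCat.ofHom g))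
    (n₁ := 1) (add_comm 1 0) (h3.elim _ _)
  obtain ⟨g', rfl⟩ := Ext.homEquiv₀.symm.surjective y
  rw [Ext.homEquiv₀_symm_apply, Ext.mk₀_comp_mk₀] at hy
  have h4 := Ext.homEquiv₀.symm.injective (a₁ := (sc i p hex).f ≫ g')
    (a₂ := ModuleCat.ofHom g) hy
  refine ⟨g'.hom, ?_⟩
  ext x
  exact congrArg (fun f : ModuleCat.of R X₁ ⟶ ModuleCat.of R Y => f.hom x) h4

theorem ext_cov (hex : Function.Exact i p) (hi : Function.Injective i)
    (hp : Function.Surjective p) {n : ℕ} (h3 : ExtZero R Y X₃ n)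
    (h2 : ExtZero R Y X₂ (n + 1)) : ExtZero R Y X₁ (n + 1) := by
  refine subsingleton_of_forall_eq 0 fun x => ?_
  have hS := sc_exact i p hex hi hp
  obtain ⟨y, hy⟩ := Ext.covariant_sequence_exact₁ (S := sc i p hex)
    (ModuleCat.of R Y) hS (n₁ := n + 1) x (h2.elim _ _) (n₀ := n) rfl
  have h0 : y = 0 := @Subsingleton.elim _ h3 y 0
  rw [← hy, h0, Ext.zero_comp]
  rfl

end LES

section proj

variable {M Y : Type u} [AddCommGroup M] [AddCommGroup Y] [Module R M] [Module R Y]

theorem ext_of_projective [Module.Projective R M] (n : ℕ) : ExtZero R M Y (n + 1) := by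
  refine subsingleton_of_forall_eq 0 fun x => ?_
  have : Projective (ModuleCat.of R M) := inferInstance
  exact Ext.eq_zero_of_projective (P := ModuleCat.of R M) _

end proj

section retract

variable {M M' Y : Type u} [AddCommGroup M] [AddCommGroup M'] [AddCommGroup Y]
  [Module R M] [Module R M'] [Module R Y]

theorem ext_retract_left {i : M →ₗ[R] M'} {p : M' →ₗ[R] M} (h : p ∘ₗ i = LinearMap.id)
    {n : ℕ} (h' : ExtZero R M' Y n) : ExtZero R M Y n := by
  refine subsingleton_of_forall_eq 0 fun x => ?_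
  have e : ModuleCat.ofHom i ≫ ModuleCat.ofHom p = 𝟙 (ModuleCat.of R M) := by
    rw [← ModuleCat.ofHom_comp, h]; rfl
  rw [← x.mk₀_id_comp, ← e, ← Ext.mk₀_comp_mk₀, Ext.comp_assoc_of_second_deg_zero,
    @Subsingleton.elim _ h' ((Ext.mk₀ (ModuleCat.ofHom p)).comp x (zero_add n)) 0, Ext.comp_zero]

theorem ext_retract_right {i : M →ₗ[R] M'} {p : M' →ₗ[R] M} (h : p ∘ₗ i = LinearMap.id)
    {n : ℕ} (h' : ExtZero R Y M' n) : ExtZero R Y M n := by
  refine subsingleton_of_forall_eq 0 fun x => ?_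
  have e : ModuleCat.ofHom i ≫ ModuleCat.ofHom p = 𝟙 (ModuleCat.of R M) := by
    rw [← ModuleCat.ofHom_comp, h]; rfl
  rw [← x.comp_mk₀_id, ← e, ← Ext.mk₀_comp_mk₀, ← Ext.comp_assoc_of_third_deg_zero,
    @Subsingleton.elim _ h' (x.comp (Ext.mk₀ (ModuleCat.ofHom i)) (add_zero n)) 0, Ext.zero_comp]

end retract

section pow

variable {M Y : Type u} [AddCommGroup M] [AddCommGroup Y] [Module R M] [Module R Y]

theorem id_eq_sum (n : ℕ) : (LinearMap.id : (Fin n → M) →ₗ[R] (Fin n → M)) =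
    ∑ j, LinearMap.single R (fun _ : Fin n => M) j ∘ₗ LinearMap.proj j := by
  ext x
  simp

theorem ofHom_sum {M N : Type u} [AddCommGroup M] [AddCommGroup N] [Module R M] [Module R N]
    {ι : Type} (s : Finset ι) (f : ι → (M →ₗ[R] N)) :
    ModuleCat.ofHom (∑ j ∈ s, f j) = ∑ j ∈ s, ModuleCat.ofHom (f j) := by
  classical
  induction s using Finset.induction_on with
  | empty => simp
  | insert a s ha ih =>
    rw [Finset.sum_insert ha, Finset.sum_insert ha, ← ih]
    rfl

theorem mk₀_sum {C : Type*} [Category C] [Abelian C] [HasExt.{u} C] {X Y : C}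
    {ι : Type} (s : Finset ι) (f : ι → (X ⟶ Y)) :
    Ext.mk₀ (∑ j ∈ s, f j) = ∑ j ∈ s, Ext.mk₀ (f j) := by
  classical
  induction s using Finset.induction_on with
  | empty => simp [Ext.mk₀_zero]
  | insert a s ha ih =>
    rw [Finset.sum_insert ha, Finset.sum_insert ha, ← ih, Ext.mk₀_add]

theorem ext_pow_left (n : ℕ) {i : ℕ} (h : ExtZero R M Y i) : ExtZero R (Fin n → M) Y i := by
  refine subsingleton_of_forall_eq 0 fun x => ?_
  have e : (∑ j : Fin n, ModuleCat.ofHom (LinearMap.proj (R := R) (φ := fun _ : Fin n => M) j) ≫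
      ModuleCat.ofHom (LinearMap.single R (fun _ : Fin n => M) j)) =
      𝟙 (ModuleCat.of R (Fin n → M)) := by
    have := congrArg ModuleCat.ofHom (id_eq_sum (R := R) (M := M) n)
    rw [ofHom_sum] at this
    exact this.symm
  have key : ∀ (s : Finset (Fin n)), (Ext.mk₀ (∑ j ∈ s,
      ModuleCat.ofHom (LinearMap.proj (R := R) (φ := fun _ : Fin n => M) j) ≫
      ModuleCat.ofHom (LinearMap.single R (fun _ : Fin n => M) j))).comp x (zero_add i) = 0 := by
    intro s
    induction s using Finset.induction_on with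
    | empty =>
      rw [Finset.sum_empty, Ext.mk₀_zero, Ext.zero_comp]
    | insert a s ha ih =>
      rw [Finset.sum_insert ha, Ext.mk₀_add, Ext.add_comp, ih, add_zero, ← Ext.mk₀_comp_mk₀,
        Ext.comp_assoc_of_second_deg_zero,
        @Subsingleton.elim _ h ((Ext.mk₀ (ModuleCat.ofHom
          (LinearMap.single R (fun _ : Fin n => M) a))).comp x (zero_add i)) 0, Ext.comp_zero]
  rw [← x.mk₀_id_comp, ← e]
  exact key _

theorem ext_pow_right (n : ℕ) {i : ℕ} (h : ExtZero R Y M i) : ExtZero R Y (Fin n → M) i := by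
  refine subsingleton_of_forall_eq 0 fun x => ?_
  have e : (∑ j : Fin n, ModuleCat.ofHom (LinearMap.proj (R := R) (φ := fun _ : Fin n => M) j) ≫
      ModuleCat.ofHom (LinearMap.single R (fun _ : Fin n => M) j)) =
      𝟙 (ModuleCat.of R (Fin n → M)) := by
    have := congrArg ModuleCat.ofHom (id_eq_sum (R := R) (M := M) n)
    rw [ofHom_sum] at this
    exact this.symm
  have key : ∀ (s : Finset (Fin n)), x.comp (Ext.mk₀ (∑ j ∈ s,
      ModuleCat.ofHom (LinearMap.proj (R := R) (φ := fun _ : Fin n => M) j) ≫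
      ModuleCat.ofHom (LinearMap.single R (fun _ : Fin n => M) j))) (add_zero i) = 0 := by
    intro s
    induction s using Finset.induction_on with
    | empty =>
      rw [Finset.sum_empty, Ext.mk₀_zero, Ext.comp_zero]
    | insert a s ha ih =>
      rw [Finset.sum_insert ha, Ext.mk₀_add, Ext.comp_add, ih, add_zero, ← Ext.mk₀_comp_mk₀,
        ← Ext.comp_assoc_of_third_deg_zero,
        @Subsingleton.elim _ h (x.comp (Ext.mk₀ (ModuleCat.ofHom
          (LinearMap.proj (R := R) (φ := fun _ : Fin n => M) a))) (add_zero i)) 0, Ext.zero_comp]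
  rw [← x.comp_mk₀_id, ← e]
  exact key _

end pow

end W5h64.TT
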