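/-
The injective cogenerator `D(A/I)` of the category of `A/I`-modules.
-/
import Pool.Agent.W5h64.TT.Ext

namespace W5h64.TT

universe u

section

variable (k : Type u) [Field k] (A : Type u) [Ring A] [Algebra k A]

/-- `Hom_k(A, k)` with its structure of left `A`-module, `(a f)(x) = f (x a)`. -/
def DA : Type u := A →ₗ[k] k

instance : AddCommGroup (DA k A) := inferInstanceAs (AddCommGroup (A →ₗ[k] k))

instance : Module k (DA k A) := inferInstanceAs (Module k (A →ₗ[k] k))

variable {k A}

/-- The value of a functional. -/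
def DA.ev (f : DA k A) : A →ₗ[k] k := f

theorem DA.ext' {f g : DA k A} (h : ∀ x, f.ev x = g.ev x) : f = g :=
  LinearMap.ext (f := f.ev) (g := g.ev) h

instance : Module A (DA k A) where
  smul a f := (f.ev ∘ₗ LinearMap.mulRight k a : A →ₗ[k] k)
  one_smul f := DA.ext' fun x => congrArg f.ev (mul_one x)
  mul_smul a b f := DA.ext' fun x => congrArg f.ev (mul_assoc x a b).symm
  smul_zero _ := DA.ext' fun _ => rfl
  smul_add _ _ _ := DA.ext' fun _ => rfl
  add_smul a b f := DA.ext' fun x => (congrArg f.ev (mul_add x a b)).trans (map_add f.ev _ _)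
  zero_smul f := DA.ext' fun x => (congrArg f.ev (mul_zero x)).trans (map_zero f.ev)

@[simp] theorem DA.smul_ev (a : A) (f : DA k A) (x : A) : (a • f).ev x = f.ev (x * a) := rfl

@[simp] theorem DA.add_ev (f g : DA k A) (x : A) : (f + g).ev x = f.ev x + g.ev x := rfl

@[simp] theorem DA.zero_ev (x : A) : (0 : DA k A).ev x = 0 := rfl

instance : IsScalarTower k A (DA k A) where
  smul_assoc c a f := DA.ext' fun x => by
    change f.ev (x * (c • a)) = c • f.ev (x * a)
    rw [mul_smul_comm, map_smul]

variable (k) in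
/-- `D(A/I)`, the functionals on `A` that vanish on `I`. -/
def DB (I : Ideal A) [I.IsTwoSided] : Submodule A (DA k A) where
  carrier := {f | ∀ x ∈ I, f.ev x = 0}
  add_mem' {f g} hf hg x hx := by
    rw [DA.add_ev, hf x hx, hg x hx, add_zero]
  zero_mem' x hx := rfl
  smul_mem' a f hf x hx := hf _ (I.mul_mem_right a hx)

theorem DB.smul_eq_zero (I : Ideal A) [I.IsTwoSided] {a : A} (ha : a ∈ I) (f : DB k I) :
    a • f = 0 := by
  apply Subtype.ext
  apply DA.ext'
  intro x
  exact f.2 _ (I.mul_mem_left x ha)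

section toDB

variable {I : Ideal A} [I.IsTwoSided] {M : Type u} [AddCommGroup M] [Module A M]
  [Module k M] [IsScalarTower k A M]

/-- The `A`-linear map `M → D(A/I)` given by a functional on `M` that vanishes on `I M`. -/
def toDB (f : M →ₗ[k] k) (hf : ∀ a ∈ I, ∀ m : M, f (a • m) = 0) : M →ₗ[A] DB k I where
  toFun m := ⟨(f ∘ₗ (LinearMap.toSpanSingleton A M m).restrictScalars k : A →ₗ[k] k),
    fun x hx => hf x hx m⟩
  map_add' m n := by
    apply Subtype.ext
    apply DA.ext'
    intro x
    change f (x • (m + n)) = f (x • m) + f (x • n)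
    rw [smul_add, map_add]
  map_smul' a m := by
    apply Subtype.ext
    apply DA.ext'
    intro x
    change f (x • (a • m)) = f ((x * a) • m)
    rw [mul_smul]

theorem toDB_ev (f : M →ₗ[k] k) (hf : ∀ a ∈ I, ∀ m : M, f (a • m) = 0) (m : M) (x : A) :
    (toDB f hf m : DA k A).ev x = f (x • m) := rfl

omit [Module k M] [IsScalarTower k A M] in
theorem hom_DB_ev (g : M →ₗ[A] DB k I) (m : M) (x : A) :
    (g m : DA k A).ev x = (g (x • m) : DA k A).ev 1 := by
  rw [map_smul]
  change _ = (g m : DA k A).ev (1 * x)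
  rw [one_mul]

/-- The functional of a map to `D(A/I)`. -/
def fromDB (g : M →ₗ[A] DB k I) : M →ₗ[k] k where
  toFun m := (g m : DA k A).ev 1
  map_add' m n := by rw [map_add]; rfl
  map_smul' c m := by
    rw [← algebraMap_smul A c m, map_smul]
    change (g m : DA k A).ev (1 * algebraMap k A c) = c • (g m : DA k A).ev 1
    rw [one_mul, Algebra.algebraMap_eq_smul_one, map_smul]

theorem fromDB_apply (g : M →ₗ[A] DB k I) (m : M) : fromDB g m = (g m : DA k A).ev 1 := rfl

theorem fromDB_smul (g : M →ₗ[A] DB k I) {a : A} (ha : a ∈ I) (m : M) :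
    fromDB g (a • m) = 0 := by
  rw [fromDB_apply, map_smul, DB.smul_eq_zero I ha]
  rfl

end toDB

end

/-- `X ∈ Fac T`: there is a surjection `T^n → X`. -/
def InFac (R : Type u) [Ring R] (T X : Type u) [AddCommGroup T] [AddCommGroup X]
    [Module R T] [Module R X] : Prop :=
  ∃ (n : ℕ) (f : (Fin n → T) →ₗ[R] X), Function.Surjective f

section fac

variable {R : Type u} [Ring R] {T X Y : Type u} [AddCommGroup T] [AddCommGroup X]
  [AddCommGroup Y] [Module R T] [Module R X] [Module R Y]

theorem InFac.of_surjective (h : InFac R T X) (g : X →ₗ[R] Y) (hg : Function.Surjective g) :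
    InFac R T Y := by
  obtain ⟨n, f, hf⟩ := h
  exact ⟨n, g ∘ₗ f, hg.comp hf⟩

theorem InFac.self : InFac R T T :=
  ⟨1, LinearMap.proj 0, fun t => ⟨fun _ => t, rfl⟩⟩

theorem InFac.zero [Subsingleton X] : InFac R T X :=
  ⟨0, 0, fun _ => ⟨0, Subsingleton.elim _ _⟩⟩

theorem InFac.prod (hX : InFac R T X) (hY : InFac R T Y) : InFac R T (X × Y) := by
  obtain ⟨n, f, hf⟩ := hX
  obtain ⟨m, g, hg⟩ := hY
  refine ⟨n + m, LinearMap.prod (f ∘ₗ LinearMap.funLeft R T (Fin.castAdd m))
    (g ∘ₗ LinearMap.funLeft R T (Fin.natAdd n)), fun ⟨x, y⟩ => ?_⟩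
  obtain ⟨a, rfl⟩ := hf x
  obtain ⟨b, rfl⟩ := hg y
  refine ⟨Fin.append a b, ?_⟩
  have e1 : LinearMap.funLeft R T (Fin.castAdd m) (Fin.append a b) = a := by
    ext i; simp [LinearMap.funLeft_apply]
  have e2 : LinearMap.funLeft R T (Fin.natAdd n) (Fin.append a b) = b := by
    ext i; simp [LinearMap.funLeft_apply]
  exact Prod.ext (congrArg f e1) (congrArg g e2)

theorem InFac.pow (hX : InFac R T X) (n : ℕ) : InFac R T (Fin n → X) := by
  induction n with
  | zero => exact InFac.zero
  | succ n ih =>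
    refine (hX.prod ih).of_surjective (Fin.consLinearEquiv R (fun _ => X)).toLinearMap
      (Fin.consLinearEquiv R (fun _ => X)).surjective

/-- If `C ∈ Fac T` and `X ∈ Fac C`, then `X ∈ Fac T`. -/
theorem InFac.trans (hX : InFac R T X) (hY : InFac R X Y) : InFac R T Y := by
  obtain ⟨n, f, hf⟩ := hY
  exact (hX.pow n).of_surjective f hf

end fac

section facDB

variable {k : Type u} [Field k] {A : Type u} [Ring A] [Algebra k A] [Module.Finite k A]
  {I : Ideal A} [I.IsTwoSided] {T : Type u} [AddCommGroup T] [Module A T]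
  [Module k T] [IsScalarTower k A T] [Module.Finite k T]

/-- `D(A/I) ∈ Fac T` if `I` is the annihilator of `T`. -/
theorem DB_inFac (hI : ∀ a, a ∈ I ↔ ∀ t : T, a • t = 0) : InFac A T (DB k I) := by
  let b := Module.finBasis k T
  let n := Module.finrank k T
  have hf : ∀ (j : Fin n) (a : A), a ∈ I → ∀ t : T, b.coord j (a • t) = 0 := by
    intro j a ha t
    rw [(hI a).1 ha t, map_zero]
  let g : (Fin n → T) →ₗ[A] DB k I :=
    ∑ j : Fin n, toDB (b.coord j) (hf j) ∘ₗ LinearMap.proj j
  refine ⟨n, g, ?_⟩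
  have hg : ∀ (t : Fin n → T) (x : A),
      (g t : DA k A).ev x = ∑ j, b.coord j (x • t j) := by
    intro t x
    have h1 : g t = ∑ j, toDB (b.coord j) (hf j) (t j) := by
      simp only [g, LinearMap.sum_apply]
      rfl
    rw [h1]
    have h2 : ∀ s : Finset (Fin n), ((∑ j ∈ s, toDB (b.coord j) (hf j) (t j) : DB k I) :
        DA k A).ev x = ∑ j ∈ s, b.coord j (x • t j) := by
      intro s
      induction s using Finset.induction_on with
      | empty => rfl
      | insert a s ha ih =>
        rw [Finset.sum_insert ha, Finset.sum_insert ha, ← ih]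
        rfl
    exact h2 _
  -- the range, as a `k`-subspace of the dual of `A`
  let W : Subspace k (Module.Dual k A) :=
    { carrier := {f | ∃ t : Fin n → T, ∀ x, f x = (g t : DA k A).ev x}
      add_mem' := by
        rintro f f' ⟨t, ht⟩ ⟨t', ht'⟩
        refine ⟨t + t', fun x => ?_⟩
        rw [map_add, LinearMap.add_apply, ht, ht']
        rfl
      zero_mem' := ⟨0, fun x => by rw [map_zero]; rfl⟩
      smul_mem' := by
        rintro c f ⟨t, ht⟩
        refine ⟨c • t, fun x => ?_⟩
        rw [LinearMap.smul_apply, ht, hg, hg, Finset.smul_sum]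
        refine Finset.sum_congr rfl fun j _ => ?_
        rw [Pi.smul_apply, ← map_smul]
        congr 1
        exact smul_comm c x (t j) }
  have hW : W.dualCoannihilator ≤ I.restrictScalars k := by
    intro a ha
    rw [Submodule.mem_dualCoannihilator] at ha
    change a ∈ I
    rw [hI]
    intro t
    apply b.ext_elem
    intro j
    rw [map_zero, Finsupp.zero_apply]
    have h3 := ha ((g (Pi.single j t) : DA k A).ev) ⟨Pi.single j t, fun x => rfl⟩
    rw [hg, Finset.sum_eq_single j] at h3
    · rw [Pi.single_eq_same] at h3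
      exact h3
    · intro l _ hl
      rw [Pi.single_eq_of_ne hl, smul_zero, map_zero]
    · intro h; exact absurd (Finset.mem_univ j) h
  intro f
  have hfW : (f : DA k A).ev ∈ W := by
    rw [← Subspace.dualCoannihilator_dualAnnihilator_eq (W := W), Submodule.mem_dualAnnihilator]
    intro a ha
    exact f.2 a (hW ha)
  obtain ⟨t, ht⟩ := hfW
  exact ⟨t, Subtype.ext (DA.ext' fun x => (ht x).symm)⟩

end facDB

end W5h64.TT
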