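/-
The dual of the regular module: it is injective, and if it is projective then the algebra is
selfinjective.
-/
import Pool.Agent.W5h64.TT.Cogen

namespace W5h64.TT

open Module

universe u

section

variable (k : Type u) [Field k] (A : Type u) [Ring A] [Algebra k A]

theorem DA_injective : Module.Injective A (DA k A) where
  out X Y _ _ _ _ i hi g := by
    let _ : Module k X := Module.compHom X (algebraMap k A)
    let _ : Module k Y := Module.compHom Y (algebraMap k A)
    have : IsScalarTower k A X := ⟨fun c a t => by
      rw [Algebra.smul_def, mul_smul]
      rfl⟩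
    have : IsScalarTower k A Y := ⟨fun c a t => by
      rw [Algebra.smul_def, mul_smul]
      rfl⟩
    let φ : X →ₗ[k] k :=
      { toFun := fun x => (g x).ev 1
        map_add' := fun x y => by rw [map_add]; rfl
        map_smul' := fun c x => by
          rw [← algebraMap_smul A c x, map_smul]
          change (g x).ev (1 * algebraMap k A c) = c • (g x).ev 1
          rw [one_mul, Algebra.algebraMap_eq_smul_one, map_smul] }
    obtain ⟨ψ, hψ⟩ := (i.restrictScalars k).exists_leftInverse_of_injective
      (LinearMap.ker_eq_bot.2 hi)
    let χ : Y →ₗ[k] k := φ ∘ₗ ψ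
    have hχ : ∀ x, χ (i x) = φ x := fun x => congrArg φ (LinearMap.congr_fun hψ x)
    refine ⟨{ toFun := fun y => (χ ∘ₗ (LinearMap.toSpanSingleton A Y y).restrictScalars k :
                A →ₗ[k] k)
              map_add' := fun y z => DA.ext' fun a => by
                change χ (a • (y + z)) = χ (a • y) + χ (a • z)
                rw [smul_add, map_add]
              map_smul' := fun b y => DA.ext' fun a => by
                change χ (a • (b • y)) = χ ((a * b) • y)
                rw [mul_smul] }, fun x => DA.ext' fun a => ?_⟩
    change χ (a • i x) = (g x).ev a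
    rw [← map_smul, hχ]
    change (g (a • x)).ev 1 = _
    rw [map_smul, DA.smul_ev, one_mul]

variable [Module.Finite k A]

instance DA_finite : Module.Finite A (DA k A) := by
  have : Module.Finite k (DA k A) := inferInstanceAs (Module.Finite k (A →ₗ[k] k))
  exact Module.Finite.of_restrictScalars_finite k A (DA k A)

/-- If `D(A)` is projective, then `A` is injective as a right module. -/
theorem op_injective (h : Module.Projective A (DA k A)) : Module.Injective Aᵐᵒᵖ A where
  out X Y _ _ _ _ i hi g := by
    obtain ⟨n, p, hp⟩ := Module.Finite.exists_fin' A (DA k A)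
    obtain ⟨s, hs⟩ := Module.projective_lifting_property p LinearMap.id hp
    let _ : Module k X := Module.compHom X (algebraMap k Aᵐᵒᵖ)
    let _ : Module k Y := Module.compHom Y (algebraMap k Aᵐᵒᵖ)
    have : IsScalarTower k Aᵐᵒᵖ X := ⟨fun c a t => by
      rw [Algebra.smul_def, mul_smul]
      rfl⟩
    have : IsScalarTower k Aᵐᵒᵖ Y := ⟨fun c a t => by
      rw [Algebra.smul_def, mul_smul]
      rfl⟩
    obtain ⟨ψ, hψ⟩ := (i.restrictScalars k).exists_leftInverse_of_injective
      (LinearMap.ker_eq_bot.2 hi)
    let f : Fin n → DA k A := fun j => p (Pi.single j 1)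
    have hp' : ∀ v, p v = ∑ j, v j • f j := by
      intro v
      conv_lhs => rw [← Finset.univ_sum_single v, map_sum]
      refine Finset.sum_congr rfl fun j _ => ?_
      rw [← map_smul, ← Pi.single_smul, smul_eq_mul, mul_one]
    let gk : X →ₗ[k] A := g.restrictScalars k
    let Ψ : Fin n → (Y →ₗ[k] k) := fun j => (f j).ev ∘ₗ gk ∘ₗ ψ
    have hΨ : ∀ j x, Ψ j (i x) = (f j).ev (g x) := fun j x =>
      congrArg (fun z => (f j).ev (g z)) (LinearMap.congr_fun hψ x)
    -- the functional on `D(A)` attached to `y`
    let F : Y → Module.Dual k (Module.Dual k A) := fun y =>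
      { toFun := fun t => ∑ j, Ψ j (MulOpposite.op (s (show DA k A from t) j) • y)
        map_add' := fun t t' => by
          rw [← Finset.sum_add_distrib]
          refine Finset.sum_congr rfl fun j _ => ?_
          have h1 : s (show DA k A from t + t') j =
              s (show DA k A from t) j + s (show DA k A from t') j :=
            congrFun (map_add s (show DA k A from t) (show DA k A from t')) j
          rw [h1, MulOpposite.op_add, add_smul, map_add]
        map_smul' := fun c t => by
          rw [RingHom.id_apply, Finset.smul_sum]
          refine Finset.sum_congr rfl fun j _ => ?_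
          have h1 : s (show DA k A from c • t) j = c • s (show DA k A from t) j := by
            have h2 : (show DA k A from c • t) = algebraMap k A c • (show DA k A from t) := by
              rw [algebraMap_smul]
              rfl
            rw [h2, map_smul, Pi.smul_apply, algebraMap_smul]
          rw [h1, MulOpposite.op_smul, smul_assoc, map_smul] }
    have hev : ∀ y, ∃ a : A, ∀ t : DA k A, t.ev a = ∑ j, Ψ j (MulOpposite.op (s t j) • y) := by
      intro y
      refine ⟨(Module.evalEquiv k A).symm (F y), fun t => ?_⟩
      have h1 : Module.evalEquiv k A ((Module.evalEquiv k A).symm (F y)) = F y :=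
        LinearEquiv.apply_symm_apply _ _
      exact LinearMap.congr_fun h1 t.ev
    choose H hH using hev
    have huniq : ∀ a b : A, (∀ t : DA k A, t.ev a = t.ev b) → a = b := by
      intro a b hab
      apply (Module.evalEquiv k A).injective
      apply LinearMap.ext
      intro t
      exact hab t
    refine ⟨{ toFun := H
              map_add' := fun y z => huniq _ _ fun t => ?_
              map_smul' := fun b y => huniq _ _ fun t => ?_ }, fun x => huniq _ _ fun t => ?_⟩
    · rw [map_add, hH, hH, hH, ← Finset.sum_add_distrib]
      refine Finset.sum_congr rfl fun j _ => ?_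
      rw [smul_add, map_add]
    · rw [hH, RingHom.id_apply]
      have h1 : t.ev (b • H y) = (b.unop • t).ev (H y) := rfl
      rw [h1, hH]
      refine Finset.sum_congr rfl fun j _ => ?_
      rw [map_smul s, Pi.smul_apply, smul_eq_mul, MulOpposite.op_mul, mul_smul]
      rfl
    · change t.ev (H (i x)) = t.ev (g x)
      rw [hH]
      have h1 : ∀ j, Ψ j (MulOpposite.op (s t j) • i x) = (s t j • f j).ev (g x) := by
        intro j
        rw [← map_smul, hΨ, map_smul]
        rfl
      have h2 : t = ∑ j, s t j • f j := by
        rw [← hp']
        exact (LinearMap.congr_fun hs t).symm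
      have h3 : ∀ (S : Finset (Fin n)), (∑ j ∈ S, s t j • f j).ev (g x) =
          ∑ j ∈ S, (s t j • f j).ev (g x) := by
        intro S
        classical
        induction S using Finset.induction_on with
        | empty => rfl
        | insert a S ha ih =>
          rw [Finset.sum_insert ha, Finset.sum_insert ha, DA.add_ev, ih]
      conv_rhs => rw [h2, h3]
      exact Finset.sum_congr rfl fun j _ => h1 j

end

end W5h64.TT
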