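/-
Definitions, and the left approximation `0 → A/I → T^n → C → 0` of a tau-tilting module.
-/
import Pool.Agent.W5h64.TT.Cogen

namespace W5h64.TT

universe u

/-- `X ∈ add T`: `X` is a direct summand of some `T^n`. -/
def InAdd (R : Type u) [Ring R] (T X : Type u) [AddCommGroup T] [AddCommGroup X]
    [Module R T] [Module R X] : Prop :=
  ∃ (n : ℕ) (i : X →ₗ[R] (Fin n → T)) (p : (Fin n → T) →ₗ[R] X), p ∘ₗ i = LinearMap.id

/-- `T` is tau-rigid: `Ext¹(T, X) = 0` for every `X ∈ Fac T`. By Auslander and Smalo this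
says `Hom(T, τ T) = 0` for finitely generated modules over an artin algebra. -/
def TauRigid (R : Type u) [Ring R] (T : Type u) [AddCommGroup T] [Module R T] : Prop :=
  ∀ (X : Type u) [AddCommGroup X] [Module R X], InFac R T X → ExtZero R T X 1

/-- `T` is tau-tilting: `T` is tau-rigid, sincere (no nonzero idempotent kills `T`), and
maximal among tau-rigid modules (if `T × X` is tau-rigid then `X ∈ add T`). -/
structure TauTilting (R : Type u) [Ring R] (T : Type u) [AddCommGroup T] [Module R T] :
    Prop where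
  rigid : TauRigid R T
  sincere : ∀ e : R, e * e = e → (∀ t : T, e • t = 0) → e = 0
  maximal : ∀ (X : Type u) [AddCommGroup X] [Module R X], Module.Finite R X →
    TauRigid R (T × X) → InAdd R T X

section add

variable {R : Type u} [Ring R] {T X Y : Type u} [AddCommGroup T] [AddCommGroup X]
  [AddCommGroup Y] [Module R T] [Module R X] [Module R Y]

theorem InAdd.pow (n : ℕ) : InAdd R T (Fin n → T) := ⟨n, LinearMap.id, LinearMap.id, rfl⟩

theorem InAdd.ext_left (hX : InAdd R T X) {i : ℕ} (h : ExtZero R T Y i) : ExtZero R X Y i := by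
  obtain ⟨n, a, b, hab⟩ := hX
  exact ext_retract_left hab (ext_pow_left n h)

theorem InAdd.ext_right (hX : InAdd R T X) {i : ℕ} (h : ExtZero R Y T i) : ExtZero R Y X i := by
  obtain ⟨n, a, b, hab⟩ := hX
  exact ext_retract_right hab (ext_pow_right n h)

theorem prod_exact : Function.Exact (LinearMap.inl R X Y) (LinearMap.snd R X Y) := by
  intro z
  constructor
  · intro h
    exact ⟨z.1, Prod.ext rfl (Eq.symm h)⟩
  · rintro ⟨x, rfl⟩
    rfl

end add

section approx

theorem exists_approx (k : Type u) [Field k] {A : Type u} [Ring A] [Algebra k A]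
    {I : Ideal A} [I.IsTwoSided] {T : Type u} [AddCommGroup T] [Module A T]
    [Module k T] [IsScalarTower k A T] [Module.Finite k T] (hT : TauTilting A T) (hI : ∀ a, a ∈ I ↔ ∀ t : T, a • t = 0) :
    ∃ (n : ℕ) (C : Type u) (_ : AddCommGroup C) (_ : Module A C)
      (f : (A ⧸ I) →ₗ[A] (Fin n → T)) (p : (Fin n → T) →ₗ[A] C),
      Function.Injective f ∧ Function.Exact f p ∧ Function.Surjective p ∧ InAdd A T C := by
  let b := Module.finBasis k T
  let n := Module.finrank k T
  let f₀ : A →ₗ[A] (Fin n → T) := LinearMap.toSpanSingleton A (Fin n → T) (fun j => b j)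
  have hf₀ : ∀ (a : A) (j : Fin n), f₀ a j = a • b j := fun a j => rfl
  have hker : LinearMap.ker f₀ = I := by
    ext a
    rw [LinearMap.mem_ker, hI]
    constructor
    · intro h t
      rw [← b.sum_repr t, Finset.smul_sum]
      refine Finset.sum_eq_zero fun j _ => ?_
      rw [smul_comm, ← hf₀, h, Pi.zero_apply, smul_zero]
    · intro h
      ext j
      rw [hf₀, h]
      rfl
  let f : (A ⧸ I) →ₗ[A] (Fin n → T) := Submodule.liftQ I f₀ hker.ge
  have hfmk : ∀ a : A, f (Submodule.Quotient.mk a) = f₀ a := fun a => rfl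
  have hfinj : Function.Injective f := by
    rw [← LinearMap.ker_eq_bot, Submodule.ker_liftQ, hker]
    exact Submodule.mkQ_map_self I
  let p : (Fin n → T) →ₗ[A] ((Fin n → T) ⧸ LinearMap.range f) := (LinearMap.range f).mkQ
  have hp : Function.Surjective p := Submodule.mkQ_surjective _
  have hex : Function.Exact f p := LinearMap.exact_map_mkQ_range f
  have hCfac : InFac A T ((Fin n → T) ⧸ LinearMap.range f) :=
    (InFac.self.pow n).of_surjective p hp
  -- factorization
  have hfac : ∀ (X : Type u) [AddCommGroup X] [Module A X], InFac A T X →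
      ∀ h : (A ⧸ I) →ₗ[A] X, ∃ g' : (Fin n → T) →ₗ[A] X, g' ∘ₗ f = h := by
    intro X _ _ hX h
    obtain ⟨m, q, hq⟩ := hX
    obtain ⟨s, hs⟩ := hq (h (Submodule.Quotient.mk 1))
    let g : (Fin n → T) →ₗ[A] (Fin m → T) :=
      LinearMap.pi fun i => ∑ j, b.repr (s i) j • LinearMap.proj (R := A) (φ := fun _ => T) j
    have hg : ∀ (t : Fin n → T) (i : Fin m), g t i = ∑ j, b.repr (s i) j • t j := by
      intro t i
      simp only [g, LinearMap.pi_apply, LinearMap.sum_apply, LinearMap.smul_apply,
        LinearMap.proj_apply]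
    refine ⟨q ∘ₗ g, ?_⟩
    apply LinearMap.ext
    intro x
    obtain ⟨a, rfl⟩ := Submodule.Quotient.mk_surjective _ x
    have e1 : g (f₀ a) = a • s := by
      ext i
      rw [hg, Pi.smul_apply]
      conv_rhs => rw [← b.sum_repr (s i), Finset.smul_sum]
      refine Finset.sum_congr rfl fun j _ => ?_
      rw [hf₀, smul_comm]
    rw [LinearMap.comp_apply, LinearMap.comp_apply, hfmk, e1, map_smul, hs, ← map_smul,
      ← Submodule.Quotient.mk_smul, smul_eq_mul, mul_one]
  have hCrig : ∀ (X : Type u) [AddCommGroup X] [Module A X], InFac A T X →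
      ExtZero A ((Fin n → T) ⧸ LinearMap.range f) X 1 := by
    intro X _ _ hX
    exact ext_one_X₃ hex hfinj hp (ext_pow_left n (hT.rigid X hX)) (hfac X hX)
  refine ⟨n, _, inferInstance, inferInstance, f, p, hfinj, hex, hp, ?_⟩
  refine hT.maximal _ ?_ ?_
  · have : Module.Finite A T := Module.Finite.of_restrictScalars_finite k A T
    infer_instance
  · intro X _ _ hX
    have hX' : InFac A T X := (InFac.self.prod hCfac).trans hX
    exact ext_X₂ prod_exact LinearMap.inl_injective LinearMap.snd_surjective
      (hT.rigid X hX') (hCrig X hX')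

end approx

end W5h64.TT
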