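/-
Maps from the first syzygy of a tau-rigid module lift along surjections of `A/I`-modules.
-/
import Pool.Agent.W5h64.TT.Approx

namespace W5h64.TT

universe u

theorem lift_of_rigid (k : Type u) [Field k] {A : Type u} [Ring A] [Algebra k A]
    [Module.Finite k A] {I : Ideal A} [I.IsTwoSided]
    {T : Type u} [AddCommGroup T] [Module A T]
    [Module k T] [IsScalarTower k A T] [Module.Finite k T]
    (hr : TauRigid A T) (hI : ∀ a, a ∈ I ↔ ∀ t : T, a • t = 0)
    {Q M : Type u} [AddCommGroup Q] [AddCommGroup M] [Module A Q] [Module A M]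
    [Module.Projective A Q] {i : M →ₗ[A] Q} {q : Q →ₗ[A] T} (hex : Function.Exact i q)
    (hi : Function.Injective i) (hq : Function.Surjective q)
    {F G : Type u} [AddCommGroup F] [AddCommGroup G] [Module A F] [Module A G]
    [Module k F] [IsScalarTower k A F] [Module.Finite k F]
    (hF : ∀ a ∈ I, ∀ x : F, a • x = 0) (p : F →ₗ[A] G) (hp : Function.Surjective p)
    (h : M →ₗ[A] G) : ∃ h' : M →ₗ[A] F, p ∘ₗ h' = h := by
  let b := Module.finBasis k F
  let m := Module.finrank k F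
  have hb : ∀ (j : Fin m), ∀ a ∈ I, ∀ x : F, b.coord j (a • x) = 0 := by
    intro j a ha x
    rw [hF a ha x, map_zero]
  let ε : F →ₗ[A] (Fin m → DB k I) := LinearMap.pi fun j => toDB (b.coord j) (hb j)
  have hε : ∀ x : F, ε x = 0 → x = 0 := by
    intro x hx
    apply b.ext_elem
    intro j
    rw [map_zero, Finsupp.zero_apply]
    have h1 : toDB (b.coord j) (hb j) x = 0 := congrFun hx j
    have h2 : (toDB (b.coord j) (hb j) x : DA k A).ev 1 = 0 := by
      rw [h1]; rfl
    rw [toDB_ev, one_smul] at h2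
    exact h2
  let Y := LinearMap.ker p
  let Y' := Y.map ε
  have hC : InFac A T ((Fin m → DB k I) ⧸ Y') :=
    ((DB_inFac hI).pow m).of_surjective Y'.mkQ (Submodule.mkQ_surjective _)
  let c₀ : (F ⧸ Y) →ₗ[A] ((Fin m → DB k I) ⧸ Y') := Y.mapQ Y' ε (Submodule.le_comap_map _ _)
  let e := p.quotKerEquivOfSurjective hp
  let c : G →ₗ[A] ((Fin m → DB k I) ⧸ Y') := c₀ ∘ₗ e.symm.toLinearMap
  have hc : ∀ x : F, c (p x) = Y'.mkQ (ε x) := by
    intro x
    have h1 : e.symm (p x) = Submodule.Quotient.mk x := by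
      rw [LinearEquiv.symm_apply_eq]
      rfl
    change c₀ (e.symm (p x)) = _
    rw [h1]
    rfl
  obtain ⟨g, hg⟩ := exists_extend hex hi hq (hr _ hC) (c ∘ₗ h)
  obtain ⟨δ, hδ⟩ := Module.projective_lifting_property Y'.mkQ g (Submodule.mkQ_surjective _)
  let φ : F →ₗ[A] (G × (Fin m → DB k I)) := p.prod ε
  let ψ : M →ₗ[A] (G × (Fin m → DB k I)) := h.prod (δ ∘ₗ i)
  have hφ : Function.Injective φ := by
    rw [← LinearMap.ker_eq_bot, LinearMap.ker_eq_bot']
    intro x hx
    exact hε x (congrArg Prod.snd hx)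
  have hψ : ∀ x : M, ψ x ∈ LinearMap.range φ := by
    intro x
    obtain ⟨y, hy⟩ := hp (h x)
    have h1 : Y'.mkQ (ε y) = Y'.mkQ (δ (i x)) := by
      rw [← hc, hy]
      have h2 := LinearMap.congr_fun hg x
      have h3 := LinearMap.congr_fun hδ (i x)
      rw [LinearMap.comp_apply] at h2 h3
      rw [h3, h2]
      rfl
    have h4 : ε y - δ (i x) ∈ Y' := by
      rw [← Submodule.Quotient.mk_eq_zero, Submodule.Quotient.mk_sub, sub_eq_zero]
      exact h1
    obtain ⟨z, hz, hz'⟩ := h4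
    refine ⟨y - z, ?_⟩
    have h5 : p z = 0 := hz
    refine Prod.ext ?_ ?_
    · change p (y - z) = h x
      rw [map_sub, h5, sub_zero, hy]
    · change ε (y - z) = δ (i x)
      rw [map_sub, hz', sub_sub_cancel]
  let h' : M →ₗ[A] F :=
    (LinearEquiv.ofInjective φ hφ).symm.toLinearMap ∘ₗ ψ.codRestrict (LinearMap.range φ) hψ
  have hh' : ∀ x, φ (h' x) = ψ x := by
    intro x
    have h6 : (LinearEquiv.ofInjective φ hφ) (h' x) = ⟨ψ x, hψ x⟩ :=
      LinearEquiv.apply_symm_apply _ _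
    exact congrArg Subtype.val h6
  refine ⟨h', LinearMap.ext fun x => ?_⟩
  exact congrArg Prod.fst (hh' x)

/-- The submodule `I M`. -/
def IM {A : Type u} [Ring A] (I : Ideal A) (M : Type u) [AddCommGroup M] [Module A M] :
    Submodule A M :=
  Submodule.span A {x | ∃ a ∈ I, ∃ m : M, x = a • m}

section IM

variable {A : Type u} [Ring A] {I : Ideal A} {M N : Type u} [AddCommGroup M] [Module A M]
  [AddCommGroup N] [Module A N]

theorem smul_mem_IM {a : A} (ha : a ∈ I) (m : M) : a • m ∈ IM I M :=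
  Submodule.subset_span ⟨a, ha, m, rfl⟩

theorem IM_le_ker (f : M →ₗ[A] N) (hf : ∀ a ∈ I, ∀ m : M, f (a • m) = 0) :
    IM I M ≤ LinearMap.ker f := by
  refine Submodule.span_le.2 ?_
  rintro x ⟨a, ha, m, rfl⟩
  exact hf a ha m

theorem IM_le_comap (f : M →ₗ[A] N) : IM I M ≤ (IM I N).comap f := by
  refine Submodule.span_le.2 ?_
  rintro x ⟨a, ha, m, rfl⟩
  change f (a • m) ∈ IM I N
  rw [map_smul]
  exact smul_mem_IM ha _

theorem quot_IM_smul {a : A} (ha : a ∈ I) (x : M ⧸ IM I M) : a • x = 0 := by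
  obtain ⟨m, rfl⟩ := Submodule.Quotient.mk_surjective _ x
  rw [← Submodule.Quotient.mk_smul, Submodule.Quotient.mk_eq_zero]
  exact smul_mem_IM ha m

theorem quot_smul [I.IsTwoSided] {a : A} (ha : a ∈ I) (x : A ⧸ I) : a • x = 0 := by
  obtain ⟨m, rfl⟩ := Submodule.Quotient.mk_surjective _ x
  rw [← Submodule.Quotient.mk_smul, Submodule.Quotient.mk_eq_zero]
  exact I.mul_mem_right m ha

theorem quot_IM_le_ker [I.IsTwoSided] (f : M →ₗ[A] (A ⧸ I)) : IM I M ≤ LinearMap.ker f :=
  IM_le_ker f fun a ha m => by rw [map_smul, quot_smul ha]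

end IM

end W5h64.TT
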