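/-
The right `A/I`-modules `Hom_A(M, A/I)`.
-/
import Pool.Agent.W5h64.TT.Lift

namespace W5h64.TT

open CategoryTheory CategoryTheory.Abelian

universe u

/-- Every finitely generated left `R`-module of finite projective dimension has projective
dimension at most `d`. -/
def FinDimLE (R : Type u) [Ring R] (d : ℕ) : Prop :=
  ∀ (M : Type u) [AddCommGroup M] [Module R M], Module.Finite R M →
    ∀ n : ℕ, HasProjectiveDimensionLE (ModuleCat.of R M) n →
      HasProjectiveDimensionLE (ModuleCat.of R M) d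

section general

variable {R : Type u} [Ring R] {X P Y Z : Type u} [AddCommGroup X] [AddCommGroup P]
  [AddCommGroup Y] [AddCommGroup Z] [Module R X] [Module R P] [Module R Y] [Module R Z]

theorem exists_factor (π : P →ₗ[R] Y) (hπ : Function.Surjective π) (f : P →ₗ[R] Z)
    (h : ∀ x, π x = 0 → f x = 0) : ∃ g : Y →ₗ[R] Z, ∀ x, g (π x) = f x := by
  refine ⟨(LinearMap.ker π).liftQ f (fun x hx => h x hx) ∘ₗ
    (π.quotKerEquivOfSurjective hπ).symm.toLinearMap, fun x => ?_⟩
  have h1 : (π.quotKerEquivOfSurjective hπ).symm (π x) = Submodule.Quotient.mk x := by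
    rw [LinearEquiv.symm_apply_eq]
    rfl
  rw [LinearMap.comp_apply, LinearEquiv.coe_coe, h1]
  rfl

theorem exists_cofactor (α : X →ₗ[R] P) (hα : Function.Injective α) (f : Z →ₗ[R] P)
    (h : ∀ z, ∃ x, α x = f z) : ∃ g : Z →ₗ[R] X, ∀ z, α (g z) = f z := by
  refine ⟨(LinearEquiv.ofInjective α hα).symm.toLinearMap ∘ₗ
    f.codRestrict (LinearMap.range α) (fun z => h z), fun z => ?_⟩
  have h6 : (LinearEquiv.ofInjective α hα)
      (((LinearEquiv.ofInjective α hα).symm.toLinearMap ∘ₗ
        f.codRestrict (LinearMap.range α) (fun z => h z)) z) = ⟨f z, h z⟩ :=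
    LinearEquiv.apply_symm_apply _ _
  exact congrArg Subtype.val h6

/-- The cokernel of a split monomorphism into a projective module is projective. -/
theorem projective_of_retract {α : X →ₗ[R] P} {π : P →ₗ[R] Y} (hex : Function.Exact α π)
    (hπ : Function.Surjective π) (r : P →ₗ[R] X) (hr : ∀ x, r (α x) = x)
    [Module.Projective R P] : Module.Projective R Y := by
  obtain ⟨g, hg⟩ := exists_factor π hπ (LinearMap.id - α ∘ₗ r) (fun x hx => by
    obtain ⟨y, rfl⟩ := (hex x).1 hx
    change α y - α (r (α y)) = 0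
    rw [hr, sub_self])
  refine Module.Projective.of_split g π ?_
  apply LinearMap.ext
  intro y
  obtain ⟨x, rfl⟩ := hπ y
  rw [LinearMap.comp_apply, hg]
  change π (x - α (r x)) = π x
  rw [map_sub, hex.apply_apply_eq_zero, sub_zero]

/-- A short exact sequence ending in a projective module splits. -/
theorem exists_retraction {α : X →ₗ[R] P} {π : P →ₗ[R] Y} (hex : Function.Exact α π)
    (hα : Function.Injective α) (hπ : Function.Surjective π) [Module.Projective R Y] :
    ∃ r : P →ₗ[R] X, ∀ x, r (α x) = x := by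
  obtain ⟨t, ht⟩ := Module.projective_lifting_property π LinearMap.id hπ
  have ht' : ∀ y, π (t y) = y := fun y => LinearMap.congr_fun ht y
  obtain ⟨g, hg⟩ := exists_cofactor α hα (LinearMap.id - t ∘ₗ π) (fun z => by
    have : π (z - t (π z)) = 0 := by rw [map_sub, ht', sub_self]
    exact (hex _).1 this)
  refine ⟨g, fun x => hα ?_⟩
  rw [hg]
  change α x - t (π (α x)) = α x
  rw [hex.apply_apply_eq_zero, map_zero, sub_zero]

end general

section homB

variable {A : Type u} [Ring A] {I : Ideal A} [I.IsTwoSided]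
  {M N Q : Type u} [AddCommGroup M] [Module A M] [AddCommGroup N] [Module A N]
  [AddCommGroup Q] [Module A Q]

/-- Composition with a map, as a map of right `A/I`-modules. -/
def pre (f : N →ₗ[A] M) :
    (M →ₗ[A] (A ⧸ I)) →ₗ[(A ⧸ I)ᵐᵒᵖ] (N →ₗ[A] (A ⧸ I)) where
  toFun g := g ∘ₗ f
  map_add' g h := by ext; rfl
  map_smul' c g := by ext; rfl

@[simp] theorem pre_apply (f : N →ₗ[A] M) (g : M →ₗ[A] (A ⧸ I)) (x : N) :
    pre f g x = g (f x) := rfl

theorem pre_injective (f : N →ₗ[A] M) (hf : Function.Surjective f) :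
    Function.Injective (pre (I := I) f) := by
  intro g h hgh
  apply LinearMap.ext
  intro x
  obtain ⟨y, rfl⟩ := hf x
  exact LinearMap.congr_fun hgh y

theorem pre_exact {i : N →ₗ[A] Q} {q : Q →ₗ[A] M} (hex : Function.Exact i q)
    (hq : Function.Surjective q) : Function.Exact (pre (I := I) q) (pre (I := I) i) := by
  intro g
  constructor
  · intro h
    obtain ⟨g', hg'⟩ := exists_factor q hq g (fun x hx => by
      obtain ⟨y, rfl⟩ := (hex x).1 hx
      exact LinearMap.congr_fun h y)
    exact ⟨g', LinearMap.ext hg'⟩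
  · rintro ⟨g, rfl⟩
    apply LinearMap.ext
    intro x
    change g (q (i x)) = 0
    rw [hex.apply_apply_eq_zero, map_zero]

theorem pre_surjective {i : N →ₗ[A] Q} {q : Q →ₗ[A] M} (hex : Function.Exact i q)
    (hi : Function.Injective i) (hq : Function.Surjective q) (h : ExtZero A M (A ⧸ I) 1) :
    Function.Surjective (pre (I := I) i) := fun g => exists_extend hex hi hq h g

/-- `Hom_A(A^n, A/I)` is free over `(A/I)ᵒᵖ`. -/
noncomputable def freeEquiv (n : ℕ) :
    ((Fin n → A) →ₗ[A] (A ⧸ I)) ≃ₗ[(A ⧸ I)ᵐᵒᵖ] (Fin n → (A ⧸ I)ᵐᵒᵖ) :=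
  LinearEquiv.ofBijective
    { toFun := fun g j => MulOpposite.op (g (Pi.single j 1))
      map_add' := fun g h => rfl
      map_smul' := fun c g => rfl }
    (by
      constructor
      · intro g h hgh
        apply (Pi.basisFun A (Fin n)).ext
        intro j
        rw [Pi.basisFun_apply]
        exact MulOpposite.op_injective (congrFun hgh j)
      · intro c
        refine ⟨(Pi.basisFun A (Fin n)).constr ℕ fun j => MulOpposite.unop (c j), ?_⟩
        funext j
        apply MulOpposite.unop_injective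
        change ((Pi.basisFun A (Fin n)).constr ℕ fun j => MulOpposite.unop (c j))
          (Pi.single j 1) = _
        rw [← Pi.basisFun_apply, Module.Basis.constr_basis])

instance (n : ℕ) : Module.Projective (A ⧸ I)ᵐᵒᵖ ((Fin n → A) →ₗ[A] (A ⧸ I)) :=
  Module.Projective.of_equiv (freeEquiv (I := I) n).symm

instance (n : ℕ) : Module.Finite (A ⧸ I)ᵐᵒᵖ ((Fin n → A) →ₗ[A] (A ⧸ I)) :=
  Module.Finite.equiv (freeEquiv (I := I) n).symm

/-- The coordinate functions modulo `I`. -/
def coordB (I : Ideal A) [I.IsTwoSided] (n : ℕ) (j : Fin n) : (Fin n → A) →ₗ[A] (A ⧸ I) :=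
  (Submodule.mkQ I) ∘ₗ LinearMap.proj j

/-- Every right linear map `Hom_A(A^n, A/I) → A/I` is the evaluation at an element. -/
theorem exists_eval (n : ℕ) (ξ : ((Fin n → A) →ₗ[A] (A ⧸ I)) →ₗ[(A ⧸ I)ᵐᵒᵖ] (A ⧸ I)) :
    ∃ p : Fin n → A, ∀ ψ : (Fin n → A) →ₗ[A] (A ⧸ I), ξ ψ = ψ p := by
  choose p hp using fun j => Submodule.Quotient.mk_surjective I (ξ (coordB I n j))
  refine ⟨p, fun ψ => ?_⟩
  have h1 : ψ = ∑ j, MulOpposite.op (ψ (Pi.single j 1)) • coordB I n j := by
    apply LinearMap.ext
    intro x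
    rw [LinearMap.sum_apply]
    conv_lhs => rw [← Finset.univ_sum_single x, map_sum]
    refine Finset.sum_congr rfl fun j _ => ?_
    have h2 : (Pi.single j (x j) : Fin n → A) = x j • Pi.single j 1 := by
      rw [← Pi.single_smul, smul_eq_mul, mul_one]
    rw [h2, map_smul, LinearMap.smul_apply]
    change x j • ψ (Pi.single j 1) = Ideal.Quotient.mk I (x j) * ψ (Pi.single j 1)
    obtain ⟨y, hy⟩ := Ideal.Quotient.mk_surjective (ψ (Pi.single j 1))
    rw [← hy]
    rfl
  have h3 : ψ p = ∑ j, ξ (coordB I n j) * ψ (Pi.single j 1) := by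
    conv_lhs => rw [← Finset.univ_sum_single p, map_sum]
    refine Finset.sum_congr rfl fun j _ => ?_
    have h2 : (Pi.single j (p j) : Fin n → A) = p j • Pi.single j 1 := by
      rw [← Pi.single_smul, smul_eq_mul, mul_one]
    rw [h2, map_smul, ← hp]
    obtain ⟨y, hy⟩ := Ideal.Quotient.mk_surjective (ψ (Pi.single j 1))
    rw [← hy]
    rfl
  rw [h3]
  conv_lhs => rw [h1, map_sum]
  refine Finset.sum_congr rfl fun j _ => ?_
  rw [map_smul]
  rfl

end homB

end W5h64.TT
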