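/-
A numerical criterion for the projectivity of a module over a finite-dimensional algebra.
-/
import Pool.Agent.W5h64.TT.HomB

namespace W5h64.TT

open CategoryTheory CategoryTheory.Abelian Module

universe u

section covmid

variable {R : Type u} [Ring R] {X₁ X₂ X₃ Y : Type u} [AddCommGroup X₁] [AddCommGroup X₂]
  [AddCommGroup X₃] [AddCommGroup Y] [Module R X₁] [Module R X₂] [Module R X₃] [Module R Y]
  {i : X₁ →ₗ[R] X₂} {p : X₂ →ₗ[R] X₃}

theorem ext_cov_mid (hex : Function.Exact i p) (hi : Function.Injective i)
    (hp : Function.Surjective p) {n : ℕ} (h1 : ExtZero R Y X₁ n)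
    (h3 : ExtZero R Y X₃ n) : ExtZero R Y X₂ n := by
  refine subsingleton_of_forall_eq 0 fun x => ?_
  have hS := sc_exact i p hex hi hp
  obtain ⟨y, hy⟩ := Ext.covariant_sequence_exact₂ (S := sc i p hex)
    (ModuleCat.of R Y) hS (n := n) x (h3.elim _ _)
  have h0 : y = 0 := @Subsingleton.elim _ h1 y 0
  rw [← hy, h0, Ext.zero_comp]
  rfl

end covmid

section crit

variable (k : Type u) [Field k] {R : Type u} [Ring R] [Algebra k R]

variable (R) in
/-- The dimension of `W / J W`, `J` the Jacobson radical. -/
noncomputable def delta (W : Type u) [AddCommGroup W] [Module R W] [Module k W]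
    [IsScalarTower k R W] : ℕ :=
  finrank k (W ⧸ IM (Ring.jacobson R) W)

variable {Ω F W : Type u} [AddCommGroup Ω] [AddCommGroup F] [AddCommGroup W]
  [Module R Ω] [Module R F] [Module R W]

/-- The map induced on the tops. -/
def topMap (f : Ω →ₗ[R] F) :
    (Ω ⧸ IM (Ring.jacobson R) Ω) →ₗ[R] (F ⧸ IM (Ring.jacobson R) F) :=
  (IM (Ring.jacobson R) Ω).mapQ (IM (Ring.jacobson R) F) f (IM_le_comap f)

@[simp] theorem topMap_mk (f : Ω →ₗ[R] F) (x : Ω) :
    topMap f (Submodule.Quotient.mk x) = Submodule.Quotient.mk (f x) := rfl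

theorem topMap_exact {i : Ω →ₗ[R] F} {q : F →ₗ[R] W} (hex : Function.Exact i q)
    (hq : Function.Surjective q) : Function.Exact (topMap i) (topMap q) := by
  have hIM : IM (Ring.jacobson R) W ≤ (IM (Ring.jacobson R) F).map q := by
    refine Submodule.span_le.2 ?_
    rintro x ⟨a, ha, m, rfl⟩
    obtain ⟨y, rfl⟩ := hq m
    exact ⟨a • y, smul_mem_IM ha y, map_smul _ _ _⟩
  intro y
  obtain ⟨y, rfl⟩ := Submodule.Quotient.mk_surjective _ y
  constructor
  · intro h
    rw [topMap_mk, Submodule.Quotient.mk_eq_zero] at h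
    obtain ⟨z, hz, hz'⟩ := hIM h
    have h1 : q (y - z) = 0 := by rw [map_sub, hz', sub_self]
    obtain ⟨w, hw⟩ := (hex _).1 h1
    refine ⟨Submodule.Quotient.mk w, ?_⟩
    rw [topMap_mk, hw, Submodule.Quotient.mk_sub, (Submodule.Quotient.mk_eq_zero _).2 hz, sub_zero]
  · rintro ⟨x, hx⟩
    obtain ⟨x, rfl⟩ := Submodule.Quotient.mk_surjective _ x
    rw [← hx, topMap_mk, topMap_mk, hex.apply_apply_eq_zero, Submodule.Quotient.mk_zero]

variable [Module k Ω] [IsScalarTower k R Ω] [Module k F] [IsScalarTower k R F]
  [Module k W] [IsScalarTower k R W]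

theorem delta_add [Module.Finite k F] {i : Ω →ₗ[R] F} {q : F →ₗ[R] W}
    (hex : Function.Exact i q) (hq : Function.Surjective q) :
    finrank k (LinearMap.range ((topMap i).restrictScalars k)) + delta k R W = delta k R F := by
  have h1 := LinearMap.finrank_range_add_finrank_ker ((topMap q).restrictScalars k)
  have h2 : LinearMap.ker ((topMap q).restrictScalars k) =
      LinearMap.range ((topMap i).restrictScalars k) := by
    ext x
    exact topMap_exact hex hq x
  have h3 : LinearMap.range ((topMap q).restrictScalars k) = ⊤ := by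
    rw [LinearMap.range_eq_top]
    intro y
    obtain ⟨y, rfl⟩ := Submodule.Quotient.mk_surjective _ y
    obtain ⟨z, rfl⟩ := hq y
    exact ⟨Submodule.Quotient.mk z, rfl⟩
  rw [h2, h3, finrank_top] at h1
  unfold delta
  omega

theorem delta_of_projective [Module.Finite k F] [Module.Finite k Ω] {i : Ω →ₗ[R] F}
    {q : F →ₗ[R] W} (hex : Function.Exact i q) (hi : Function.Injective i)
    (hq : Function.Surjective q) [Module.Projective R W] :
    delta k R Ω + delta k R W ≤ delta k R F := by
  obtain ⟨r, hr⟩ := exists_retraction hex hi hq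
  have hinj : Function.Injective ((topMap i).restrictScalars k) := by
    intro x y hxy
    obtain ⟨x, rfl⟩ := Submodule.Quotient.mk_surjective _ x
    obtain ⟨y, rfl⟩ := Submodule.Quotient.mk_surjective _ y
    have h1 := congrArg (topMap r) hxy
    change topMap r (topMap i (Submodule.Quotient.mk x)) =
      topMap r (topMap i (Submodule.Quotient.mk y)) at h1
    rw [topMap_mk, topMap_mk, topMap_mk, topMap_mk, hr, hr] at h1
    exact h1
  have h2 := LinearMap.finrank_range_of_inj hinj
  have h3 := delta_add k hex hq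
  unfold delta at h3 ⊢
  omega

theorem projective_of_delta [Module.Finite k R] [Module.Finite k F] [Module.Finite k Ω]
    {i : Ω →ₗ[R] F}
    {q : F →ₗ[R] W} (hex : Function.Exact i q) (hi : Function.Injective i)
    (hq : Function.Surjective q) [Module.Projective R F]
    (h : delta k R Ω + delta k R W ≤ delta k R F) : Module.Projective R W := by
  have hart : IsArtinianRing R := isArtinian_of_tower k inferInstance
  have hsp : IsSemiprimaryRing R := inferInstance
  -- the map on tops is injective
  have hinj : Function.Injective (topMap i) := by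
    have h3 := delta_add k hex hq
    have h4 := LinearMap.finrank_range_add_finrank_ker ((topMap i).restrictScalars k)
    have h5 : finrank k (LinearMap.ker ((topMap i).restrictScalars k)) = 0 := by
      unfold delta at h h3
      omega
    have h6 : LinearMap.ker ((topMap i).restrictScalars k) = ⊥ := by
      rwa [Submodule.finrank_eq_zero] at h5
    have h7 : Function.Injective ((topMap i).restrictScalars k) := LinearMap.ker_eq_bot.1 h6
    exact h7
  -- the top of `F` is semisimple
  have htors : Module.IsTorsionBySet R (F ⧸ IM (Ring.jacobson R) F) (Ring.jacobson R : Set R) := by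
    intro x a
    exact quot_IM_smul a.2 x
  have hss : IsSemisimpleModule R (F ⧸ IM (Ring.jacobson R) F) := by
    rw [← htors.isSemisimpleModule_iff]
    infer_instance
  obtain ⟨ρ, hρ⟩ : ∃ ρ : (F ⧸ IM (Ring.jacobson R) F) →ₗ[R] (Ω ⧸ IM (Ring.jacobson R) Ω),
      ∀ x, ρ (topMap i x) = x := by
    obtain ⟨S, hS⟩ := exists_isCompl (LinearMap.range (topMap i))
    obtain ⟨g, hg⟩ := exists_cofactor (topMap i) hinj
      ((LinearMap.range (topMap i)).subtype ∘ₗ
        Submodule.projectionOnto _ _ hS) (fun z => by
          exact (Submodule.projectionOnto _ _ hS z).2)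
    refine ⟨g, fun x => hinj ?_⟩
    rw [hg]
    change ((Submodule.projectionOnto _ _ hS) (topMap i x) : F ⧸ _) = topMap i x
    have := Submodule.projectionOnto_apply_left hS ⟨topMap i x, x, rfl⟩
    exact congrArg Subtype.val this
  -- vanishing of `Ext¹` for modules killed by `J`
  have hbase : ∀ (Z : Type u) [AddCommGroup Z] [Module R Z],
      (∀ a ∈ Ring.jacobson R, ∀ z : Z, a • z = 0) → ExtZero R W Z 1 := by
    intro Z _ _ hZ
    refine ext_one_X₃ hex hi hq (ext_of_projective 0) fun g => ?_
    refine ⟨(IM (Ring.jacobson R) Ω).liftQ g (IM_le_ker g fun a ha m => by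
      rw [map_smul, hZ a ha]) ∘ₗ ρ ∘ₗ (IM (Ring.jacobson R) F).mkQ, ?_⟩
    apply LinearMap.ext
    intro x
    rw [LinearMap.comp_apply, LinearMap.comp_apply, LinearMap.comp_apply]
    have h1 : (IM (Ring.jacobson R) F).mkQ (i x) = topMap i (Submodule.Quotient.mk x) := rfl
    rw [h1, hρ]
    rfl
  have hall : ∀ (n : ℕ) (Z : Type u) [AddCommGroup Z] [Module R Z],
      (∀ a ∈ (Ring.jacobson R) ^ n, ∀ z : Z, a • z = 0) → ExtZero R W Z 1 := by
    intro n
    induction n with
    | zero =>
      intro Z _ _ hZ
      refine hbase Z fun a ha z => ?_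
      refine hZ a ?_ z
      rw [Submodule.pow_zero, Ideal.one_eq_top]
      exact Submodule.mem_top
    | succ n ih =>
      intro Z _ _ hZ
      refine ext_cov_mid (X₁ := IM (Ring.jacobson R) Z) (X₃ := Z ⧸ IM (Ring.jacobson R) Z)
        (i := (IM (Ring.jacobson R) Z).subtype) (p := (IM (Ring.jacobson R) Z).mkQ)
        (LinearMap.exact_subtype_mkQ _) Subtype.val_injective (Submodule.mkQ_surjective _)
        ?_ (hbase _ fun a ha z => quot_IM_smul ha z)
      refine ih _ fun a ha z => ?_
      apply Subtype.ext
      obtain ⟨z, hz⟩ := z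
      change a • z = 0
      have h1 : IM (Ring.jacobson R) Z ≤
          { carrier := {y : Z | ∀ b ∈ (Ring.jacobson R) ^ n, b • y = 0}
            add_mem' := fun {x y} hx hy b hb => by rw [smul_add, hx b hb, hy b hb, add_zero]
            zero_mem' := fun b _ => smul_zero b
            smul_mem' := fun c y hy b hb => by
              rw [← mul_smul]
              exact hy _ (Ideal.mul_mem_right c _ hb) } := by
        refine Submodule.span_le.2 ?_
        rintro x ⟨b, hb, m, rfl⟩ c hc
        rw [← mul_smul]
        refine hZ _ ?_ m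
        rw [Submodule.pow_succ]
        exact Ideal.mul_mem_mul hc hb
      exact h1 hz a ha
  obtain ⟨n, hn⟩ := IsSemiprimaryRing.isNilpotent (R := R)
  have hΩ : ExtZero R W Ω 1 := by
    refine hall n Ω fun a ha z => ?_
    rw [hn] at ha
    rw [(Submodule.mem_bot R).1 ha, zero_smul]
  obtain ⟨r, hr⟩ := exists_extend hex hi hq hΩ LinearMap.id
  exact projective_of_retract hex hq r fun x => LinearMap.congr_fun hr x

end crit

end W5h64.TT
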