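/-
Polynomial functions on a finite-dimensional vector space; ranks.
-/
import Mathlib

namespace W5h64.TT

open Module

universe u

section pol

variable (k : Type u) [Field k] (E : Type u) [AddCommGroup E] [Module k E]

/-- The algebra of polynomial functions on the vector space `E`. -/
def Pol : Subalgebra k (E → k) := Algebra.adjoin k {f | ∃ φ : Module.Dual k E, f = φ}

variable {E}

theorem dual_mem_Pol (φ : Module.Dual k E) : (fun x => φ x) ∈ Pol k E :=
  Algebra.subset_adjoin ⟨φ, rfl⟩

theorem const_mem_Pol (c : k) : (fun _ : E => c) ∈ Pol k E := (Pol k E).algebraMap_mem c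

variable (E) in
theorem Pol_noetherian [FiniteDimensional k E] : IsNoetherianRing (Pol k E) := by
  classical
  let b := Module.finBasis k E
  let S : Finset (E → k) := Finset.univ.image (fun i => (b.coord i : E → k))
  have hS : Algebra.adjoin k (S : Set (E → k)) = Pol k E := by
    apply le_antisymm
    · apply Algebra.adjoin_mono
      intro f hf
      rw [Finset.mem_coe, Finset.mem_image] at hf
      obtain ⟨i, _, rfl⟩ := hf
      exact ⟨b.coord i, rfl⟩
    · apply Algebra.adjoin_le
      rintro f ⟨φ, rfl⟩
      have h1 : (φ : E → k) = ∑ i, φ (b i) • (b.coord i : E → k) := by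
        funext x
        rw [Finset.sum_apply]
        conv_lhs => rw [← b.sum_repr x, map_sum]
        refine Finset.sum_congr rfl fun i _ => ?_
        rw [map_smul, Pi.smul_apply, smul_eq_mul, smul_eq_mul, mul_comm]
        rfl
      change (φ : E → k) ∈ Algebra.adjoin k (S : Set (E → k))
      rw [h1]
      refine Subalgebra.sum_mem _ fun i _ => Subalgebra.smul_mem _ ?_ _
      apply Algebra.subset_adjoin
      rw [Finset.mem_coe, Finset.mem_image]
      exact ⟨i, Finset.mem_univ i, rfl⟩
  have hfg : (Pol k E).FG := ⟨S, hS⟩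
  have : Algebra.FiniteType k (Pol k E) := Subalgebra.fg_iff_finiteType _ |>.1 hfg
  exact Algebra.FiniteType.isNoetherianRing k (Pol k E)

theorem comp_mem_Pol {E' : Type u} [AddCommGroup E'] [Module k E'] (C : E') (L : E →ₗ[k] E')
    {g : E' → k} (hg : g ∈ Pol k E') : (fun x => g (C + L x)) ∈ Pol k E := by
  induction hg using Algebra.adjoin_induction with
  | mem f hf =>
    obtain ⟨φ, rfl⟩ := hf
    have h1 : (fun x => φ (C + L x)) = (fun _ : E => φ C) + fun x => (φ ∘ₗ L) x := by
      funext x
      simp
    change (fun x => φ (C + L x)) ∈ Pol k E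
    rw [h1]
    exact Subalgebra.add_mem _ (const_mem_Pol k _) (dual_mem_Pol k _)
  | algebraMap c => exact const_mem_Pol k c
  | add f g _ _ hf hg => exact Subalgebra.add_mem _ hf hg
  | mul f g _ _ hf hg => exact Subalgebra.mul_mem _ hf hg

theorem det_mem_Pol {r : ℕ} (M : E → Matrix (Fin r) (Fin r) k)
    (hM : ∀ i j, (fun x => M x i j) ∈ Pol k E) : (fun x => (M x).det) ∈ Pol k E := by
  have h1 : (fun x => (M x).det) =
      ∑ σ : Equiv.Perm (Fin r), (Equiv.Perm.sign σ : ℤ) • ∏ i, fun x => M x (σ i) i := by
    funext x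
    rw [Matrix.det_apply, Finset.sum_apply]
    refine Finset.sum_congr rfl fun σ _ => ?_
    rw [Pi.smul_apply, Finset.prod_apply]
    rfl
  rw [h1]
  exact Subalgebra.sum_mem _ fun σ _ => Subalgebra.zsmul_mem _
    (Subalgebra.prod_mem _ fun i _ => hM _ _) _

theorem exists_rank_pol {V₁ V₂ : Type u} [AddCommGroup V₁] [Module k V₁] [AddCommGroup V₂]
    [Module k V₂] [FiniteDimensional k V₁] [FiniteDimensional k V₂] (M : E → (V₁ →ₗ[k] V₂))
    (hM : ∀ (v : V₁) (φ : Module.Dual k V₂), (fun x => φ (M x v)) ∈ Pol k E) (x₀ : E) :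
    ∃ g ∈ Pol k E, g x₀ ≠ 0 ∧ ∀ x, g x ≠ 0 →
      finrank k (LinearMap.range (M x₀)) ≤ finrank k (LinearMap.range (M x)) := by
  set r := finrank k (LinearMap.range (M x₀)) with hr
  let c := Module.finBasis k (LinearMap.range (M x₀))
  have hv : ∀ j : Fin r, ∃ v : V₁, M x₀ v = c j := fun j => (c j).2
  choose v hv using hv
  have hφ : ∀ i : Fin r, ∃ φ : Module.Dual k V₂,
      φ ∘ₗ (LinearMap.range (M x₀)).subtype = c.coord i := fun i =>
    LinearMap.exists_extend (c.coord i)
  choose φ hφ using hφ
  let N : E → Matrix (Fin r) (Fin r) k := fun x => Matrix.of fun i j => φ i (M x (v j))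
  refine ⟨fun x => (N x).det, det_mem_Pol k N fun i j => hM (v j) (φ i), ?_, ?_⟩
  · have h1 : N x₀ = 1 := by
      ext i j
      change φ i (M x₀ (v j)) = _
      rw [hv]
      have h2 := LinearMap.congr_fun (hφ i) (c j)
      rw [LinearMap.comp_apply] at h2
      change φ i (c j : V₂) = _ at h2
      rw [h2, Basis.coord_apply, Basis.repr_self, Finsupp.single_apply, Matrix.one_apply]
      simp only [eq_comm]
    change (N x₀).det ≠ 0
    rw [h1, Matrix.det_one]
    exact one_ne_zero
  · intro x hx
    have hlin : LinearIndependent k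
        (fun j : Fin r => (⟨M x (v j), v j, rfl⟩ : LinearMap.range (M x))) := by
      rw [Fintype.linearIndependent_iff]
      intro a ha
      have h3 : ∑ j, a j • M x (v j) = 0 := by
        have := congrArg Subtype.val ha
        simpa using this
      have h4 : (N x).mulVec a = 0 := by
        funext i
        have := congrArg (φ i) h3
        rw [map_sum, map_zero] at this
        rw [Matrix.mulVec, dotProduct, Pi.zero_apply, ← this]
        refine Finset.sum_congr rfl fun j _ => ?_
        rw [map_smul, smul_eq_mul, mul_comm]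
        rfl
      have h5 := Matrix.eq_zero_of_mulVec_eq_zero hx h4
      exact fun i => congrFun h5 i
    have := hlin.fintype_card_le_finrank
    rwa [Fintype.card_fin] at this

end pol

end W5h64.TT
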