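/-
Module structures on a fixed vector space, their first syzygies, and the openness of the
locus of projective dimension at most `n`.
-/
import Pool.Agent.W5h64.TT.JLa
import Pool.Agent.W5h64.TT.JLb

namespace W5h64.TT

open CategoryTheory CategoryTheory.Abelian Module

universe u

section WM

variable {k : Type u} [Field k] {R : Type u} [Ring R] [Algebra k R]
  {V : Type u} [AddCommGroup V] [Module k V]

/-- The space `V` with the structure of `R`-module given by `x`. -/
def WM (_ : R →ₐ[k] Module.End k V) : Type u := V

variable (x : R →ₐ[k] Module.End k V)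

instance : AddCommGroup (WM x) := inferInstanceAs (AddCommGroup V)

instance : Module k (WM x) := inferInstanceAs (Module k V)

instance : Module R (WM x) := Module.compHom V x.toRingHom

theorem WM_smul (r : R) (v : WM x) : r • v = (x r : Module.End k V) v := rfl

instance : IsScalarTower k R (WM x) where
  smul_assoc c r v := by
    rw [WM_smul, WM_smul, map_smul]
    rfl

instance [Module.Finite k V] : Module.Finite k (WM x) := inferInstanceAs (Module.Finite k V)

section strOf

variable {W : Type u} [AddCommGroup W] [Module R W] [Module k W] [IsScalarTower k R W]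

/-- Transport of a module structure along a `k`-linear equivalence. -/
def strOf (t : W ≃ₗ[k] V) : R →ₐ[k] Module.End k V where
  toFun r := t.toLinearMap ∘ₗ (Algebra.lsmul k k W r) ∘ₗ t.symm.toLinearMap
  map_one' := by
    apply LinearMap.ext
    intro v
    change t ((1 : R) • t.symm v) = v
    rw [one_smul, t.apply_symm_apply]
  map_mul' r s := by
    apply LinearMap.ext
    intro v
    change t ((r * s) • t.symm v) = t (r • t.symm (t (s • t.symm v)))
    rw [t.symm_apply_apply, mul_smul]
  map_zero' := by
    apply LinearMap.ext
    intro v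
    change t ((0 : R) • t.symm v) = 0
    rw [zero_smul, map_zero]
  map_add' r s := by
    apply LinearMap.ext
    intro v
    change t ((r + s) • t.symm v) = t (r • t.symm v) + t (s • t.symm v)
    rw [add_smul, map_add]
  commutes' c := by
    apply LinearMap.ext
    intro v
    change t ((algebraMap k R c) • t.symm v) = c • v
    rw [algebraMap_smul, map_smul, t.apply_symm_apply]

theorem strOf_apply (t : W ≃ₗ[k] V) (r : R) (v : V) :
    (strOf t r : Module.End k V) v = t (r • t.symm v) := rfl

/-- The module with transported structure is isomorphic to the original one. -/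
def strOfEquiv (t : W ≃ₗ[k] V) : W ≃ₗ[R] WM (strOf (R := R) t) where
  toFun w := t w
  invFun v := t.symm v
  left_inv w := t.symm_apply_apply w
  right_inv v := t.apply_symm_apply v
  map_add' a b := map_add t a b
  map_smul' r a := by
    change t (r • a) = t (r • t.symm (t a))
    rw [t.symm_apply_apply]

end strOf

end WM

section syz

variable (k : Type u) [Field k] (R : Type u) [Ring R] [Algebra k R]
  (V : Type u) [AddCommGroup V] [Module k V] [FiniteDimensional k V]

/-- The free module. -/
abbrev FF : Type u := Fin (finrank k V) → R

variable {V} in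
/-- `v ↦ 1 ⊗ v`. -/
noncomputable def sV : V →ₗ[k] FF k R V where
  toFun v i := (finBasis k V).repr v i • (1 : R)
  map_add' v w := by
    funext i
    rw [map_add, Finsupp.add_apply, add_smul]
    rfl
  map_smul' c v := by
    funext i
    rw [map_smul, Finsupp.smul_apply, smul_eq_mul, mul_smul]
    rfl

variable {R V} in
/-- The action map, for any bilinear map. -/
noncomputable def qV (x : R →ₗ[k] Module.End k V) : FF k R V →ₗ[k] V :=
  ∑ i, (LinearMap.applyₗ (finBasis k V i) ∘ₗ x) ∘ₗ LinearMap.proj i

variable {R V} in
theorem qV_apply (x : R →ₗ[k] Module.End k V) (w : FF k R V) :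
    qV k x w = ∑ i, (x (w i) : Module.End k V) (finBasis k V i) := by
  unfold qV
  rw [LinearMap.sum_apply]
  rfl

/-- The underlying space of the first syzygy. -/
abbrev V1 : Type u := FF k R V ⧸ LinearMap.range (sV k R (V := V))

/-- The projection. -/
noncomputable def mkV : FF k R V →ₗ[k] V1 k R V := (LinearMap.range (sV k R (V := V))).mkQ

theorem mkV_eq_zero (w : FF k R V) : mkV k R V w = 0 ↔ ∃ v, sV k R v = w := by
  unfold mkV
  rw [Submodule.mkQ_apply, Submodule.Quotient.mk_eq_zero]
  rfl

theorem mkV_surjective : Function.Surjective (mkV k R V) := Submodule.mkQ_surjective _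

theorem exists_sec : ∃ j : V1 k R V →ₗ[k] FF k R V, mkV k R V ∘ₗ j = LinearMap.id :=
  LinearMap.exists_rightInverse_of_surjective _ (Submodule.range_mkQ _)

/-- A `k`-linear section. -/
noncomputable def sec : V1 k R V →ₗ[k] FF k R V := (exists_sec k R V).choose

theorem mk_sec (w : V1 k R V) : mkV k R V (sec k R V w) = w :=
  LinearMap.congr_fun (exists_sec k R V).choose_spec w

/-- The constant part of the syzygy. -/
noncomputable def OmC : R →ₗ[k] Module.End k (V1 k R V) where
  toFun r := mkV k R V ∘ₗ (Algebra.lsmul k k (FF k R V) r) ∘ₗ sec k R V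
  map_add' r s := by
    apply LinearMap.ext
    intro w
    change mkV k R V ((r + s) • sec k R V w) = mkV k R V (r • sec k R V w)
      + mkV k R V (s • sec k R V w)
    rw [add_smul, map_add]
  map_smul' c r := by
    apply LinearMap.ext
    intro w
    change mkV k R V ((c • r) • sec k R V w) =
      c • mkV k R V (r • sec k R V w)
    rw [smul_assoc, map_smul]

/-- The linear part of the syzygy. -/
noncomputable def OmL : (R →ₗ[k] Module.End k V) →ₗ[k] (R →ₗ[k] Module.End k (V1 k R V)) where
  toFun x :=
    { toFun := fun r => - (mkV k R V ∘ₗ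
        (Algebra.lsmul k k (FF k R V) r) ∘ₗ sV k R ∘ₗ qV k x ∘ₗ sec k R V)
      map_add' := fun r s => by
        apply LinearMap.ext
        intro w
        change - mkV k R V ((r + s) • sV k R (qV k x (sec k R V w))) =
          - mkV k R V (r • sV k R (qV k x (sec k R V w))) +
          - mkV k R V (s • sV k R (qV k x (sec k R V w)))
        rw [add_smul, map_add, neg_add]
      map_smul' := fun c r => by
        apply LinearMap.ext
        intro w
        change - mkV k R V ((c • r) • sV k R (qV k x (sec k R V w))) =
          c • (- mkV k R V (r • sV k R (qV k x (sec k R V w))))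
        rw [smul_assoc, map_smul, smul_neg] }
  map_add' x y := by
    apply LinearMap.ext
    intro r
    apply LinearMap.ext
    intro w
    change - mkV k R V (r • sV k R (qV k (x + y) (sec k R V w))) =
      - mkV k R V (r • sV k R (qV k x (sec k R V w))) +
      - mkV k R V (r • sV k R (qV k y (sec k R V w)))
    have h1 : qV k (x + y) (sec k R V w) = qV k x (sec k R V w) + qV k y (sec k R V w) := by
      rw [qV_apply, qV_apply, qV_apply, ← Finset.sum_add_distrib]
      rfl
    rw [h1, map_add, smul_add, map_add, neg_add]
  map_smul' c x := by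
    apply LinearMap.ext
    intro r
    apply LinearMap.ext
    intro w
    change - mkV k R V (r • sV k R (qV k (c • x) (sec k R V w))) =
      c • (- mkV k R V (r • sV k R (qV k x (sec k R V w))))
    have h1 : qV k (c • x) (sec k R V w) = c • qV k x (sec k R V w) := by
      rw [qV_apply, qV_apply, Finset.smul_sum]
      rfl
    rw [h1, map_smul (sV k R (V := V)), smul_comm r c, map_smul (mkV k R V), smul_neg]

variable {R V}

variable (x : R →ₐ[k] Module.End k V)

/-- The free cover of the module given by `x`. -/
noncomputable def qx : FF k R V →ₗ[R] WM x where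
  toFun w := qV k x.toLinearMap w
  map_add' a b := map_add _ a b
  map_smul' r a := by
    change qV k x.toLinearMap (r • a) = (x r : Module.End k V) (qV k x.toLinearMap a)
    rw [qV_apply, qV_apply, map_sum]
    refine Finset.sum_congr rfl fun i _ => ?_
    change (x (r * a i) : Module.End k V) _ = (x r : Module.End k V) ((x (a i) : Module.End k V) _)
    rw [map_mul]
    rfl

theorem qx_apply (w : FF k R V) : qx k x w = qV k x.toLinearMap w := rfl

theorem qV_sV (v : V) : qV k x.toLinearMap (sV k R v) = v := by
  rw [qV_apply]
  conv_rhs => rw [← (finBasis k V).sum_repr v]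
  refine Finset.sum_congr rfl fun i _ => ?_
  change (x ((finBasis k V).repr v i • (1 : R)) : Module.End k V) _ = _
  rw [map_smul, map_one]
  rfl

theorem qx_surjective : Function.Surjective (qx k x) := fun v => ⟨sV k R (V := V) v, qV_sV k x v⟩

theorem mem_ker_iff (w : FF k R V) :
    w ∈ LinearMap.ker (qx k x) ↔ qV k x.toLinearMap w = 0 := Iff.rfl

/-- The `k`-linear identification of the kernel with the fixed space. -/
noncomputable def tx : LinearMap.ker (qx k x) ≃ₗ[k] V1 k R V :=
  LinearEquiv.ofBijective
    (mkV k R V ∘ₗ (LinearMap.ker (qx k x)).subtype.restrictScalars k) (by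
    constructor
    · rw [← LinearMap.ker_eq_bot, LinearMap.ker_eq_bot']
      intro w hw
      obtain ⟨v, hv⟩ := (mkV_eq_zero k R V (w : FF k R V)).1 hw
      have h2 : qV k x.toLinearMap (w : FF k R V) = 0 := w.2
      rw [← hv, qV_sV] at h2
      apply Subtype.ext
      rw [← hv, h2, map_zero]
      rfl
    · intro w
      obtain ⟨w, rfl⟩ := mkV_surjective k R V w
      refine ⟨⟨w - sV k R (qV k x.toLinearMap w), ?_⟩, ?_⟩
      · rw [mem_ker_iff, map_sub, qV_sV, sub_self]
      · change mkV k R V (w - sV k R (qV k x.toLinearMap w)) = mkV k R V w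
        rw [map_sub, sub_eq_self, mkV_eq_zero]
        exact ⟨_, rfl⟩)

theorem tx_apply (w : LinearMap.ker (qx k x)) :
    tx k x w = mkV k R V (w : FF k R V) := rfl

theorem tx_symm (w : V1 k R V) : (((tx k x).symm w : LinearMap.ker (qx k x)) : FF k R V) =
    sec k R V w - sV k R (qV k x.toLinearMap (sec k R V w)) := by
  have h0 : sec k R V w - sV k R (qV k x.toLinearMap (sec k R V w)) ∈
      LinearMap.ker (qx k x) := by
    rw [mem_ker_iff, map_sub, qV_sV, sub_self]
  have h1 : (tx k x).symm w =
      ⟨sec k R V w - sV k R (qV k x.toLinearMap (sec k R V w)), h0⟩ := by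
    rw [LinearEquiv.symm_apply_eq, tx_apply]
    change w = mkV k R V (sec k R V w - sV k R (qV k x.toLinearMap (sec k R V w)))
    rw [map_sub, mk_sec, eq_comm, sub_eq_self, mkV_eq_zero]
    exact ⟨_, rfl⟩
  rw [h1]

/-- The structure of the first syzygy. -/
noncomputable def Om : R →ₐ[k] Module.End k (V1 k R V) := strOf (tx k x)

theorem Om_eq : (Om k x).toLinearMap = OmC k R V + OmL k R V x.toLinearMap := by
  apply LinearMap.ext
  intro r
  apply LinearMap.ext
  intro w
  change tx k x (r • (tx k x).symm w) = mkV k R V (r • sec k R V w) +
    (- mkV k R V (r • sV k R (qV k x.toLinearMap (sec k R V w))))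
  rw [tx_apply, Submodule.coe_smul, tx_symm, smul_sub, map_sub, sub_eq_add_neg]

end syz

end W5h64.TT
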