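/-
The modules of bounded dimension and finite projective dimension over a finite-dimensional
algebra have bounded projective dimension.
-/
import Pool.Agent.W5h64.TT.JLc

namespace W5h64.TT

open CategoryTheory CategoryTheory.Abelian Module

universe u

section rank

variable (k : Type u) [Field k] (R : Type u) [Ring R] [Algebra k R] [Module.Finite k R]

/-- The radical as a subspace. -/
abbrev radk : Submodule k R := (Ring.jacobson R).restrictScalars k

/-- A basis of the radical. -/
noncomputable def radB (s : Fin (finrank k (radk k R))) : R := (finBasis k (radk k R) s : R)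

theorem radB_mem (s : Fin (finrank k (radk k R))) : radB k R s ∈ Ring.jacobson R :=
  (finBasis k (radk k R) s).2

variable {R}

theorem exists_radB {a : R} (ha : a ∈ Ring.jacobson R) :
    ∃ c : Fin (finrank k (radk k R)) → k, a = ∑ s, c s • radB k R s := by
  refine ⟨fun s => (finBasis k (radk k R)).repr ⟨a, ha⟩ s, ?_⟩
  have h1 := (finBasis k (radk k R)).sum_repr ⟨a, ha⟩
  have h2 := congrArg Subtype.val h1
  rw [AddSubmonoidClass.coe_finsetSum] at h2
  exact h2.symm

variable (R)

/-- The action of the radical. -/
noncomputable def MW (W : Type u) [AddCommGroup W] [Module R W] [Module k W]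
    [IsScalarTower k R W] : (Fin (finrank k (radk k R)) → W) →ₗ[k] W :=
  ∑ s, (Algebra.lsmul k k W (radB k R s)) ∘ₗ LinearMap.proj s

theorem MW_apply (W : Type u) [AddCommGroup W] [Module R W] [Module k W]
    [IsScalarTower k R W] (v : Fin (finrank k (radk k R)) → W) :
    MW k R W v = ∑ s, radB k R s • v s := by
  unfold MW
  rw [LinearMap.sum_apply]
  rfl

theorem mem_range_MW (W : Type u) [AddCommGroup W] [Module R W] [Module k W]
    [IsScalarTower k R W] (w : W) :
    w ∈ LinearMap.range (MW k R W) ↔ w ∈ IM (Ring.jacobson R) W := by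
  constructor
  · rintro ⟨v, rfl⟩
    rw [MW_apply]
    exact Submodule.sum_mem _ fun s _ => smul_mem_IM (radB_mem k R s) _
  · have hbase : ∀ a ∈ Ring.jacobson R, ∀ m : W, a • m ∈ LinearMap.range (MW k R W) := by
      intro a ha m
      obtain ⟨c, hc⟩ := exists_radB k ha
      refine ⟨fun s => c s • m, ?_⟩
      rw [MW_apply, hc, Finset.sum_smul]
      refine Finset.sum_congr rfl fun s _ => ?_
      rw [smul_comm, smul_assoc]
    intro h
    induction h using Submodule.span_induction with
    | mem y hy =>
      obtain ⟨a, ha, m, rfl⟩ := hy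
      exact hbase a ha m
    | zero => exact Submodule.zero_mem _
    | add y z _ _ hy hz => exact Submodule.add_mem _ hy hz
    | smul r y _ hy =>
      obtain ⟨v, rfl⟩ := hy
      rw [MW_apply, Finset.smul_sum]
      refine Submodule.sum_mem _ fun s _ => ?_
      rw [← mul_smul]
      exact hbase _ (Ideal.mul_mem_left _ _ (radB_mem k R s)) _

theorem delta_MW (W : Type u) [AddCommGroup W] [Module R W] [Module k W]
    [IsScalarTower k R W] [Module.Finite k W] :
    delta k R W + finrank k (LinearMap.range (MW k R W)) = finrank k W := by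
  have h1 : (IM (Ring.jacobson R) W).restrictScalars k = LinearMap.range (MW k R W) := by
    ext w
    exact (mem_range_MW k R W w).symm
  have h2 := (Submodule.Quotient.restrictScalarsEquiv k (IM (Ring.jacobson R) W)).finrank_eq
  rw [← h1]
  unfold delta
  rw [← h2]
  exact Submodule.finrank_quotient_add_finrank _

omit [Module.Finite k R] in
theorem delta_congr {W W' : Type u} [AddCommGroup W] [Module R W] [Module k W]
    [IsScalarTower k R W] [AddCommGroup W'] [Module R W'] [Module k W']
    [IsScalarTower k R W'] (e : W ≃ₗ[R] W') : delta k R W = delta k R W' := by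
  have h : (IM (Ring.jacobson R) W).map e.toLinearMap = IM (Ring.jacobson R) W' := by
    apply le_antisymm
    · rw [Submodule.map_le_iff_le_comap]
      exact IM_le_comap _
    · refine Submodule.span_le.2 ?_
      rintro x ⟨a, ha, m, rfl⟩
      exact ⟨a • e.symm m, smul_mem_IM ha _, by
        change e (a • e.symm m) = a • m
        rw [map_smul, e.apply_symm_apply]⟩
  have e' := Submodule.Quotient.equiv _ _ e h
  exact (e'.restrictScalars k).finrank_eq

variable {V : Type u} [AddCommGroup V] [Module k V]
variable {R}

/-- The action of the radical, for any bilinear map. -/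
noncomputable def MV (x : R →ₗ[k] Module.End k V) : (Fin (finrank k (radk k R)) → V) →ₗ[k] V :=
  ∑ s, (x (radB k R s)) ∘ₗ LinearMap.proj s

theorem MV_apply (x : R →ₗ[k] Module.End k V) (v : Fin (finrank k (radk k R)) → V) :
    MV k x v = ∑ s, (x (radB k R s) : Module.End k V) (v s) := by
  unfold MV
  rw [LinearMap.sum_apply]
  rfl

theorem MV_pol (v : Fin (finrank k (radk k R)) → V) (φ : Module.Dual k V) :
    (fun x : R →ₗ[k] Module.End k V => φ (MV k x v)) ∈ Pol k (R →ₗ[k] Module.End k V) := by
  let ψ : Module.Dual k (R →ₗ[k] Module.End k V) :=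
    { toFun := fun x => φ (MV k x v)
      map_add' := fun x y => by
        rw [← map_add, MV_apply, MV_apply, MV_apply, ← Finset.sum_add_distrib]
        rfl
      map_smul' := fun c x => by
        rw [RingHom.id_apply, ← map_smul, MV_apply, MV_apply, Finset.smul_sum]
        rfl }
  exact dual_mem_Pol k ψ

theorem delta_MV [FiniteDimensional k V] (x : R →ₐ[k] Module.End k V) :
    delta k R (WM x) + finrank k (LinearMap.range (MV k x.toLinearMap)) = finrank k V :=
  delta_MW k R (WM x)

omit [Module.Finite k R] in
theorem syz_exact [FiniteDimensional k V] (x : R →ₐ[k] Module.End k V) :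
    Function.Exact (LinearMap.ker (qx k x)).subtype (qx k x) :=
  LinearMap.exact_subtype_ker_map (qx k x)

/-- Projective modules form an open set. -/
theorem open_zero [FiniteDimensional k V] (x₀ : R →ₐ[k] Module.End k V)
    (h₀ : Module.Projective R (WM x₀)) :
    ∃ g ∈ Pol k (R →ₗ[k] Module.End k V), g x₀.toLinearMap ≠ 0 ∧
      ∀ x : R →ₐ[k] Module.End k V, g x.toLinearMap ≠ 0 → Module.Projective R (WM x) := by
  obtain ⟨g₁, hg₁, hg₁0, hg₁x⟩ := exists_rank_pol k
    (fun x : R →ₗ[k] Module.End k V => MV k x) (fun v φ => MV_pol k v φ) x₀.toLinearMap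
  obtain ⟨g₂, hg₂, hg₂0, hg₂x⟩ := exists_rank_pol k
    (fun x : R →ₗ[k] Module.End k (V1 k R V) => MV k x) (fun v φ => MV_pol k v φ)
    (Om k x₀).toLinearMap
  refine ⟨g₁ * fun x => g₂ (OmC k R V + OmL k R V x),
    Subalgebra.mul_mem _ hg₁ (comp_mem_Pol k _ _ hg₂), ?_, ?_⟩
  · rw [Pi.mul_apply, ← Om_eq]
    exact mul_ne_zero hg₁0 hg₂0
  · intro x hx
    rw [Pi.mul_apply, ← Om_eq] at hx
    have h1 := hg₁x _ (left_ne_zero_of_mul hx)
    have h2 := hg₂x _ (right_ne_zero_of_mul hx)
    have h3 := delta_MV k x₀
    have h4 := delta_MV k x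
    have h5 := delta_MV k (Om k x₀)
    have h6 := delta_MV k (Om k x)
    have h7 := delta_congr k R (strOfEquiv (R := R) (tx k x₀))
    have h8 := delta_congr k R (strOfEquiv (R := R) (tx k x))
    have hf0 : Module.Finite k (LinearMap.ker (qx k x₀)) := Module.Finite.equiv (tx k x₀).symm
    have hf : Module.Finite k (LinearMap.ker (qx k x)) := Module.Finite.equiv (tx k x).symm
    have h9 := delta_of_projective k (syz_exact k x₀) Subtype.val_injective (qx_surjective k x₀)
    refine projective_of_delta k (syz_exact k x) Subtype.val_injective (qx_surjective k x) ?_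
    change delta k R (LinearMap.ker (qx k x₀)) = delta k R (WM (Om k x₀)) at h7
    change delta k R (LinearMap.ker (qx k x)) = delta k R (WM (Om k x)) at h8
    omega

omit [Module.Finite k R] in
theorem pd_syz [FiniteDimensional k V] (x : R →ₐ[k] Module.End k V) (n : ℕ) :
    HasProjectiveDimensionLE (ModuleCat.of R (WM x)) (n + 1) ↔
      HasProjectiveDimensionLE (ModuleCat.of R (WM (Om k x))) n := by
  have hS := sc_exact _ _ (syz_exact k x) Subtype.val_injective (qx_surjective k x)
  have hP : Projective (ModuleCat.of R (FF k R V)) := inferInstance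
  have h1 := hS.hasProjectiveDimensionLT_X₃_iff n hP
  have e : ModuleCat.of R (LinearMap.ker (qx k x)) ≅ ModuleCat.of R (WM (Om k x)) :=
    (strOfEquiv (R := R) (tx k x)).toModuleIso
  constructor
  · intro h
    have h2 : HasProjectiveDimensionLT (ModuleCat.of R (LinearMap.ker (qx k x))) (n + 1) :=
      h1.1 h
    exact hasProjectiveDimensionLT_of_iso e (n + 1)
  · intro h
    have h2 : HasProjectiveDimensionLT (ModuleCat.of R (WM (Om k x))) (n + 1) := h
    exact h1.2 (hasProjectiveDimensionLT_of_iso e.symm (n + 1))

/-- The locus of projective dimension at most `n` is open. -/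
theorem open_pd (n : ℕ) : ∀ (V : Type u) [AddCommGroup V] [Module k V] [FiniteDimensional k V]
    (x₀ : R →ₐ[k] Module.End k V), HasProjectiveDimensionLE (ModuleCat.of R (WM x₀)) n →
    ∃ g ∈ Pol k (R →ₗ[k] Module.End k V), g x₀.toLinearMap ≠ 0 ∧
      ∀ x : R →ₐ[k] Module.End k V, g x.toLinearMap ≠ 0 →
        HasProjectiveDimensionLE (ModuleCat.of R (WM x)) n := by
  induction n with
  | zero =>
    intro V _ _ _ x₀ h₀
    obtain ⟨g, hg, hg0, hgx⟩ := open_zero k x₀ ((IsProjective.iff_projective _).2
      ((projective_iff_hasProjectiveDimensionLE_zero _).2 h₀))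
    refine ⟨g, hg, hg0, fun x hx => ?_⟩
    exact (projective_iff_hasProjectiveDimensionLE_zero _).1
      ((IsProjective.iff_projective _).1 (hgx x hx))
  | succ n ih =>
    intro V _ _ _ x₀ h₀
    obtain ⟨g, hg, hg0, hgx⟩ := ih (V1 k R V) (Om k x₀) ((pd_syz k x₀ n).1 h₀)
    refine ⟨fun x => g (OmC k R V + OmL k R V x), comp_mem_Pol k _ _ hg, ?_, ?_⟩
    · change g (OmC k R V + OmL k R V x₀.toLinearMap) ≠ 0
      rw [← Om_eq]
      exact hg0
    · intro x hx
      change g (OmC k R V + OmL k R V x.toLinearMap) ≠ 0 at hx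
      rw [← Om_eq] at hx
      exact (pd_syz k x n).2 (hgx (Om k x) hx)

theorem exists_bound_V (V : Type u) [AddCommGroup V] [Module k V] [FiniteDimensional k V] :
    ∃ N : ℕ, ∀ x : R →ₐ[k] Module.End k V, ∀ m,
      HasProjectiveDimensionLE (ModuleCat.of R (WM x)) m →
        HasProjectiveDimensionLE (ModuleCat.of R (WM x)) N := by
  have hN : IsNoetherianRing (Pol k (R →ₗ[k] Module.End k V)) := Pol_noetherian k _
  let a : ℕ →o Ideal (Pol k (R →ₗ[k] Module.End k V)) :=
    { toFun := fun n =>
        { carrier := {g | ∀ x : R →ₐ[k] Module.End k V,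
            ¬ HasProjectiveDimensionLE (ModuleCat.of R (WM x)) n → g.1 x.toLinearMap = 0}
          add_mem' := fun {f g} hf hg x hx => by
            change f.1 _ + g.1 _ = 0
            rw [hf x hx, hg x hx, add_zero]
          zero_mem' := fun x _ => rfl
          smul_mem' := fun c g hg x hx => by
            change c.1 _ * g.1 _ = 0
            rw [hg x hx, mul_zero] }
      monotone' := by
        intro n m hnm g hg x hx
        refine hg x fun h => hx ?_
        exact hasProjectiveDimensionLT_of_ge _ (n + 1) _ (by omega) }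
  obtain ⟨N, hNs⟩ := monotone_stabilizes_iff_noetherian.mpr hN a
  refine ⟨N, fun x m hm => ?_⟩
  have hm' : HasProjectiveDimensionLE (ModuleCat.of R (WM x)) (N + m) :=
    hasProjectiveDimensionLT_of_ge _ (m + 1) _ (by omega)
  obtain ⟨g, hg, hg0, hgx⟩ := open_pd k (N + m) V x hm'
  have h1 : (⟨g, hg⟩ : Pol k (R →ₗ[k] Module.End k V)) ∈ a (N + m) := by
    intro y hy
    by_contra h
    exact hy (hgx y h)
  rw [← hNs (N + m) (by omega)] at h1
  by_contra h
  exact hg0 (h1 x h)

variable (R) in
/-- Modules of dimension at most `c` and finite projective dimension have projective dimension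
at most a bound depending only on `R` and `c` (Jensen and Lenzing). -/
theorem exists_pd_bound (c : ℕ) : ∃ D : ℕ, ∀ (W : Type u) [AddCommGroup W] [Module R W]
    [Module k W] [IsScalarTower k R W] [Module.Finite k W], finrank k W ≤ c →
    ∀ m, HasProjectiveDimensionLE (ModuleCat.of R W) m →
      HasProjectiveDimensionLE (ModuleCat.of R W) D := by
  choose N hN using fun j : ℕ => exists_bound_V (R := R) k (Fin j → k)
  refine ⟨(Finset.range (c + 1)).sup N, ?_⟩
  intro W _ _ _ _ _ hW m hm
  have e : W ≃ₗ[k] (Fin (finrank k W) → k) := (finBasis k W).equivFun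
  have e' : ModuleCat.of R W ≅ ModuleCat.of R (WM (strOf (R := R) e)) :=
    (strOfEquiv (R := R) e).toModuleIso
  have h1 : HasProjectiveDimensionLE (ModuleCat.of R (WM (strOf (R := R) e))) m := by
    have : HasProjectiveDimensionLT (ModuleCat.of R W) (m + 1) := hm
    exact hasProjectiveDimensionLT_of_iso e' (m + 1)
  have h2 := hN (finrank k W) (strOf (R := R) e) m h1
  have h3 : N (finrank k W) ≤ (Finset.range (c + 1)).sup N :=
    Finset.le_sup (f := N) (Finset.mem_range.2 (by omega))
  have h4 : HasProjectiveDimensionLT (ModuleCat.of R (WM (strOf (R := R) e)))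
      ((Finset.range (c + 1)).sup N + 1) :=
    hasProjectiveDimensionLT_of_ge _ (N (finrank k W) + 1) _ (by omega)
  exact hasProjectiveDimensionLT_of_iso e'.symm _

end rank

end W5h64.TT
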