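/-
An idempotent two-sided ideal of a finite-dimensional algebra that contains no nonzero
idempotent is zero.
-/
import Pool.Agent.W5h64.TT.Lift

namespace W5h64.TT

universe u

open Polynomial

theorem isNilpotent_of_no_idem (k : Type u) [Field k] {A : Type u} [Ring A] [Algebra k A]
    [Module.Finite k A] {I : Ideal A} [I.IsTwoSided]
    (hI : ∀ e ∈ I, e * e = e → e = 0) {x : A} (hx : x ∈ I) : IsNilpotent x := by
  have hint : IsIntegral k x := Algebra.IsIntegral.isIntegral x
  have hp0 : minpoly k x ≠ 0 := minpoly.ne_zero hint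
  obtain ⟨g, hg, hgX⟩ := exists_eq_pow_rootMultiplicity_mul_and_not_dvd (minpoly k x) hp0 0
  set n := rootMultiplicity 0 (minpoly k x) with hn
  rw [C_0, sub_zero] at hg hgX
  have hcop : IsCoprime ((X : k[X]) ^ (n + 1)) g :=
    IsCoprime.pow_left ((Prime.coprime_iff_not_dvd prime_X).2 hgX)
  obtain ⟨u, v, huv⟩ := hcop
  have h0 : aeval x ((X : k[X]) ^ (n + 1) * g) = 0 := by
    have : (X : k[X]) ^ (n + 1) * g = X * minpoly k x := by rw [hg]; ring
    rw [this, map_mul, minpoly.aeval, mul_zero]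
  set e := aeval x (u * (X : k[X]) ^ (n + 1)) with he
  have he1 : e * e = e := by
    rw [he, ← map_mul]
    have : u * (X : k[X]) ^ (n + 1) * (u * X ^ (n + 1)) =
        u * X ^ (n + 1) - u * v * (X ^ (n + 1) * g) := by
      have h2 : u * (X : k[X]) ^ (n + 1) = 1 - v * g := by rw [← huv]; ring
      linear_combination (u * X ^ (n + 1)) * huv
    rw [this, map_sub, map_mul (aeval x) (u * v), h0, mul_zero, sub_zero]
  have heI : e ∈ I := by
    rw [he, map_mul, map_pow, aeval_X, pow_succ, ← mul_assoc]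
    exact I.mul_mem_left _ hx
  have he0 := hI e heI he1
  refine ⟨n + 1, ?_⟩
  have h3 : (X : k[X]) ^ (n + 1) = X ^ (n + 1) * (u * X ^ (n + 1)) + v * (X ^ (n + 1) * g) := by
    linear_combination -(X ^ (n + 1)) * huv
  have h4 := congrArg (aeval x) h3
  rw [map_add, map_mul, ← he, he0, mul_zero, map_mul, h0, mul_zero, add_zero, map_pow,
    aeval_X] at h4
  exact h4

theorem eq_bot_of_idem (k : Type u) [Field k] {A : Type u} [Ring A] [Algebra k A]
    [Module.Finite k A] {I : Ideal A} [I.IsTwoSided]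
    (hI : ∀ e ∈ I, e * e = e → e = 0) (h2 : ∀ x : I, x ∈ IM I I) : I = ⊥ := by
  have hart : IsArtinianRing A := isArtinian_of_tower k inferInstance
  have hJ : I ≤ Ideal.jacobson (⊥ : Ideal A) := by
    intro x hx
    rw [Ideal.mem_jacobson_iff]
    intro y
    have hn : IsNilpotent (y * x) := isNilpotent_of_no_idem k hI (I.mul_mem_left y hx)
    obtain ⟨z, hz⟩ := hn.isUnit_add_one.exists_left_inv
    refine ⟨z, ?_⟩
    rw [Ideal.mem_bot, mul_assoc]
    have : z * (y * x) + z = z * (y * x + 1) := by rw [mul_add, mul_one]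
    rw [this, hz, sub_self]
  have hpow : ∀ n : ℕ, I ≤ Ideal.jacobson (⊥ : Ideal A) ^ n := by
    intro n
    induction n with
    | zero => rw [Submodule.pow_zero, Ideal.one_eq_top]; exact le_top
    | succ n ih =>
      rw [Submodule.pow_succ]
      have h3 : IM I I ≤ Submodule.comap (Submodule.subtype I)
          (Ideal.jacobson (⊥ : Ideal A) ^ n * Ideal.jacobson (⊥ : Ideal A)) := by
        refine Submodule.span_le.2 ?_
        rintro y ⟨a, ha, m, rfl⟩
        change a * (m : A) ∈ (Ideal.jacobson (⊥ : Ideal A) ^ n * Ideal.jacobson (⊥ : Ideal A))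
        exact Ideal.mul_mem_mul (ih ha) (hJ m.2)
      intro x hx
      exact h3 (h2 ⟨x, hx⟩)
  obtain ⟨n, hn⟩ := IsArtinianRing.isNilpotent_jacobson_bot (R := A)
  rw [eq_bot_iff]
  have := hpow n
  rw [hn] at this
  exact this

end W5h64.TT
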