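/-
Projective dimensions of the right modules `Hom_A(M, A/I)`, and the vanishing of `Tor_2`.
-/
import Pool.Agent.W5h64.TT.HomB

namespace W5h64.TT

open CategoryTheory CategoryTheory.Abelian

universe u

/-- `IsSyzygy R n M X`: the module `X` is an `n`-th syzygy of `M`, in some resolution of `M` by
finitely generated projective modules. -/
inductive IsSyzygy (R : Type u) [Ring R] : ℕ → ModuleCat.{u} R → ModuleCat.{u} R → Prop
  | zero (M : ModuleCat.{u} R) : IsSyzygy R 0 M M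
  | succ {n : ℕ} {M N Q X : ModuleCat.{u} R} (i : N →ₗ[R] Q) (q : Q →ₗ[R] M)
      (hfin : Module.Finite R Q) (hproj : Module.Projective R Q) (hi : Function.Injective i)
      (hex : Function.Exact i q) (hq : Function.Surjective q) (h : IsSyzygy R n N X) :
      IsSyzygy R (n + 1) M X

theorem IsSyzygy.ext {R : Type u} [Ring R] {n : ℕ} {M X : ModuleCat.{u} R}
    (h : IsSyzygy R n M X) {Y : Type u} [AddCommGroup Y] [Module R Y] {i : ℕ}
    (hY : ExtZero R M Y (i + 1 + n)) : ExtZero R X Y (i + 1) := by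
  induction h with
  | zero M => exact hY
  | @succ n M N Q X a q hfin hproj ha hex hq h ih =>
    have e : i + 1 + n = i + n + 1 := by omega
    have h1 : ExtZero R Q Y (i + 1 + n) := by
      rw [e]
      exact ext_of_projective _
    exact ih (ext_X₁ hex ha hq h1 hY)

theorem IsSyzygy.trans {R : Type u} [Ring R] {a b : ℕ} {M N X : ModuleCat.{u} R}
    (h : IsSyzygy R a M N) (h' : IsSyzygy R b N X) : IsSyzygy R (b + a) M X := by
  induction h with
  | zero M => exact h'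
  | @succ n M N Q X a q hfin hproj ha hex hq h ih =>
    exact IsSyzygy.succ a q hfin hproj ha hex hq (ih h')

section pd

variable {A : Type u} [Ring A] [IsNoetherianRing A] {I : Ideal A} [I.IsTwoSided]
  [IsNoetherianRing (A ⧸ I)ᵐᵒᵖ]

omit [IsNoetherianRing A] in
theorem homB_finite (M : Type u) [AddCommGroup M] [Module A M] [Module.Finite A M] :
    Module.Finite (A ⧸ I)ᵐᵒᵖ (M →ₗ[A] (A ⧸ I)) := by
  obtain ⟨n, f, hf⟩ := Module.Finite.exists_fin' A M
  exact Module.Finite.of_injective (pre (I := I) f) (pre_injective f hf)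

omit [IsNoetherianRing (A ⧸ I)ᵐᵒᵖ] in
theorem hom_pd (m : ℕ) :
    ∀ (M : Type u) [AddCommGroup M] [Module A M] [Module.Finite A M],
      (∀ i, 1 ≤ i → i ≤ m → ExtZero A M (A ⧸ I) i) →
      ∀ n, HasProjectiveDimensionLE (ModuleCat.of (A ⧸ I)ᵐᵒᵖ (M →ₗ[A] (A ⧸ I))) n →
        ∃ X : ModuleCat.{u} A, Module.Finite A X ∧ IsSyzygy A m (ModuleCat.of A M) X ∧
          HasProjectiveDimensionLE (ModuleCat.of (A ⧸ I)ᵐᵒᵖ (X →ₗ[A] (A ⧸ I))) (n + m) ∧
          ∀ d, HasProjectiveDimensionLE (ModuleCat.of (A ⧸ I)ᵐᵒᵖ (X →ₗ[A] (A ⧸ I))) d →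
            HasProjectiveDimensionLE (ModuleCat.of (A ⧸ I)ᵐᵒᵖ (M →ₗ[A] (A ⧸ I))) (d - m) := by
  induction m with
  | zero =>
    intro M _ _ hfin _ n hn
    exact ⟨ModuleCat.of A M, hfin, IsSyzygy.zero _, hn, fun d hd => hd⟩
  | succ m ih =>
    intro M _ _ _ hM n hn
    obtain ⟨r, q, hq⟩ := Module.Finite.exists_fin' A M
    have hex : Function.Exact (LinearMap.ker q).subtype q := LinearMap.exact_subtype_ker_map q
    have hi : Function.Injective (LinearMap.ker q).subtype := Subtype.val_injective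
    have hfin : Module.Finite A (LinearMap.ker q) := inferInstance
    have hN : ∀ i, 1 ≤ i → i ≤ m → ExtZero A (LinearMap.ker q) (A ⧸ I) i := by
      intro i hi1 him
      refine ext_X₁ hex hi hq ?_ (hM (i + 1) (by omega) (by omega))
      obtain ⟨j, rfl⟩ : ∃ j, i = j + 1 := ⟨i - 1, by omega⟩
      exact ext_of_projective j
    have hS := sc_exact _ _ (pre_exact (I := I) hex hq) (pre_injective q hq)
      (pre_surjective hex hi hq (hM 1 le_rfl (by omega)))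
    have hQ1 : HasProjectiveDimensionLT
        (ModuleCat.of (A ⧸ I)ᵐᵒᵖ ((Fin r → A) →ₗ[A] (A ⧸ I))) 1 := inferInstance
    have hQn : ∀ n, 1 ≤ n → HasProjectiveDimensionLT
        (ModuleCat.of (A ⧸ I)ᵐᵒᵖ ((Fin r → A) →ₗ[A] (A ⧸ I))) n := fun n hn =>
      hasProjectiveDimensionLT_of_ge _ 1 n hn
    have h3 : HasProjectiveDimensionLE
        (ModuleCat.of (A ⧸ I)ᵐᵒᵖ ((LinearMap.ker q) →ₗ[A] (A ⧸ I))) (n + 1) :=
      hS.hasProjectiveDimensionLT_X₃ (n + 1) hn (hQn _ (by omega))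
    obtain ⟨X, hXfin, hXs, hXn, hXd⟩ := ih _ hN (n + 1) h3
    refine ⟨X, hXfin, IsSyzygy.succ (N := ModuleCat.of A (LinearMap.ker q))
      (Q := ModuleCat.of A (Fin r → A)) (LinearMap.ker q).subtype q
      (inferInstanceAs (Module.Finite A (Fin r → A)))
      (inferInstanceAs (Module.Projective A (Fin r → A))) hi hex hq hXs, ?_, fun d hd => ?_⟩
    · have e : n + 1 + m = n + (m + 1) := by omega
      rw [← e]
      exact hXn
    · have h4 := hXd d hd
      by_cases hdm : 1 ≤ d - m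
      · have h5 := hS.hasProjectiveDimensionLT_X₁ (d - m) (hQn _ hdm) h4
        have e : d - (m + 1) + 1 = d - m := by omega
        change HasProjectiveDimensionLT _ (d - (m + 1) + 1)
        rw [e]
        exact h5
      · have h4' : HasProjectiveDimensionLT
            (ModuleCat.of (A ⧸ I)ᵐᵒᵖ ((LinearMap.ker q) →ₗ[A] (A ⧸ I))) 2 := by
          have := h4
          exact hasProjectiveDimensionLT_of_ge _ (d - m + 1) 2 (by omega)
        have h5 := hS.hasProjectiveDimensionLT_X₁ 1 (hQn _ le_rfl) h4'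
        have e : d - (m + 1) + 1 = 1 := by omega
        change HasProjectiveDimensionLT _ (d - (m + 1) + 1)
        rw [e]
        exact h5

omit [IsNoetherianRing (A ⧸ I)ᵐᵒᵖ] in
/-- The main step: `Tor_1^A(A/I, M) = 0` if `M/IM` is `A/I`-projective,
`Ext^i(M, A/I) = 0` for `1 ≤ i ≤ 3`, and `Hom_A(X, A/I)` is projective for the third
syzygies `X` of `M`. -/
theorem tor_two
    {M : Type u} [AddCommGroup M] [Module A M] [Module.Finite A M]
    (hM : ∀ i, 1 ≤ i → i ≤ 3 → ExtZero A M (A ⧸ I) i)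
    (hX : ∀ X : ModuleCat.{u} A, Module.Finite A X → IsSyzygy A 3 (ModuleCat.of A M) X →
      HasProjectiveDimensionLE (ModuleCat.of (A ⧸ I)ᵐᵒᵖ (X →ₗ[A] (A ⧸ I))) 2 →
      HasProjectiveDimensionLE (ModuleCat.of (A ⧸ I)ᵐᵒᵖ (X →ₗ[A] (A ⧸ I))) 0)
    {n₁ : ℕ} (q₁ : (Fin n₁ → A) →ₗ[A] M) (hq₁ : Function.Surjective q₁)
    (s : M →ₗ[A] ((Fin n₁ → A) ⧸ IM I (Fin n₁ → A)))
    (hs : ∀ m : M, (IM I (Fin n₁ → A)).mapQ (IM I M) q₁ (IM_le_comap q₁) (s m) =
      Submodule.Quotient.mk m)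
    (x : LinearMap.ker q₁) (hx : (x : Fin n₁ → A) ∈ IM I (Fin n₁ → A)) :
    x ∈ IM I (LinearMap.ker q₁) := by
  -- notation
  have hex₁ : Function.Exact (LinearMap.ker q₁).subtype q₁ := LinearMap.exact_subtype_ker_map q₁
  have hi₁ : Function.Injective (LinearMap.ker q₁).subtype := Subtype.val_injective
  obtain ⟨n₂, q₂, hq₂⟩ := Module.Finite.exists_fin' A (LinearMap.ker q₁)
  have hex₂ : Function.Exact (LinearMap.ker q₂).subtype q₂ := LinearMap.exact_subtype_ker_map q₂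
  have hi₂ : Function.Injective (LinearMap.ker q₂).subtype := Subtype.val_injective
  obtain ⟨n₃, q₃, hq₃⟩ := Module.Finite.exists_fin' A (LinearMap.ker q₂)
  have hex₃ : Function.Exact (LinearMap.ker q₃).subtype q₃ := LinearMap.exact_subtype_ker_map q₃
  have hi₃ : Function.Injective (LinearMap.ker q₃).subtype := Subtype.val_injective
  have hM₂ : ∀ i, 1 ≤ i → i ≤ 2 → ExtZero A (LinearMap.ker q₁) (A ⧸ I) i := by
    intro i hi1 him
    refine ext_X₁ hex₁ hi₁ hq₁ ?_ (hM (i + 1) (by omega) (by omega))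
    obtain ⟨j, rfl⟩ : ∃ j, i = j + 1 := ⟨i - 1, by omega⟩
    exact ext_of_projective j
  have hM₃ : ∀ i, 1 ≤ i → i ≤ 1 → ExtZero A (LinearMap.ker q₂) (A ⧸ I) i := by
    intro i hi1 him
    refine ext_X₁ hex₂ hi₂ hq₂ ?_ (hM₂ (i + 1) (by omega) (by omega))
    obtain ⟨j, rfl⟩ : ∃ j, i = j + 1 := ⟨i - 1, by omega⟩
    exact ext_of_projective j
  have hsyz : IsSyzygy A 3 (ModuleCat.of A M) (ModuleCat.of A (LinearMap.ker q₃)) :=
    IsSyzygy.succ (N := ModuleCat.of A (LinearMap.ker q₁))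
      (Q := ModuleCat.of A (Fin n₁ → A)) (LinearMap.ker q₁).subtype q₁
      (inferInstanceAs (Module.Finite A (Fin n₁ → A)))
      (inferInstanceAs (Module.Projective A (Fin n₁ → A))) hi₁ hex₁ hq₁
      (IsSyzygy.succ (N := ModuleCat.of A (LinearMap.ker q₂))
        (Q := ModuleCat.of A (Fin n₂ → A)) (LinearMap.ker q₂).subtype q₂
        (inferInstanceAs (Module.Finite A (Fin n₂ → A)))
        (inferInstanceAs (Module.Projective A (Fin n₂ → A))) hi₂ hex₂ hq₂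
        (IsSyzygy.succ (N := ModuleCat.of A (LinearMap.ker q₃))
          (Q := ModuleCat.of A (Fin n₃ → A)) (LinearMap.ker q₃).subtype q₃
          (inferInstanceAs (Module.Finite A (Fin n₃ → A)))
          (inferInstanceAs (Module.Projective A (Fin n₃ → A))) hi₃ hex₃ hq₃
          (IsSyzygy.zero _)))
  have e₁ := pre_exact (I := I) hex₁ hq₁
  have s₁ := pre_surjective (I := I) hex₁ hi₁ hq₁ (hM 1 le_rfl (by omega))
  have e₂ := pre_exact (I := I) hex₂ hq₂
  have s₂ := pre_surjective (I := I) hex₂ hi₂ hq₂ (hM₂ 1 le_rfl (by omega))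
  have e₃ := pre_exact (I := I) hex₃ hq₃
  have s₃ := pre_surjective (I := I) hex₃ hi₃ hq₃ (hM₃ 1 le_rfl (by omega))
  -- the retraction of `pre q₁`
  let bar : ((Fin n₁ → A) →ₗ[A] (A ⧸ I)) →
      (((Fin n₁ → A) ⧸ IM I (Fin n₁ → A)) →ₗ[A] (A ⧸ I)) := fun ψ =>
    (IM I (Fin n₁ → A)).liftQ ψ (quot_IM_le_ker ψ)
  have hbar : ∀ ψ x, bar ψ (Submodule.Quotient.mk x) = ψ x := fun ψ x => rfl
  let r : ((Fin n₁ → A) →ₗ[A] (A ⧸ I)) →ₗ[(A ⧸ I)ᵐᵒᵖ] (M →ₗ[A] (A ⧸ I)) :=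
    { toFun := fun ψ => bar ψ ∘ₗ s
      map_add' := fun ψ ψ' => by
        apply LinearMap.ext
        intro m
        change bar (ψ + ψ') (s m) = bar ψ (s m) + bar ψ' (s m)
        obtain ⟨y, hy⟩ := Submodule.Quotient.mk_surjective _ (s m)
        rw [← hy, hbar, hbar, hbar]
        rfl
      map_smul' := fun c ψ => by
        apply LinearMap.ext
        intro m
        change bar (c • ψ) (s m) = c • bar ψ (s m)
        obtain ⟨y, hy⟩ := Submodule.Quotient.mk_surjective _ (s m)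
        rw [← hy, hbar, hbar]
        rfl }
  have hr : ∀ φ : M →ₗ[A] (A ⧸ I), r (pre q₁ φ) = φ := by
    intro φ
    apply LinearMap.ext
    intro m
    change bar (pre q₁ φ) (s m) = φ m
    obtain ⟨y, hy⟩ := Submodule.Quotient.mk_surjective _ (s m)
    have h1 := hs m
    rw [← hy] at h1 ⊢
    rw [hbar]
    change φ (q₁ y) = φ m
    have h2 : q₁ y - m ∈ IM I M := by
      rw [← Submodule.Quotient.mk_eq_zero, Submodule.Quotient.mk_sub, sub_eq_zero]
      exact h1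
    have h3 : φ (q₁ y - m) = 0 := quot_IM_le_ker φ h2
    rw [map_sub, sub_eq_zero] at h3
    exact h3
  have hP₂ : Module.Projective (A ⧸ I)ᵐᵒᵖ ((LinearMap.ker q₁) →ₗ[A] (A ⧸ I)) :=
    projective_of_retract e₁ s₁ r hr
  have hpd₂ : HasProjectiveDimensionLT
      (ModuleCat.of (A ⧸ I)ᵐᵒᵖ ((LinearMap.ker q₁) →ₗ[A] (A ⧸ I))) 1 := inferInstance
  have hfree : ∀ r n : ℕ, 1 ≤ n → HasProjectiveDimensionLT
      (ModuleCat.of (A ⧸ I)ᵐᵒᵖ ((Fin r → A) →ₗ[A] (A ⧸ I))) n := fun r n hn => by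
    have : HasProjectiveDimensionLT
      (ModuleCat.of (A ⧸ I)ᵐᵒᵖ ((Fin r → A) →ₗ[A] (A ⧸ I))) 1 := inferInstance
    exact hasProjectiveDimensionLT_of_ge _ 1 n hn
  have S₂ := sc_exact _ _ e₂ (pre_injective q₂ hq₂) s₂
  have S₃ := sc_exact _ _ e₃ (pre_injective q₃ hq₃) s₃
  have hpd₃ : HasProjectiveDimensionLT
      (ModuleCat.of (A ⧸ I)ᵐᵒᵖ ((LinearMap.ker q₂) →ₗ[A] (A ⧸ I))) 2 :=
    S₂.hasProjectiveDimensionLT_X₃ 1 hpd₂ (hfree n₂ 2 (by omega))
  have hpd₄ : HasProjectiveDimensionLE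
      (ModuleCat.of (A ⧸ I)ᵐᵒᵖ ((LinearMap.ker q₃) →ₗ[A] (A ⧸ I))) 2 :=
    S₃.hasProjectiveDimensionLT_X₃ 2 hpd₃ (hfree n₃ 3 (by omega))
  have hpd₄' := hX (ModuleCat.of A (LinearMap.ker q₃))
    (inferInstanceAs (Module.Finite A (LinearMap.ker q₃))) hsyz hpd₄
  have hP₄ : Projective (ModuleCat.of (A ⧸ I)ᵐᵒᵖ ((LinearMap.ker q₃) →ₗ[A] (A ⧸ I))) :=
    (projective_iff_hasProjectiveDimensionLE_zero _).2 hpd₄'
  have hP₄' : Module.Projective (A ⧸ I)ᵐᵒᵖ ((LinearMap.ker q₃) →ₗ[A] (A ⧸ I)) :=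
    (IsProjective.iff_projective _).2 hP₄
  obtain ⟨σ, hσ⟩ := exists_retraction e₃ (pre_injective q₃ hq₃) s₃
  -- the evaluation
  obtain ⟨y, hy⟩ := hq₂ x
  let ev : ((Fin n₂ → A) →ₗ[A] (A ⧸ I)) →ₗ[(A ⧸ I)ᵐᵒᵖ] (A ⧸ I) :=
    { toFun := fun g => g y
      map_add' := fun _ _ => rfl
      map_smul' := fun _ _ => rfl }
  obtain ⟨e, he⟩ := exists_factor (pre (I := I) (LinearMap.ker q₂).subtype) s₂ ev (by
    intro g hg
    obtain ⟨φ, rfl⟩ := (e₂ g).1 hg
    change φ (q₂ y) = 0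
    rw [hy]
    obtain ⟨φ', rfl⟩ := s₁ φ
    change φ' (x : Fin n₁ → A) = 0
    exact quot_IM_le_ker φ' hx)
  obtain ⟨p, hp⟩ := exists_eval n₃ (e ∘ₗ σ)
  have key : ∀ g : (Fin n₂ → A) →ₗ[A] (A ⧸ I), g y = g (q₃ p : LinearMap.ker q₂) := by
    intro g
    have h1 := hp (pre q₃ (pre (LinearMap.ker q₂).subtype g))
    rw [LinearMap.comp_apply, hσ, he] at h1
    exact h1
  have hcoord : ∀ j, y j - ((q₃ p : LinearMap.ker q₂) : Fin n₂ → A) j ∈ I := by
    intro j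
    have h1 := key (coordB I n₂ j)
    rw [← Submodule.Quotient.mk_eq_zero, Submodule.Quotient.mk_sub, sub_eq_zero]
    exact h1
  have hz : q₂ ((q₃ p : LinearMap.ker q₂) : Fin n₂ → A) = 0 := (q₃ p : LinearMap.ker q₂).2
  have h5 : x = q₂ (y - ((q₃ p : LinearMap.ker q₂) : Fin n₂ → A)) := by
    rw [map_sub, hz, sub_zero, hy]
  rw [h5]
  have h6 : y - ((q₃ p : LinearMap.ker q₂) : Fin n₂ → A) =
      ∑ j, (y j - ((q₃ p : LinearMap.ker q₂) : Fin n₂ → A) j) • (Pi.single j 1 : Fin n₂ → A) := by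
    conv_lhs => rw [← Finset.univ_sum_single (y - ((q₃ p : LinearMap.ker q₂) : Fin n₂ → A))]
    refine Finset.sum_congr rfl fun j _ => ?_
    rw [← Pi.single_smul, smul_eq_mul, mul_one]
    rfl
  rw [h6, map_sum]
  refine Submodule.sum_mem _ fun j _ => ?_
  rw [map_smul]
  exact smul_mem_IM (hcoord j) _

end pd

end W5h64.TT
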