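/-
Self-orthogonal tau-tilting modules and the finitistic dimension.
-/
import Pool.Agent.W5h64.TT.PD
import Pool.Agent.W5h64.TT.Idem

namespace W5h64.TT

open CategoryTheory CategoryTheory.Abelian

universe u

/-- `T` is a classical (1-)tilting module. -/
structure IsTilting (R : Type u) [Ring R] (T : Type u) [AddCommGroup T] [Module R T] : Prop where
  pd : HasProjectiveDimensionLE (ModuleCat.of R T) 1
  ext : ExtZero R T T 1
  res : ∃ (T₀ T₁ : Type u) (_ : AddCommGroup T₀) (_ : AddCommGroup T₁) (_ : Module R T₀)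
    (_ : Module R T₁) (f : R →ₗ[R] T₀) (p : T₀ →ₗ[R] T₁), Function.Injective f ∧
      Function.Exact f p ∧ Function.Surjective p ∧ InAdd R T T₀ ∧ InAdd R T T₁

section final

variable (k : Type u) [Field k] {A : Type u} [Ring A] [Algebra k A]
    [Module.Finite k A] {I : Ideal A} [I.IsTwoSided]
    {T : Type u} [AddCommGroup T] [Module A T]
    [Module k T] [IsScalarTower k A T] [Module.Finite k T]

omit [Module.Finite k A] in
/-- Vanishing of `Ext¹(M, D(A/I))` from `Tor_1(A/I, M) = 0`. -/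
theorem ext_one_DB {M : Type u} [AddCommGroup M] [Module A M]
    {n₁ : ℕ} (q₁ : (Fin n₁ → A) →ₗ[A] M) (hq₁ : Function.Surjective q₁)
    (h : ∀ x : LinearMap.ker q₁, (x : Fin n₁ → A) ∈ IM I (Fin n₁ → A) →
      x ∈ IM I (LinearMap.ker q₁)) : ExtZero A M (DB k I) 1 := by
  have hex₁ : Function.Exact (LinearMap.ker q₁).subtype q₁ := LinearMap.exact_subtype_ker_map q₁
  refine ext_one_X₃ hex₁ Subtype.val_injective hq₁ (ext_of_projective 0) fun g => ?_
  let lam : (LinearMap.ker q₁) →ₗ[k] k := fromDB g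
  let u : (LinearMap.ker q₁) →ₗ[k] ((Fin n₁ → A) ⧸ IM I (Fin n₁ → A)) :=
    ((IM I (Fin n₁ → A)).mkQ ∘ₗ (LinearMap.ker q₁).subtype).restrictScalars k
  have hlam : lam ∈ (LinearMap.ker u).dualAnnihilator := by
    rw [Submodule.mem_dualAnnihilator]
    intro x hx
    have h1 : (x : Fin n₁ → A) ∈ IM I (Fin n₁ → A) := by
      rw [← Submodule.Quotient.mk_eq_zero]
      exact hx
    have h2 : g x = 0 := IM_le_ker g (fun a ha m => by
      rw [map_smul, DB.smul_eq_zero I ha]) (h x h1)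
    change (g x : DA k A).ev 1 = 0
    rw [h2]
    rfl
  rw [← LinearMap.range_dualMap_eq_dualAnnihilator_ker] at hlam
  obtain ⟨μ, hμ⟩ := hlam
  have hμ' : ∀ x, μ (u x) = lam x := fun x => LinearMap.congr_fun hμ x
  refine ⟨toDB (μ ∘ₗ ((IM I (Fin n₁ → A)).mkQ).restrictScalars k) (fun a ha m => ?_), ?_⟩
  · change μ ((IM I (Fin n₁ → A)).mkQ (a • m)) = 0
    rw [map_smul, quot_IM_smul ha, map_zero]
  · apply LinearMap.ext
    intro x
    apply Subtype.ext
    apply DA.ext'
    intro a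
    rw [hom_DB_ev g x a]
    exact hμ' (a • x)

/-- If `Ext¹(A/I, D(A/I)) = 0` then `I = I²`. -/
theorem idem_of_ext (h : ExtZero A (A ⧸ I) (DB k I) 1) (x : I) : x ∈ IM I I := by
  rw [← Submodule.Quotient.mk_eq_zero, ← Module.forall_dual_apply_eq_zero_iff k]
  intro lam
  have hl : ∀ a ∈ I, ∀ m : I,
      (lam ∘ₗ ((IM I I).mkQ).restrictScalars k) (a • m) = 0 := by
    intro a ha m
    change lam ((IM I I).mkQ (a • m)) = 0
    rw [map_smul, quot_IM_smul ha, map_zero]
  have hex : Function.Exact (Submodule.subtype I) (Submodule.mkQ I) :=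
    LinearMap.exact_subtype_mkQ I
  obtain ⟨g, hg⟩ := exists_extend hex Subtype.val_injective (Submodule.mkQ_surjective I) h
    (toDB (lam ∘ₗ ((IM I I).mkQ).restrictScalars k) hl)
  have h1 : g (x : A) = 0 := by
    have : (x : A) = (x : A) • (1 : A) := by rw [smul_eq_mul, mul_one]
    rw [this, map_smul, DB.smul_eq_zero I x.2]
  have h2 := LinearMap.congr_fun hg x
  rw [LinearMap.comp_apply] at h2
  have h3 : (toDB (lam ∘ₗ ((IM I I).mkQ).restrictScalars k) hl x : DA k A).ev 1 = 0 := by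
    rw [← h2]
    change (g (x : A) : DA k A).ev 1 = 0
    rw [h1]
    rfl
  rw [toDB_ev, one_smul] at h3
  exact h3

include k in
omit [Module.Finite k A] in
theorem ext_quot (hT : TauTilting A T) (hI : ∀ a, a ∈ I ↔ ∀ t : T, a • t = 0) (m : ℕ)
    (hExt : ∀ i, 2 ≤ i → i ≤ m → ExtZero A T T i) :
    ∀ i, 2 ≤ i → i ≤ m → ExtZero A T (A ⧸ I) i := by
  obtain ⟨n, C, _, _, f, p, hf, hex, hp, hC⟩ := exists_approx k hT hI
  have hExt' : ∀ i, 1 ≤ i → i ≤ m → ExtZero A T T i := by
    intro i h1 h2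
    by_cases h : i = 1
    · rw [h]; exact hT.rigid T InFac.self
    · exact hExt i (by omega) h2
  intro i h1 h2
  obtain ⟨j, rfl⟩ : ∃ j, i = j + 1 := ⟨i - 1, by omega⟩
  exact ext_cov hex hf hp (hC.ext_right (hExt' j (by omega) (by omega)))
    (ext_pow_right n (hExt' (j + 1) (by omega) h2))

include k in
theorem ann_eq_bot (hT : TauTilting A T) (hI : ∀ a, a ∈ I ↔ ∀ t : T, a • t = 0)
    (hExt : ∀ i, 2 ≤ i → i ≤ 4 → ExtZero A T T i)
    (hX : ∀ X : ModuleCat.{u} A, Module.Finite A X → IsSyzygy A 4 (ModuleCat.of A T) X →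
      HasProjectiveDimensionLE (ModuleCat.of (A ⧸ I)ᵐᵒᵖ (X →ₗ[A] (A ⧸ I))) 2 →
      HasProjectiveDimensionLE (ModuleCat.of (A ⧸ I)ᵐᵒᵖ (X →ₗ[A] (A ⧸ I))) 0) :
    I = ⊥ := by
  have hnA : IsNoetherianRing A := isNoetherian_of_tower k inferInstance
  have hfT : Module.Finite A T := Module.Finite.of_restrictScalars_finite k A T
  obtain ⟨n, C, _, _, f, p, hf, hex, hp, hC⟩ := exists_approx k hT hI
  have hB := ext_quot k hT hI 4 hExt
  obtain ⟨n₀, q₀, hq₀⟩ := Module.Finite.exists_fin' A T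
  have hex₀ : Function.Exact (LinearMap.ker q₀).subtype q₀ := LinearMap.exact_subtype_ker_map q₀
  have hi₀ : Function.Injective (LinearMap.ker q₀).subtype := Subtype.val_injective
  have hM : ∀ i, 1 ≤ i → i ≤ 3 → ExtZero A (LinearMap.ker q₀) (A ⧸ I) i := by
    intro i hi1 him
    refine ext_X₁ hex₀ hi₀ hq₀ ?_ (hB (i + 1) (by omega) (by omega))
    obtain ⟨j, rfl⟩ : ∃ j, i = j + 1 := ⟨i - 1, by omega⟩
    exact ext_of_projective j
  obtain ⟨n₁, q₁, hq₁⟩ := Module.Finite.exists_fin' A (LinearMap.ker q₀)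
  obtain ⟨s, hs⟩ := lift_of_rigid k hT.rigid hI hex₀ hi₀ hq₀
    (F := (Fin n₁ → A) ⧸ IM I (Fin n₁ → A))
    (fun a ha x => quot_IM_smul ha x)
    ((IM I (Fin n₁ → A)).mapQ (IM I (LinearMap.ker q₀)) q₁ (IM_le_comap q₁)) (by
      intro y
      obtain ⟨y, rfl⟩ := Submodule.Quotient.mk_surjective _ y
      obtain ⟨z, rfl⟩ := hq₁ y
      exact ⟨Submodule.Quotient.mk z, rfl⟩)
    (IM I (LinearMap.ker q₀)).mkQ
  have h2 := tor_two hM (fun X hXf hXs => hX X hXf (IsSyzygy.succ
    (N := ModuleCat.of A (LinearMap.ker q₀))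
    (Q := ModuleCat.of A (Fin n₀ → A)) (LinearMap.ker q₀).subtype q₀
    (inferInstanceAs (Module.Finite A (Fin n₀ → A)))
    (inferInstanceAs (Module.Projective A (Fin n₀ → A))) hi₀ hex₀ hq₀ hXs))
    q₁ hq₁ s (fun m => LinearMap.congr_fun hs m)
  have hE1 : ExtZero A (LinearMap.ker q₀) (DB k I) 1 := ext_one_DB k q₁ hq₁ h2
  have hE2 : ExtZero A T (DB k I) 2 := ext_X₃ hex₀ hi₀ hq₀ hE1 (ext_of_projective 1)
  have hE3 : ExtZero A (A ⧸ I) (DB k I) 1 :=
    ext_X₁ hex hf hp (ext_pow_left n (hT.rigid _ (DB_inFac hI))) (hC.ext_left hE2)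
  exact eq_bot_of_idem k (fun e he hee => hT.sincere e hee ((hI e).1 he))
    (idem_of_ext k hE3)

include k in
theorem isTilting_of_faithful (hT : TauTilting A T)
    (hI : ∀ a : A, (∀ t : T, a • t = 0) → a = 0) : IsTilting A T := by
  have hnA : IsNoetherianRing A := isNoetherian_of_tower k inferInstance
  have hfT : Module.Finite A T := Module.Finite.of_restrictScalars_finite k A T
  have hI' : ∀ a : A, a ∈ (⊥ : Ideal A) ↔ ∀ t : T, a • t = 0 := by
    intro a
    rw [Ideal.mem_bot]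
    exact ⟨fun h t => by rw [h, zero_smul], hI a⟩
  obtain ⟨n₀, q₀, hq₀⟩ := Module.Finite.exists_fin' A T
  have hex₀ : Function.Exact (LinearMap.ker q₀).subtype q₀ := LinearMap.exact_subtype_ker_map q₀
  have hi₀ : Function.Injective (LinearMap.ker q₀).subtype := Subtype.val_injective
  obtain ⟨n₁, q₁, hq₁⟩ := Module.Finite.exists_fin' A (LinearMap.ker q₀)
  obtain ⟨s, hs⟩ := lift_of_rigid k hT.rigid hI' hex₀ hi₀ hq₀
    (F := Fin n₁ → A) (fun a ha x => by rw [Ideal.mem_bot.1 ha, zero_smul]) q₁ hq₁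
    LinearMap.id
  have hproj : Module.Projective A (LinearMap.ker q₀) := Module.Projective.of_split s q₁ hs
  have hS := sc_exact _ _ hex₀ hi₀ hq₀
  refine ⟨?_, hT.rigid T InFac.self, ?_⟩
  · have h1 : HasProjectiveDimensionLT (ModuleCat.of A (LinearMap.ker q₀)) 1 := inferInstance
    have h2 : HasProjectiveDimensionLT (ModuleCat.of A (Fin n₀ → A)) 1 := inferInstance
    have h3 : HasProjectiveDimensionLT (ModuleCat.of A (Fin n₀ → A)) 2 :=
      hasProjectiveDimensionLT_of_ge _ 1 2 (by omega)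
    exact hS.hasProjectiveDimensionLT_X₃ 1 h1 h3
  · obtain ⟨n, C, _, _, f, p, hf, hex, hp, hC⟩ := exists_approx k hT hI'
    refine ⟨_, C, inferInstance, _, inferInstance, _, f ∘ₗ Submodule.mkQ ⊥, p, ?_, ?_, hp,
      InAdd.pow n, hC⟩
    · refine hf.comp ?_
      rw [← LinearMap.ker_eq_bot, Submodule.ker_mkQ]
    · intro y
      rw [hex y]
      constructor
      · rintro ⟨z, rfl⟩
        obtain ⟨z, rfl⟩ := Submodule.Quotient.mk_surjective _ z
        exact ⟨z, rfl⟩
      · rintro ⟨z, rfl⟩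
        exact ⟨_, rfl⟩

end final

/-- The general criterion: only fourth syzygies matter. -/
theorem isTilting_of_syz (k : Type u) [Field k] (A : Type u) [Ring A] [Algebra k A]
    [Module.Finite k A] (T : Type u) [AddCommGroup T] [Module A T] [Module.Finite A T]
    (hT : TauTilting A T)
    (hExt : ∀ i, 2 ≤ i → i ≤ 4 → ExtZero A T T i)
    (hX : ∀ X : ModuleCat.{u} A, Module.Finite A X → IsSyzygy A 4 (ModuleCat.of A T) X →
      HasProjectiveDimensionLE (ModuleCat.of (A ⧸ Module.annihilator A T)ᵐᵒᵖ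
        (X →ₗ[A] (A ⧸ Module.annihilator A T))) 2 →
      HasProjectiveDimensionLE (ModuleCat.of (A ⧸ Module.annihilator A T)ᵐᵒᵖ
        (X →ₗ[A] (A ⧸ Module.annihilator A T))) 0) :
    Module.annihilator A T = ⊥ ∧ IsTilting A T := by
  let _ : Module k T := Module.compHom T (algebraMap k A)
  have : IsScalarTower k A T := ⟨fun c a t => by
    rw [Algebra.smul_def, mul_smul]
    rfl⟩
  have : Module.Finite k T := Module.Finite.trans A T
  have h1 := ann_eq_bot k hT (I := Module.annihilator A T)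
    (fun a => Module.mem_annihilator) hExt hX
  refine ⟨h1, isTilting_of_faithful k hT fun a ha => ?_⟩
  have : a ∈ Module.annihilator A T := Module.mem_annihilator.2 ha
  rw [h1] at this
  exact this

/-- Descent of the projective dimension of `Hom_A(X, A/I)` along syzygies. -/
theorem exists_syz (k : Type u) [Field k] (A : Type u) [Ring A] [Algebra k A]
    [Module.Finite k A] (T : Type u) [AddCommGroup T] [Module A T] [Module.Finite A T]
    (hT : TauTilting A T) (m : ℕ)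
    (hExt : ∀ i, 2 ≤ i → i ≤ m + 4 → ExtZero A T T i)
    (X : ModuleCat.{u} A) (hX : Module.Finite A X) (hXs : IsSyzygy A 4 (ModuleCat.of A T) X)
    (n : ℕ) (hn : HasProjectiveDimensionLE (ModuleCat.of (A ⧸ Module.annihilator A T)ᵐᵒᵖ
        (X →ₗ[A] (A ⧸ Module.annihilator A T))) n) :
    ∃ Z : ModuleCat.{u} A, Module.Finite A Z ∧ IsSyzygy A (m + 4) (ModuleCat.of A T) Z ∧
      HasProjectiveDimensionLE (ModuleCat.of (A ⧸ Module.annihilator A T)ᵐᵒᵖ
        (Z →ₗ[A] (A ⧸ Module.annihilator A T))) (n + m) ∧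
      ∀ d, HasProjectiveDimensionLE (ModuleCat.of (A ⧸ Module.annihilator A T)ᵐᵒᵖ
        (Z →ₗ[A] (A ⧸ Module.annihilator A T))) d →
        HasProjectiveDimensionLE (ModuleCat.of (A ⧸ Module.annihilator A T)ᵐᵒᵖ
        (X →ₗ[A] (A ⧸ Module.annihilator A T))) (d - m) := by
  let _ : Module k T := Module.compHom T (algebraMap k A)
  have : IsScalarTower k A T := ⟨fun c a t => by
    rw [Algebra.smul_def, mul_smul]
    rfl⟩
  have : Module.Finite k T := Module.Finite.trans A T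
  have hnA : IsNoetherianRing A := isNoetherian_of_tower k inferInstance
  have hB := ext_quot k hT (I := Module.annihilator A T)
    (fun a => Module.mem_annihilator) (m + 4) hExt
  have hXe : ∀ i, 1 ≤ i → i ≤ m → ExtZero A X (A ⧸ Module.annihilator A T) i := by
    intro i h1 h2
    obtain ⟨j, rfl⟩ : ∃ j, i = j + 1 := ⟨i - 1, by omega⟩
    exact hXs.ext (hB (j + 1 + 4) (by omega) (by omega))
  obtain ⟨Z, hZf, hZs, hZn, hZd⟩ := hom_pd m X hXe n hn
  exact ⟨Z, hZf, hXs.trans hZs, hZn, hZd⟩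

theorem isTilting_of_finDim (k : Type u) [Field k] (A : Type u) [Ring A] [Algebra k A]
    [Module.Finite k A] (T : Type u) [AddCommGroup T] [Module A T] [Module.Finite A T]
    (hT : TauTilting A T) (d : ℕ) (hd : FinDimLE (A ⧸ Module.annihilator A T)ᵐᵒᵖ d)
    (hExt : ∀ i, 2 ≤ i → i ≤ d + 4 → ExtZero A T T i) :
    Module.annihilator A T = ⊥ ∧ IsTilting A T := by
  refine isTilting_of_syz k A T hT (fun i h1 h2 => hExt i h1 (by omega)) fun X hXf hXs hX2 => ?_
  obtain ⟨Z, hZf, hZs, hZn, hZd⟩ := exists_syz k A T hT d hExt X hXf hXs 2 hX2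
  have hnB : IsNoetherianRing (A ⧸ Module.annihilator A T)ᵐᵒᵖ :=
    isNoetherian_of_tower k inferInstance
  have h1 := hZd d (hd _ (homB_finite Z) (2 + d) hZn)
  rw [Nat.sub_self] at h1
  exact h1

end W5h64.TT
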