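/-
Self-orthogonal tau-tilting modules whose syzygies are direct sums of modules from a class
on which the finite projective dimensions are bounded.
-/
import Pool.Agent.W5h64.TT.Final

namespace W5h64.TT

open CategoryTheory CategoryTheory.Abelian

universe u

/-- If the identity of `Z` is a sum of maps factoring through modules of projective dimension
at most `d`, then `Z` has projective dimension at most `d`. -/
theorem pd_of_sum {R : Type u} [Ring R] {Z : Type u} [AddCommGroup Z] [Module R Z] {s : ℕ}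
    (W : Fin s → Type u) [∀ j, AddCommGroup (W j)] [∀ j, Module R (W j)]
    (a : ∀ j, Z →ₗ[R] W j) (b : ∀ j, W j →ₗ[R] Z) (hab : ∑ j, b j ∘ₗ a j = LinearMap.id)
    (d : ℕ) (h : ∀ j, HasProjectiveDimensionLE (ModuleCat.of R (W j)) d) :
    HasProjectiveDimensionLE (ModuleCat.of R Z) d := by
  refine HasProjectiveDimensionLT.mk fun i hi Y x => ?_
  have e : (∑ j : Fin s, ModuleCat.ofHom (a j) ≫ ModuleCat.ofHom (b j)) =
      𝟙 (ModuleCat.of R Z) := by
    have := congrArg ModuleCat.ofHom hab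
    rw [ofHom_sum] at this
    exact this
  have key : ∀ (S : Finset (Fin s)), (Ext.mk₀ (∑ j ∈ S,
      ModuleCat.ofHom (a j) ≫ ModuleCat.ofHom (b j))).comp x (zero_add i) = 0 := by
    intro S
    induction S using Finset.induction_on with
    | empty =>
      rw [Finset.sum_empty, Ext.mk₀_zero, Ext.zero_comp]
    | insert t S ht ih =>
      have := h t
      have h0 : (Ext.mk₀ (ModuleCat.ofHom (b t))).comp x (zero_add i) = 0 :=
        Ext.eq_zero_of_hasProjectiveDimensionLT _ (d + 1) hi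
      rw [Finset.sum_insert ht, Ext.mk₀_add, Ext.add_comp, ih, add_zero, ← Ext.mk₀_comp_mk₀,
        Ext.comp_assoc_of_second_deg_zero, h0, Ext.comp_zero]
  rw [← x.mk₀_id_comp, ← e]
  exact key _

/-- The projective dimension of a direct summand. -/
theorem pd_of_retract {R : Type u} [Ring R] {Z W : Type u} [AddCommGroup Z] [Module R Z]
    [AddCommGroup W] [Module R W] (a : Z →ₗ[R] W) (b : W →ₗ[R] Z) (hab : b ∘ₗ a = LinearMap.id)
    (d : ℕ) (h : HasProjectiveDimensionLE (ModuleCat.of R W) d) :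
    HasProjectiveDimensionLE (ModuleCat.of R Z) d := by
  refine pd_of_sum (s := 1) (fun _ => W) (fun _ => a) (fun _ => b) ?_ d (fun _ => h)
  simp [hab]

section homB

variable {A : Type u} [Ring A] {I : Ideal A} [I.IsTwoSided]

theorem homB_retract {M N : Type u} [AddCommGroup M] [Module A M] [AddCommGroup N] [Module A N]
    (a : M →ₗ[A] N) (b : N →ₗ[A] M) (hab : b ∘ₗ a = LinearMap.id) (d : ℕ)
    (h : HasProjectiveDimensionLE (ModuleCat.of (A ⧸ I)ᵐᵒᵖ (N →ₗ[A] (A ⧸ I))) d) :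
    HasProjectiveDimensionLE (ModuleCat.of (A ⧸ I)ᵐᵒᵖ (M →ₗ[A] (A ⧸ I))) d := by
  refine pd_of_retract (pre b) (pre a) ?_ d h
  apply LinearMap.ext
  intro g
  apply LinearMap.ext
  intro x
  exact congrArg g (LinearMap.congr_fun hab x)

theorem homB_sum {M : Type u} [AddCommGroup M] [Module A M] {s : ℕ} (Y : Fin s → Type u)
    [∀ j, AddCommGroup (Y j)] [∀ j, Module A (Y j)] (e : M ≃ₗ[A] (∀ j, Y j)) (d : ℕ)
    (h : ∀ j, HasProjectiveDimensionLE (ModuleCat.of (A ⧸ I)ᵐᵒᵖ (Y j →ₗ[A] (A ⧸ I))) d) :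
    HasProjectiveDimensionLE (ModuleCat.of (A ⧸ I)ᵐᵒᵖ (M →ₗ[A] (A ⧸ I))) d := by
  refine pd_of_sum (fun j => Y j →ₗ[A] (A ⧸ I))
    (fun j => pre (e.symm.toLinearMap ∘ₗ LinearMap.single A Y j))
    (fun j => pre (LinearMap.proj j ∘ₗ e.toLinearMap)) ?_ d h
  apply LinearMap.ext
  intro g
  apply LinearMap.ext
  intro x
  rw [LinearMap.sum_apply, LinearMap.sum_apply, LinearMap.id_apply]
  change ∑ j, g (e.symm (LinearMap.single A Y j (e x j))) = g x
  rw [← map_sum, ← map_sum]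
  have h1 : ∑ j, LinearMap.single A Y j (e x j) = e x := by
    exact Finset.univ_sum_single (e x)
  rw [h1, LinearEquiv.symm_apply_apply]

theorem homB_summand {M : Type u} [AddCommGroup M] [Module A M] {s : ℕ} (Y : Fin s → Type u)
    [∀ j, AddCommGroup (Y j)] [∀ j, Module A (Y j)] (e : M ≃ₗ[A] (∀ j, Y j)) (d : ℕ)
    (h : HasProjectiveDimensionLE (ModuleCat.of (A ⧸ I)ᵐᵒᵖ (M →ₗ[A] (A ⧸ I))) d) (j : Fin s) :
    HasProjectiveDimensionLE (ModuleCat.of (A ⧸ I)ᵐᵒᵖ (Y j →ₗ[A] (A ⧸ I))) d := by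
  refine homB_retract (e.symm.toLinearMap ∘ₗ LinearMap.single A Y j)
    (LinearMap.proj j ∘ₗ e.toLinearMap) ?_ d h
  apply LinearMap.ext
  intro x
  change e (e.symm (LinearMap.single A Y j x)) j = x
  rw [LinearEquiv.apply_symm_apply]
  exact Pi.single_eq_same j x

end homB

theorem isTilting_of_class (k : Type u) [Field k] (A : Type u) [Ring A] [Algebra k A]
    [Module.Finite k A] (T : Type u) [AddCommGroup T] [Module A T] [Module.Finite A T]
    (hT : TauTilting A T) (hExt : ∀ i, 2 ≤ i → ExtZero A T T i)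
    (C : ModuleCat.{u} A → Prop) (d n : ℕ)
    (hd : ∀ Y, C Y → ∀ m, HasProjectiveDimensionLE
      (ModuleCat.of (A ⧸ Module.annihilator A T)ᵐᵒᵖ (Y →ₗ[A] (A ⧸ Module.annihilator A T))) m →
      HasProjectiveDimensionLE
      (ModuleCat.of (A ⧸ Module.annihilator A T)ᵐᵒᵖ (Y →ₗ[A] (A ⧸ Module.annihilator A T))) d)
    (hC : ∀ (i : ℕ) (X : ModuleCat.{u} A), n ≤ i → IsSyzygy A i (ModuleCat.of A T) X →
      ∃ (s : ℕ) (Y : Fin s → ModuleCat.{u} A), (∀ j, C (Y j)) ∧
        Nonempty (X ≃ₗ[A] (∀ j, Y j))) :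
    Module.annihilator A T = ⊥ ∧ IsTilting A T := by
  refine isTilting_of_syz k A T hT (fun i h1 _ => hExt i h1) fun X hXf hXs hX2 => ?_
  obtain ⟨Z, hZf, hZs, hZn, hZd⟩ := exists_syz k A T hT (d + n) (fun i h1 _ => hExt i h1)
    X hXf hXs 2 hX2
  obtain ⟨s, Y, hY, ⟨e⟩⟩ := hC (d + n + 4) Z (by omega) hZs
  have h1 := hZd d (homB_sum (fun j => Y j) e d fun j =>
    hd (Y j) (hY j) (2 + (d + n)) (homB_summand (fun j => Y j) e _ hZn j))
  have e0 : d - (d + n) = 0 := by omega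
  rw [e0] at h1
  exact h1

/-- The syzygies of `T` are eventually of finite type: there are finitely many modules such
that every `i`-th syzygy of `T` with `i ≥ n` is a finite direct sum of modules among them. -/
def SyzygyFinite (R : Type u) [Ring R] (T : Type u) [AddCommGroup T] [Module R T] : Prop :=
  ∃ (n r : ℕ) (M : Fin r → ModuleCat.{u} R), ∀ (i : ℕ) (X : ModuleCat.{u} R), n ≤ i →
    IsSyzygy R i (ModuleCat.of R T) X →
      ∃ (s : ℕ) (f : Fin s → Fin r), Nonempty (X ≃ₗ[R] (∀ j, M (f j)))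

theorem isTilting_of_syzygyFinite (k : Type u) [Field k] (A : Type u) [Ring A] [Algebra k A]
    [Module.Finite k A] (T : Type u) [AddCommGroup T] [Module A T] [Module.Finite A T]
    (hT : TauTilting A T) (hExt : ∀ i, 2 ≤ i → ExtZero A T T i) (hsyz : SyzygyFinite A T) :
    Module.annihilator A T = ⊥ ∧ IsTilting A T := by
  classical
  obtain ⟨n, r, M, hM⟩ := hsyz
  have hd : ∀ l : Fin r, ∃ d, ∀ m, HasProjectiveDimensionLE
      (ModuleCat.of (A ⧸ Module.annihilator A T)ᵐᵒᵖ (M l →ₗ[A] (A ⧸ Module.annihilator A T))) m →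
      HasProjectiveDimensionLE
      (ModuleCat.of (A ⧸ Module.annihilator A T)ᵐᵒᵖ
        (M l →ₗ[A] (A ⧸ Module.annihilator A T))) d := by
    intro l
    by_cases h : ∃ m, HasProjectiveDimensionLE
      (ModuleCat.of (A ⧸ Module.annihilator A T)ᵐᵒᵖ (M l →ₗ[A] (A ⧸ Module.annihilator A T))) m
    · obtain ⟨m, hm⟩ := h
      exact ⟨m, fun _ _ => hm⟩
    · exact ⟨0, fun m hm => absurd ⟨m, hm⟩ h⟩
  choose d hd using hd
  refine isTilting_of_class k A T hT hExt (fun Y => ∃ l, Y = M l) (Finset.univ.sup d) n ?_ ?_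
  · rintro Y ⟨l, rfl⟩ m hm
    have h1 := hd l m hm
    have h2 : d l ≤ Finset.univ.sup d := Finset.le_sup (Finset.mem_univ l)
    exact hasProjectiveDimensionLT_of_ge _ (d l + 1) _ (by omega)
  · intro i X hi hX
    obtain ⟨s, f, hf⟩ := hM i X hi hX
    exact ⟨s, fun j => M (f j), fun j => ⟨f j, rfl⟩, hf⟩

end W5h64.TT
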