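/-
Self-orthogonal tau-tilting modules whose syzygies have indecomposable summands of bounded
dimension.
-/
import Pool.Agent.W5h64.TT.JLd
import Pool.Agent.W5h64.TT.Sum

namespace W5h64.TT

open CategoryTheory CategoryTheory.Abelian Module

universe u

/-- The `A`-module `Y` has dimension at most `c` over `k`. -/
def DimLE (k : Type u) [Field k] (A : Type u) [Ring A] [Algebra k A] (Y : Type u)
    [AddCommGroup Y] [Module A Y] (c : ℕ) : Prop :=
  let _ : Module k Y := Module.compHom Y (algebraMap k A)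
  Module.Finite k Y ∧ Module.finrank k Y ≤ c

/-- The syzygies of `T` are eventually bounded modulo `ann T`: for some `n` and `c`, for every
`i`-th syzygy `X` of `T` with `i ≥ n`, the module `X / (ann T) X` is a finite direct sum of
modules of `k`-dimension at most `c`. -/
def BoundedSyzygies (k : Type u) [Field k] (A : Type u) [Ring A] [Algebra k A] (T : Type u)
    [AddCommGroup T] [Module A T] : Prop :=
  ∃ n c : ℕ, ∀ (i : ℕ) (X : ModuleCat.{u} A), n ≤ i → IsSyzygy A i (ModuleCat.of A T) X →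
    ∃ (s : ℕ) (Y : Fin s → ModuleCat.{u} A), (∀ j, DimLE k A (Y j) c) ∧
      Nonempty ((X ⧸ IM (Module.annihilator A T) X) ≃ₗ[A] (∀ j, Y j))

/-- The projective dimensions of the right modules `Hom_A(Y, A/I)`, `dim Y ≤ c`, are bounded
when they are finite. -/
theorem exists_bound_hom (k : Type u) [Field k] (A : Type u) [Ring A] [Algebra k A]
    [Module.Finite k A] (I : Ideal A) [I.IsTwoSided] (c : ℕ) :
    ∃ D : ℕ, ∀ (Y : Type u) [AddCommGroup Y] [Module A Y], DimLE k A Y c →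
      ∀ m, HasProjectiveDimensionLE (ModuleCat.of (A ⧸ I)ᵐᵒᵖ (Y →ₗ[A] (A ⧸ I))) m →
        HasProjectiveDimensionLE (ModuleCat.of (A ⧸ I)ᵐᵒᵖ (Y →ₗ[A] (A ⧸ I))) D := by
  obtain ⟨D, hD⟩ := exists_pd_bound (R := (A ⧸ I)ᵐᵒᵖ) k (c * finrank k (A ⧸ I)ᵐᵒᵖ)
  refine ⟨D, ?_⟩
  intro Y _ _ hY m hm
  let _ : Module k Y := Module.compHom Y (algebraMap k A)
  have : IsScalarTower k A Y := ⟨fun c a t => by
    rw [Algebra.smul_def, mul_smul]
    rfl⟩
  obtain ⟨hYf, hYc⟩ := hY
  have : IsScalarTower k (A ⧸ I)ᵐᵒᵖ (Y →ₗ[A] (A ⧸ I)) := ⟨fun c a t => by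
    apply LinearMap.ext
    intro y
    change t y * (c • a).unop = c • (t y * a.unop)
    rw [MulOpposite.unop_smul, mul_smul_comm]⟩
  let b := finBasis k Y
  let q : (Fin (finrank k Y) → A) →ₗ[A] Y :=
    ∑ j, LinearMap.toSpanSingleton A Y (b j) ∘ₗ LinearMap.proj j
  have hq : Function.Surjective q := by
    intro y
    refine ⟨fun j => b.repr y j • (1 : A), ?_⟩
    change (∑ j, LinearMap.toSpanSingleton A Y (b j) ∘ₗ LinearMap.proj j) _ = y
    rw [LinearMap.sum_apply]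
    conv_rhs => rw [← b.sum_repr y]
    refine Finset.sum_congr rfl fun j _ => ?_
    change (b.repr y j • (1 : A)) • b j = _
    rw [smul_assoc, one_smul]
  let ι : (Y →ₗ[A] (A ⧸ I)) →ₗ[(A ⧸ I)ᵐᵒᵖ] (Fin (finrank k Y) → (A ⧸ I)ᵐᵒᵖ) :=
    (freeEquiv (I := I) (finrank k Y)).toLinearMap ∘ₗ pre q
  have hι : Function.Injective ι := (freeEquiv (I := I) _).injective.comp (pre_injective q hq)
  let ι' := ι.restrictScalars k
  have hι' : Function.Injective ι' := hι
  have hfin : Module.Finite k (Y →ₗ[A] (A ⧸ I)) := Module.Finite.of_injective ι' hι'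
  refine hD (Y →ₗ[A] (A ⧸ I)) ?_ m hm
  have h1 := LinearMap.finrank_le_finrank_of_injective hι'
  rw [finrank_pi_fintype, Finset.sum_const, Finset.card_univ, Fintype.card_fin, smul_eq_mul] at h1
  exact h1.trans (Nat.mul_le_mul_right _ hYc)

/-- `Hom_A(X / I X, A/I) = Hom_A(X, A/I)`. -/
theorem homB_quot {A : Type u} [Ring A] {I : Ideal A} [I.IsTwoSided] (X : Type u)
    [AddCommGroup X] [Module A X] (d : ℕ) :
    HasProjectiveDimensionLE (ModuleCat.of (A ⧸ I)ᵐᵒᵖ (X →ₗ[A] (A ⧸ I))) d ↔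
      HasProjectiveDimensionLE (ModuleCat.of (A ⧸ I)ᵐᵒᵖ ((X ⧸ IM I X) →ₗ[A] (A ⧸ I))) d := by
  let f := pre (I := I) (IM I X).mkQ
  have hf : Function.Bijective f := by
    refine ⟨pre_injective _ (Submodule.mkQ_surjective _), fun g => ?_⟩
    exact ⟨(IM I X).liftQ g (quot_IM_le_ker g), LinearMap.ext fun x => rfl⟩
  let e := (LinearEquiv.ofBijective f hf).toModuleIso
  constructor
  · intro h
    have : HasProjectiveDimensionLT (ModuleCat.of (A ⧸ I)ᵐᵒᵖ (X →ₗ[A] (A ⧸ I))) (d + 1) := h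
    exact hasProjectiveDimensionLT_of_iso e.symm (d + 1)
  · intro h
    have : HasProjectiveDimensionLT
      (ModuleCat.of (A ⧸ I)ᵐᵒᵖ ((X ⧸ IM I X) →ₗ[A] (A ⧸ I))) (d + 1) := h
    exact hasProjectiveDimensionLT_of_iso e (d + 1)

theorem isTilting_of_bounded (k : Type u) [Field k] (A : Type u) [Ring A] [Algebra k A]
    [Module.Finite k A] (T : Type u) [AddCommGroup T] [Module A T] [Module.Finite A T]
    (hT : TauTilting A T) (hExt : ∀ i, 2 ≤ i → ExtZero A T T i)
    (hsyz : BoundedSyzygies k A T) :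
    Module.annihilator A T = ⊥ ∧ IsTilting A T := by
  obtain ⟨n, c, hc⟩ := hsyz
  obtain ⟨D, hD⟩ := exists_bound_hom k A (Module.annihilator A T) c
  refine isTilting_of_syz k A T hT (fun i h1 _ => hExt i h1) fun X hXf hXs hX2 => ?_
  obtain ⟨Z, hZf, hZs, hZn, hZd⟩ := exists_syz k A T hT (D + n) (fun i h1 _ => hExt i h1)
    X hXf hXs 2 hX2
  obtain ⟨s, Y, hY, ⟨e⟩⟩ := hc (D + n + 4) Z (by omega) hZs
  rw [homB_quot] at hZn
  have h1 := hZd D ((homB_quot Z D).2 (homB_sum (fun j => Y j) e D fun j =>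
    hD (Y j) (hY j) (2 + (D + n)) (homB_summand (fun j => Y j) e _ hZn j)))
  have e0 : D - (D + n) = 0 := by omega
  rw [e0] at h1
  exact h1

end W5h64.TT
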