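/-
Modules without self-extensions over a finite-dimensional algebra: openness of the
isomorphism class.
-/
import Pool.Agent.W5h64.TT.JLc

namespace W5h64.TT

open CategoryTheory CategoryTheory.Abelian Module

universe u

section linalg

variable {k : Type u} [Field k]

/-- Generalised inverse of a linear map. -/
theorem exists_pi {V E : Type u} [AddCommGroup V] [Module k V] [AddCommGroup E] [Module k E]
    (L : V →ₗ[k] E) : ∃ π : E →ₗ[k] V, ∀ v, L (π (L v)) = L v := by
  obtain ⟨s, hs⟩ := L.rangeRestrict.exists_rightInverse_of_surjective (LinearMap.range_rangeRestrict L)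
  obtain ⟨π, hπ⟩ := LinearMap.exists_extend s
  refine ⟨π, fun v => ?_⟩
  have h1 : π (L v) = s (L.rangeRestrict v) := LinearMap.congr_fun hπ (L.rangeRestrict v)
  have h2 : L.rangeRestrict (s (L.rangeRestrict v)) = L.rangeRestrict v :=
    LinearMap.congr_fun hs _
  rw [h1]
  exact congrArg Subtype.val h2

theorem affine_mem_Pol {E : Type u} [AddCommGroup E] [Module k E] {f : E → k}
    (hadd : ∀ x y, f (x + y) = f x + f y - f 0)
    (hsmul : ∀ (c : k) x, f (c • x) = c * (f x - f 0) + f 0) : f ∈ Pol k E := by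
  let φ : Module.Dual k E :=
    { toFun := fun x => f x - f 0
      map_add' := fun x y => by rw [hadd]; ring
      map_smul' := fun c x => by rw [hsmul, RingHom.id_apply, smul_eq_mul]; ring }
  have h1 : f = (fun _ : E => f 0) + fun x => φ x := by
    funext x
    change f x = f 0 + (f x - f 0)
    ring
  rw [h1]
  exact Subalgebra.add_mem _ (const_mem_Pol k _) (dual_mem_Pol k φ)

theorem inj_of_dims {W E : Type u} [AddCommGroup W] [Module k W] [AddCommGroup E] [Module k E]
    [FiniteDimensional k E] (Lx L₀ : W →ₗ[k] E) (ρ : E →ₗ[k] E) (T : W → W)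
    (hT : Function.Surjective T) (hρ : ∀ φ, ρ (Lx φ) = L₀ (T φ))
    (hdim : finrank k (LinearMap.range Lx) ≤ finrank k (LinearMap.range L₀)) (φ : W)
    (h : ρ (Lx φ) = 0) : Lx φ = 0 := by
  let ρ' := ρ.domRestrict (LinearMap.range Lx)
  have hr8 := LinearMap.finrank_range_add_finrank_ker ρ'
  have hr9 : LinearMap.range L₀ ≤ LinearMap.range ρ' := by
    rintro _ ⟨φ, rfl⟩
    obtain ⟨ψ, rfl⟩ := hT φ
    exact ⟨⟨Lx ψ, ψ, rfl⟩, hρ ψ⟩
  have hr10 := Submodule.finrank_mono hr9
  have hker : finrank k (LinearMap.ker ρ') = 0 := by omega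
  rw [Submodule.finrank_eq_zero] at hker
  have h2 : (⟨Lx φ, _, rfl⟩ : LinearMap.range Lx) ∈ LinearMap.ker ρ' := h
  rw [hker] at h2
  exact congrArg Subtype.val ((Submodule.mem_bot k).1 h2)

theorem dims_of {W E B : Type u} [AddCommGroup W] [Module k W] [AddCommGroup E] [Module k E]
    [AddCommGroup B] [Module k B]
    [FiniteDimensional k E] (Lx L₀ : W →ₗ[k] E) (Dx D₀ : E →ₗ[k] B)
    (hD : finrank k (LinearMap.range D₀) ≤ finrank k (LinearMap.range Dx))
    (h1 : LinearMap.range Lx ≤ LinearMap.ker Dx)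
    (h2 : LinearMap.ker D₀ ≤ LinearMap.range L₀) :
    finrank k (LinearMap.range Lx) ≤ finrank k (LinearMap.range L₀) := by
  have h3 := LinearMap.finrank_range_add_finrank_ker D₀
  have h4 := LinearMap.finrank_range_add_finrank_ker Dx
  have h5 := Submodule.finrank_mono h1
  have h6 := Submodule.finrank_mono h2
  omega

/-- If `T φ = det(T) φ₀`. -/
theorem exists_cramer {E W : Type u} [AddCommGroup E] [Module k E] [AddCommGroup W] [Module k W]
    [FiniteDimensional k W] (T : E → (W →ₗ[k] W))
    (hT : ∀ (w : W) (φ : Module.Dual k W), (fun x => φ (T x w)) ∈ Pol k E) (w₀ : W)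
    (x₀ : E) (hx₀ : T x₀ = LinearMap.id) :
    ∃ (d : E → k) (u : E → W), d ∈ Pol k E ∧ (∀ φ : Module.Dual k W, (fun x => φ (u x)) ∈ Pol k E) ∧
      d x₀ ≠ 0 ∧ u x₀ = w₀ ∧ (∀ x, T x (u x) = d x • w₀) ∧
      (∀ x, d x ≠ 0 → Function.Surjective (T x)) := by
  classical
  let b := Module.finBasis k W
  let M : E → Matrix (Fin (finrank k W)) (Fin (finrank k W)) k := fun x => LinearMap.toMatrix b b (T x)
  have hM : ∀ i j, (fun x => M x i j) ∈ Pol k E := fun i j => by
    have : (fun x => M x i j) = fun x => b.coord i (T x (b j)) := by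
      funext x
      exact LinearMap.toMatrix_apply b b (T x) i j
    rw [this]
    exact hT (b j) (b.coord i)
  have hadj : ∀ i j, (fun x => (M x).adjugate i j) ∈ Pol k E := fun i j => by
    have : (fun x => (M x).adjugate i j) = fun x => ((M x).updateRow j (Pi.single i 1)).det := by
      funext x
      exact Matrix.adjugate_apply _ _ _
    rw [this]
    refine det_mem_Pol k _ fun p q => ?_
    by_cases hp : p = j
    · subst hp
      simp only [Matrix.updateRow_self]
      exact const_mem_Pol k _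
    · simp only [Matrix.updateRow_ne hp]
      exact hM p q
  let c : Fin (finrank k W) → k := b.equivFun w₀
  refine ⟨fun x => (M x).det, fun x => b.equivFun.symm ((M x).adjugate.mulVec c),
    det_mem_Pol k M hM, fun φ => ?_, ?_, ?_, fun x => ?_, fun x hx => ?_⟩
  · have : (fun x => φ (b.equivFun.symm ((M x).adjugate.mulVec c))) =
        ∑ i, ∑ j, (fun _ : E => φ (b i) * c j) * fun x => (M x).adjugate i j := by
      funext x
      rw [Basis.equivFun_symm_apply, map_sum, Finset.sum_apply]
      refine Finset.sum_congr rfl fun i _ => ?_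
      rw [map_smul, smul_eq_mul, Matrix.mulVec, dotProduct, Finset.sum_mul, Finset.sum_apply]
      refine Finset.sum_congr rfl fun j _ => ?_
      rw [Pi.mul_apply]
      ring
    rw [this]
    exact Subalgebra.sum_mem _ fun i _ => Subalgebra.sum_mem _ fun j _ =>
      Subalgebra.mul_mem _ (const_mem_Pol k _) (hadj i j)
  · change (M x₀).det ≠ 0
    have : M x₀ = 1 := by
      change LinearMap.toMatrix b b (T x₀) = 1
      rw [hx₀, LinearMap.toMatrix_id]
    rw [this, Matrix.det_one]
    exact one_ne_zero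
  · have : M x₀ = 1 := by
      change LinearMap.toMatrix b b (T x₀) = 1
      rw [hx₀, LinearMap.toMatrix_id]
    change b.equivFun.symm ((M x₀).adjugate.mulVec c) = w₀
    rw [this, Matrix.adjugate_one, Matrix.one_mulVec]
    exact b.equivFun.symm_apply_apply w₀
  · apply b.equivFun.injective
    have h1 : b.equivFun (T x (b.equivFun.symm ((M x).adjugate.mulVec c))) =
        (M x).mulVec ((M x).adjugate.mulVec c) := by
      have := LinearMap.toMatrix_mulVec_repr b b (T x) (b.equivFun.symm ((M x).adjugate.mulVec c))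
      rw [Basis.equivFun_apply, ← this]
      congr 1
      exact b.equivFun.apply_symm_apply _
    rw [h1, Matrix.mulVec_mulVec, Matrix.mul_adjugate, Matrix.smul_mulVec, Matrix.one_mulVec,
      map_smul]
  · have h1 : LinearMap.det (T x) ≠ 0 := by
      rw [← LinearMap.det_toMatrix b]
      exact hx
    exact (LinearMap.equivOfDetNeZero (T x) h1).surjective

end linalg

section LD

variable {k : Type u} [Field k] {R : Type u} [Ring R] [Algebra k R]
  {V : Type u} [AddCommGroup V] [Module k V]

/-- `φ ↦ (r ↦ φ x(r) - x₀(r) φ)`. -/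
def LL (x₀ x : R →ₗ[k] Module.End k V) : Module.End k V →ₗ[k] (R →ₗ[k] Module.End k V) where
  toFun φ := LinearMap.mulLeft k φ ∘ₗ x - LinearMap.mulRight k φ ∘ₗ x₀
  map_add' φ ψ := by
    apply LinearMap.ext
    intro r
    change (φ + ψ) * x r - x₀ r * (φ + ψ) = (φ * x r - x₀ r * φ) + (ψ * x r - x₀ r * ψ)
    rw [add_mul, mul_add]
    abel
  map_smul' c φ := by
    apply LinearMap.ext
    intro r
    change (c • φ) * x r - x₀ r * (c • φ) = c • (φ * x r - x₀ r * φ)
    rw [smul_mul_assoc, mul_smul_comm, smul_sub]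

theorem LL_apply (x₀ x : R →ₗ[k] Module.End k V) (φ : Module.End k V) (r : R) :
    LL x₀ x φ r = φ * x r - x₀ r * φ := rfl

variable (k R V) in
/-- Bilinear maps. -/
def Bil : Type u := R →ₗ[k] R →ₗ[k] Module.End k V

instance : AddCommGroup (Bil k R V) :=
  inferInstanceAs (AddCommGroup (R →ₗ[k] R →ₗ[k] Module.End k V))

instance : Module k (Bil k R V) := inferInstanceAs (Module k (R →ₗ[k] R →ₗ[k] Module.End k V))

instance [Module.Finite k R] [Module.Finite k V] : Module.Finite k (Bil k R V) :=
  inferInstanceAs (Module.Finite k (R →ₗ[k] R →ₗ[k] Module.End k V))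

/-- The value of a bilinear map. -/
def Bil.ap (β : Bil k R V) (r s : R) : Module.End k V :=
  (show R →ₗ[k] R →ₗ[k] Module.End k V from β) r s

theorem Bil.ext' {β γ : Bil k R V} (h : ∀ r s, β.ap r s = γ.ap r s) : β = γ :=
  LinearMap.ext₂ (f := (show R →ₗ[k] R →ₗ[k] Module.End k V from β))
    (g := (show R →ₗ[k] R →ₗ[k] Module.End k V from γ)) h

@[simp] theorem Bil.add_ap (β γ : Bil k R V) (r s : R) : (β + γ).ap r s = β.ap r s + γ.ap r s := rfl

@[simp] theorem Bil.sub_ap (β γ : Bil k R V) (r s : R) : (β - γ).ap r s = β.ap r s - γ.ap r s := rfl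

@[simp] theorem Bil.smul_ap (c : k) (β : Bil k R V) (r s : R) : (c • β).ap r s = c • β.ap r s := rfl

@[simp] theorem Bil.zero_ap (r s : R) : (0 : Bil k R V).ap r s = 0 := rfl

/-- `δ ↦ ((r, s) ↦ δ(r s) - x₀(r) δ(s) - δ(r) x(s))`. -/
def DD (x₀ x : R →ₗ[k] Module.End k V) :
    (R →ₗ[k] Module.End k V) →ₗ[k] Bil k R V where
  toFun δ := LinearMap.mk₂ k (fun r s => δ (r * s) - x₀ r * δ s - δ r * x s)
    (fun r r' s => by
      simp only [add_mul, map_add]
      abel)
    (fun c r s => by
      simp only [smul_mul_assoc, map_smul, smul_sub])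
    (fun r s s' => by
      simp only [mul_add, map_add]
      abel)
    (fun c r s => by
      simp only [mul_smul_comm, map_smul, smul_sub])
  map_add' δ ε := by
    apply Bil.ext'
    intro r s
    change (δ + ε) (r * s) - x₀ r * (δ + ε) s - (δ + ε) r * x s =
      (δ (r * s) - x₀ r * δ s - δ r * x s) + (ε (r * s) - x₀ r * ε s - ε r * x s)
    simp only [LinearMap.add_apply, add_mul, mul_add]
    abel
  map_smul' c δ := by
    apply Bil.ext'
    intro r s
    change (c • δ) (r * s) - x₀ r * (c • δ) s - (c • δ) r * x s =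
      c • (δ (r * s) - x₀ r * δ s - δ r * x s)
    simp only [LinearMap.smul_apply, smul_mul_assoc, mul_smul_comm, smul_sub]

theorem DD_apply (x₀ x δ : R →ₗ[k] Module.End k V) (r s : R) :
    (DD x₀ x δ).ap r s = δ (r * s) - x₀ r * δ s - δ r * x s := rfl

theorem LL_pol (x₀ : R →ₗ[k] Module.End k V) (φ : Module.End k V)
    (f : Module.Dual k (R →ₗ[k] Module.End k V)) :
    (fun x => f (LL x₀ x φ)) ∈ Pol k (R →ₗ[k] Module.End k V) := by
  refine affine_mem_Pol (fun x y => ?_) (fun c x => ?_)
  · rw [← map_add, ← map_sub]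
    congr 1
    apply LinearMap.ext
    intro r
    simp only [LinearMap.sub_apply, LinearMap.add_apply, LL_apply, LinearMap.zero_apply, mul_add,
      mul_zero]
    abel
  · rw [← map_sub, ← smul_eq_mul, ← map_smul, ← map_add]
    congr 1
    apply LinearMap.ext
    intro r
    simp only [LinearMap.sub_apply, LinearMap.add_apply, LinearMap.smul_apply, LL_apply,
      LinearMap.zero_apply, mul_zero, mul_smul_comm, smul_sub, smul_neg, zero_sub]
    abel

theorem DD_pol (x₀ δ : R →ₗ[k] Module.End k V)
    (f : Module.Dual k (Bil k R V)) :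
    (fun x => f (DD x₀ x δ)) ∈ Pol k (R →ₗ[k] Module.End k V) := by
  refine affine_mem_Pol (fun x y => ?_) (fun c x => ?_)
  · rw [← map_add, ← map_sub]
    congr 1
    apply Bil.ext'
    intro r s
    simp only [Bil.sub_ap, Bil.add_ap, DD_apply, LinearMap.add_apply, LinearMap.zero_apply, mul_add,
      mul_zero]
    abel
  · rw [← map_sub, ← smul_eq_mul, ← map_smul, ← map_add]
    congr 1
    apply Bil.ext'
    intro r s
    simp only [Bil.sub_ap, Bil.add_ap, Bil.smul_ap, LinearMap.smul_apply, DD_apply,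
      LinearMap.zero_apply, mul_zero, mul_smul_comm, smul_sub, sub_zero]
    abel

theorem DD_LL (x₀ x : R →ₐ[k] Module.End k V) (φ : Module.End k V) :
    DD x₀.toLinearMap x.toLinearMap (LL x₀.toLinearMap x.toLinearMap φ) = 0 := by
  apply Bil.ext'
  intro r s
  rw [DD_apply, LL_apply, LL_apply, LL_apply]
  change φ * x (r * s) - x₀ (r * s) * φ - x₀ r * (φ * x s - x₀ s * φ) -
    (φ * x r - x₀ r * φ) * x s = 0
  simp only [map_mul, mul_sub, sub_mul, mul_assoc]
  abel

end LD

section ext

variable {k : Type u} [Field k] {R : Type u} [Ring R] [Algebra k R]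
  {V : Type u} [AddCommGroup V] [Module k V]

/-- The extension module given by a derivation. -/
def extStr (x₀ : R →ₐ[k] Module.End k V) (δ : R →ₗ[k] Module.End k V)
    (hδ : ∀ r s, δ (r * s) = x₀ r * δ s + δ r * x₀ s) : R →ₐ[k] Module.End k (V × V) where
  toFun r := LinearMap.prod ((x₀ r : Module.End k V) ∘ₗ LinearMap.fst k V V +
    (δ r : Module.End k V) ∘ₗ LinearMap.snd k V V) ((x₀ r : Module.End k V) ∘ₗ LinearMap.snd k V V)
  map_one' := by
    have h1 : δ 1 = 0 := by
      have := hδ 1 1
      rw [mul_one, map_one x₀, one_mul, mul_one] at this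
      exact left_eq_add.1 this
    apply LinearMap.ext
    rintro ⟨v, w⟩
    change ((x₀ 1 : Module.End k V) v + (δ 1 : Module.End k V) w, (x₀ 1 : Module.End k V) w) = (v, w)
    rw [map_one, h1]
    change (v + 0, w) = (v, w)
    rw [add_zero]
  map_mul' r s := by
    apply LinearMap.ext
    rintro ⟨v, w⟩
    change ((x₀ (r * s) : Module.End k V) v + (δ (r * s) : Module.End k V) w,
      (x₀ (r * s) : Module.End k V) w) =
      ((x₀ r : Module.End k V) ((x₀ s : Module.End k V) v + (δ s : Module.End k V) w) +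
        (δ r : Module.End k V) ((x₀ s : Module.End k V) w),
        (x₀ r : Module.End k V) ((x₀ s : Module.End k V) w))
    rw [map_mul, hδ, map_add]
    change ((x₀ r : Module.End k V) ((x₀ s : Module.End k V) v) +
      ((x₀ r : Module.End k V) ((δ s : Module.End k V) w) +
        (δ r : Module.End k V) ((x₀ s : Module.End k V) w)), _) = _
    rw [add_assoc]
    rfl
  map_zero' := by
    apply LinearMap.ext
    rintro ⟨v, w⟩
    change ((x₀ 0 : Module.End k V) v + (δ 0 : Module.End k V) w, (x₀ 0 : Module.End k V) w) = (0, 0)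
    rw [map_zero, map_zero]
    change ((0 : V) + 0, (0 : V)) = (0, 0)
    rw [add_zero]
  map_add' r s := by
    apply LinearMap.ext
    rintro ⟨v, w⟩
    change ((x₀ (r + s) : Module.End k V) v + (δ (r + s) : Module.End k V) w,
      (x₀ (r + s) : Module.End k V) w) =
      (((x₀ r : Module.End k V) v + (δ r : Module.End k V) w) +
        ((x₀ s : Module.End k V) v + (δ s : Module.End k V) w),
        (x₀ r : Module.End k V) w + (x₀ s : Module.End k V) w)
    rw [map_add, map_add]
    refine Prod.ext ?_ rfl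
    change (x₀ r : Module.End k V) v + (x₀ s : Module.End k V) v +
      ((δ r : Module.End k V) w + (δ s : Module.End k V) w) = _
    abel
  commutes' c := by
    have h1 : δ 1 = 0 := by
      have := hδ 1 1
      rw [mul_one, map_one x₀, one_mul, mul_one] at this
      exact left_eq_add.1 this
    apply LinearMap.ext
    rintro ⟨v, w⟩
    change ((x₀ (algebraMap k R c) : Module.End k V) v + (δ (algebraMap k R c) : Module.End k V) w,
      (x₀ (algebraMap k R c) : Module.End k V) w) = (c • v, c • w)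
    have h2 : δ (algebraMap k R c) = 0 := by
      rw [Algebra.algebraMap_eq_smul_one, map_smul, h1, smul_zero]
    rw [AlgHom.commutes, h2]
    change (c • v + 0, c • w) = _
    rw [add_zero]

/-- If `Ext¹(M, M) = 0`, derivations are inner. -/
theorem exists_inner (x₀ : R →ₐ[k] Module.End k V) (h : ExtZero R (WM x₀) (WM x₀) 1)
    (δ : R →ₗ[k] Module.End k V)
    (hδ : ∀ r s, δ (r * s) = x₀ r * δ s + δ r * x₀ s) :
    ∃ ψ : Module.End k V, ∀ r, δ r = ψ * x₀ r - x₀ r * ψ := by
  let i : WM x₀ →ₗ[R] WM (extStr x₀ δ hδ) :=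
    { toFun := fun v => ((v, 0) : V × V)
      map_add' := fun v w => Prod.ext rfl (add_zero (0 : V)).symm
      map_smul' := fun r v => by
        change (((x₀ r : Module.End k V) v, 0) : V × V) =
          ((x₀ r : Module.End k V) v + (δ r : Module.End k V) 0, (x₀ r : Module.End k V) 0)
        rw [map_zero, map_zero, add_zero] }
  let p : WM (extStr x₀ δ hδ) →ₗ[R] WM x₀ :=
    { toFun := fun v => (show V × V from v).2
      map_add' := fun v w => rfl
      map_smul' := fun r v => rfl }
  have hex : Function.Exact i p := by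
    rintro ⟨v, w⟩
    constructor
    · intro h0
      change w = 0 at h0
      subst h0
      exact ⟨v, rfl⟩
    · rintro ⟨v', hv'⟩
      rw [← hv']
      rfl
  have hi : Function.Injective i := by
    intro v w hvw
    exact congrArg Prod.fst (show ((v, 0) : V × V) = (w, 0) from hvw)
  have hp : Function.Surjective p := fun v => ⟨((0, v) : V × V), rfl⟩
  obtain ⟨g, hg⟩ := exists_extend hex hi hp h LinearMap.id
  have hg' : ∀ v : V, g (((v, 0) : V × V)) = v := fun v => LinearMap.congr_fun hg v
  let gk : WM (extStr x₀ δ hδ) →ₗ[k] WM x₀ := g.restrictScalars k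
  let ψ : Module.End k V := (show (V × V) →ₗ[k] V from gk) ∘ₗ LinearMap.inr k V V
  refine ⟨-ψ, fun r => ?_⟩
  apply LinearMap.ext
  intro w
  have h1 : g (r • (show WM (extStr x₀ δ hδ) from ((0, w) : V × V))) =
      r • g (show WM (extStr x₀ δ hδ) from ((0, w) : V × V)) := map_smul g _ _
  have h2 : (r • (show WM (extStr x₀ δ hδ) from ((0, w) : V × V))) =
      (show WM (extStr x₀ δ hδ) from (((δ r : Module.End k V) w, 0) : V × V)) +
      (show WM (extStr x₀ δ hδ) from ((0, (x₀ r : Module.End k V) w) : V × V)) := by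
    change (((x₀ r : Module.End k V) 0 + (δ r : Module.End k V) w, (x₀ r : Module.End k V) w)
      : V × V) = (((δ r : Module.End k V) w, 0) : V × V) + ((0, (x₀ r : Module.End k V) w) : V × V)
    rw [Prod.mk_add_mk, map_zero, zero_add, add_zero, zero_add]
  rw [h2, map_add] at h1
  have h3 := hg' ((δ r : Module.End k V) w)
  change (δ r : Module.End k V) w = (-ψ) ((x₀ r : Module.End k V) w) -
    (x₀ r : Module.End k V) ((-ψ) w)
  rw [LinearMap.neg_apply, LinearMap.neg_apply, map_neg]
  have h4 : (δ r : Module.End k V) w + ψ ((x₀ r : Module.End k V) w) =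
      (x₀ r : Module.End k V) (ψ w) := by
    rw [← h3]
    exact h1
  rw [← h4]
  abel_nf

end ext

section openness

variable {k : Type u} [Field k] {R : Type u} [Ring R] [Algebra k R] [Module.Finite k R]
  {V : Type u} [AddCommGroup V] [Module k V] [FiniteDimensional k V]

/-- The isomorphism class of a module without self-extensions is open. -/
theorem open_rigid (x₀ : R →ₐ[k] Module.End k V) (h : ExtZero R (WM x₀) (WM x₀) 1) :
    ∃ g ∈ Pol k (R →ₗ[k] Module.End k V), g x₀.toLinearMap ≠ 0 ∧
      ∀ x : R →ₐ[k] Module.End k V, g x.toLinearMap ≠ 0 →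
        Nonempty (WM x ≃ₗ[R] WM x₀) := by
  let MD : (R →ₗ[k] Module.End k V) →
      ((R →ₗ[k] Module.End k V) →ₗ[k] Bil k R V) := fun x => DD x₀.toLinearMap x
  obtain ⟨g₁, hg₁, hg₁0, hg₁x⟩ := exists_rank_pol (E := R →ₗ[k] Module.End k V) k MD
    (fun δ f => DD_pol x₀.toLinearMap δ f) x₀.toLinearMap
  obtain ⟨π, hπ⟩ := exists_pi (LL x₀.toLinearMap x₀.toLinearMap)
  let L₀ := LL x₀.toLinearMap x₀.toLinearMap
  let T : (R →ₗ[k] Module.End k V) → (Module.End k V →ₗ[k] Module.End k V) := fun x =>
    LinearMap.id + π ∘ₗ (LL x₀.toLinearMap x - L₀)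
  have hTe : ∀ x φ, T x φ = φ + (π (LL x₀.toLinearMap x φ) - π (L₀ φ)) := fun x φ => by
    rw [← map_sub]
    rfl
  have hT : ∀ (w : Module.End k V) (φ : Module.Dual k (Module.End k V)),
      (fun x => φ (T x w)) ∈ Pol k (R →ₗ[k] Module.End k V) := by
    intro w φ
    have h1 : (fun x => φ (T x w)) = (fun _ => φ (w - π (L₀ w))) +
        fun x => (φ ∘ₗ π) (LL x₀.toLinearMap x w) := by
      funext x
      rw [hTe]
      change _ = φ (w - π (L₀ w)) + φ (π (LL x₀.toLinearMap x w))
      rw [← map_add]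
      congr 1
      abel
    rw [h1]
    exact Subalgebra.add_mem _ (const_mem_Pol k _) (LL_pol x₀.toLinearMap w (φ ∘ₗ π))
  obtain ⟨d, u, hd, hu, hd0, hu0, hTu, hsurj⟩ := exists_cramer T hT (1 : Module.End k V)
    x₀.toLinearMap (by
      apply LinearMap.ext
      intro φ
      rw [hTe, sub_self, add_zero]
      rfl)
  -- the determinant of `u`
  let c := finBasis k V
  let g₂ : (R →ₗ[k] Module.End k V) → k := fun x =>
    (Matrix.of fun i j => c.coord i ((u x : Module.End k V) (c j))).det
  have hg₂ : g₂ ∈ Pol k (R →ₗ[k] Module.End k V) := by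
    refine det_mem_Pol k _ fun i j => ?_
    exact hu (c.coord i ∘ₗ LinearMap.applyₗ (c j))
  have hg₂d : ∀ x, g₂ x = LinearMap.det (u x) := by
    intro x
    rw [← LinearMap.det_toMatrix c]
    refine congrArg Matrix.det ?_
    ext i j
    rw [LinearMap.toMatrix_apply]
    rfl
  refine ⟨g₁ * (d * g₂), Subalgebra.mul_mem _ hg₁ (Subalgebra.mul_mem _ hd hg₂), ?_, ?_⟩
  · rw [Pi.mul_apply, Pi.mul_apply]
    refine mul_ne_zero hg₁0 (mul_ne_zero hd0 ?_)
    rw [hg₂d, hu0]
    change LinearMap.det (LinearMap.id : V →ₗ[k] V) ≠ 0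
    rw [LinearMap.det_id]
    exact one_ne_zero
  · intro x hx
    rw [Pi.mul_apply, Pi.mul_apply] at hx
    have hx1 := left_ne_zero_of_mul hx
    have hx2 := left_ne_zero_of_mul (right_ne_zero_of_mul hx)
    have hx3 := right_ne_zero_of_mul (right_ne_zero_of_mul hx)
    let Lx := LL x₀.toLinearMap x.toLinearMap
    -- dimensions
    have hr4 : LinearMap.range Lx ≤ LinearMap.ker (MD x.toLinearMap) := by
      rintro _ ⟨φ, rfl⟩
      exact DD_LL x₀ x φ
    have hr6 : LinearMap.ker (MD x₀.toLinearMap) ≤ LinearMap.range L₀ := by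
      intro δ hδ
      obtain ⟨ψ, hψ⟩ := exists_inner x₀ h δ (fun r s => by
        have h1 : (DD x₀.toLinearMap x₀.toLinearMap δ).ap r s = 0 :=
          congrArg (fun β : Bil k R V => β.ap r s) (LinearMap.mem_ker.1 hδ)
        rw [DD_apply] at h1
        change δ (r * s) - x₀ r * δ s - δ r * x₀ s = 0 at h1
        rw [sub_sub, sub_eq_zero] at h1
        exact h1)
      exact ⟨ψ, LinearMap.ext fun r => (hψ r).symm⟩
    have hdim := dims_of Lx L₀ (MD x.toLinearMap) (MD x₀.toLinearMap) (hg₁x _ hx1) hr4 hr6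
    have hρ : ∀ φ, (L₀ ∘ₗ π) (Lx φ) = L₀ (T x.toLinearMap φ) := by
      intro φ
      rw [hTe, map_add, map_sub]
      change L₀ (π (Lx φ)) = L₀ φ + (L₀ (π (Lx φ)) - L₀ (π (L₀ φ)))
      have : L₀ (π (L₀ φ)) = L₀ φ := hπ φ
      rw [this]
      abel
    have hzero : Lx (u x.toLinearMap) = 0 := by
      refine inj_of_dims Lx L₀ (L₀ ∘ₗ π) (T x.toLinearMap) (hsurj _ hx2) hρ hdim _ ?_
      rw [hρ, hTu, map_smul]
      have : L₀ 1 = 0 := by
        apply LinearMap.ext
        intro r
        change (1 : Module.End k V) * x₀ r - x₀ r * 1 = 0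
        rw [one_mul, mul_one, sub_self]
      rw [this, smul_zero]
    have hdet : LinearMap.det (u x.toLinearMap) ≠ 0 := by
      rw [← hg₂d]
      exact hx3
    let e := LinearMap.equivOfDetNeZero (u x.toLinearMap) hdet
    refine ⟨{ toFun := fun v => e v, invFun := fun v => e.symm v, left_inv := e.symm_apply_apply,
              right_inv := e.apply_symm_apply, map_add' := fun v w => map_add e v w,
              map_smul' := fun r v => ?_ }⟩
    have h1 := LinearMap.congr_fun (LinearMap.congr_fun hzero r) v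
    have h2 : (u x.toLinearMap : Module.End k V) ((x r : Module.End k V) v) -
      (x₀ r : Module.End k V) ((u x.toLinearMap : Module.End k V) v) = 0 := h1
    exact sub_eq_zero.1 h2

/-- Finitely many modules without self-extensions on a given vector space. -/
theorem exists_reps (V : Type u) [AddCommGroup V] [Module k V] [FiniteDimensional k V] :
    ∃ (N : ℕ) (y : Fin N → (R →ₐ[k] Module.End k V)), ∀ x : R →ₐ[k] Module.End k V,
      ExtZero R (WM x) (WM x) 1 → ∃ i, Nonempty (WM x ≃ₗ[R] WM (y i)) := by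
  classical
  have hN : IsNoetherianRing (Pol k (R →ₗ[k] Module.End k V)) := Pol_noetherian k _
  let S : Set (Pol k (R →ₗ[k] Module.End k V)) :=
    {g | ∃ y : R →ₐ[k] Module.End k V, ∀ x : R →ₐ[k] Module.End k V, g.1 x.toLinearMap ≠ 0 →
      Nonempty (WM x ≃ₗ[R] WM y)}
  obtain ⟨t, hts, ht⟩ := (Submodule.fg_span_iff_fg_span_finset_subset S).1
    (IsNoetherian.noetherian (Ideal.span S))
  have hy : ∀ g : t, ∃ y : R →ₐ[k] Module.End k V, ∀ x : R →ₐ[k] Module.End k V,
      g.1.1 x.toLinearMap ≠ 0 → Nonempty (WM x ≃ₗ[R] WM y) := fun g => hts g.2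
  choose y hy using hy
  refine ⟨t.card, fun i => y (t.equivFin.symm i), fun x hx => ?_⟩
  obtain ⟨g, hg, hg0, hgx⟩ := open_rigid x hx
  have h1 : (⟨g, hg⟩ : Pol k (R →ₗ[k] Module.End k V)) ∈ Ideal.span S := by
    exact Ideal.subset_span ⟨x, hgx⟩
  by_contra hcon
  have h2 : Ideal.span S ≤
      ({ carrier := {f | f.1 x.toLinearMap = 0}
         add_mem' := fun {a b} ha hb => by
           change a.1 _ + b.1 _ = 0
           rw [ha, hb, add_zero]
         zero_mem' := rfl
         smul_mem' := fun c f hf => by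
           change c.1 _ * f.1 _ = 0
           rw [hf, mul_zero] } : Ideal (Pol k (R →ₗ[k] Module.End k V))) := by
    change Submodule.span _ S ≤ _
    rw [ht]
    refine Submodule.span_le.2 ?_
    intro f hf
    by_contra hf0
    obtain e := hy ⟨f, hf⟩ x hf0
    apply hcon
    refine ⟨t.equivFin ⟨f, hf⟩, ?_⟩
    change Nonempty (WM x ≃ₗ[R] WM (y (t.equivFin.symm (t.equivFin ⟨f, hf⟩))))
    rw [Equiv.symm_apply_apply]
    exact e
  exact hg0 (h2 h1)

end openness

end W5h64.TT
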