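/-
Self-orthogonal modules with many small syzygies are projective.
-/
import Pool.Agent.W5h64.TT.RigA
import Pool.Agent.W5h64.TT.Bounded

namespace W5h64.TT

open CategoryTheory CategoryTheory.Abelian Module

universe u

section LES

variable {R : Type u} [Ring R] {X₁ X₂ X₃ Y : Type u} [AddCommGroup X₁] [AddCommGroup X₂]
  [AddCommGroup X₃] [AddCommGroup Y] [Module R X₁] [Module R X₂] [Module R X₃] [Module R Y]
  {i : X₁ →ₗ[R] X₂} {p : X₂ →ₗ[R] X₃}

theorem ext_cov_X₃ (hex : Function.Exact i p) (hi : Function.Injective i)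
    (hp : Function.Surjective p) {n : ℕ} (h2 : ExtZero R Y X₂ n)
    (h1 : ExtZero R Y X₁ (n + 1)) : ExtZero R Y X₃ n := by
  refine subsingleton_of_forall_eq 0 fun x => ?_
  have hS := sc_exact i p hex hi hp
  obtain ⟨y, hy⟩ := Ext.covariant_sequence_exact₃ (S := sc i p hex)
    (ModuleCat.of R Y) hS (n₀ := n) x (n₁ := n + 1) rfl (h1.elim _ _)
  have h0 : y = 0 := @Subsingleton.elim _ h2 y 0
  rw [← hy, h0, Ext.zero_comp]
  rfl

/-- `Ext¹(Y, X₁) = 0` if `Ext¹(Y, X₂) = 0` and every map `Y → X₃` lifts to `X₂`. -/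
theorem ext_cov_one (hex : Function.Exact i p) (hi : Function.Injective i)
    (hp : Function.Surjective p) (h2 : ExtZero R Y X₂ 1)
    (h : ∀ g : Y →ₗ[R] X₃, ∃ g' : Y →ₗ[R] X₂, p ∘ₗ g' = g) : ExtZero R Y X₁ 1 := by
  refine subsingleton_of_forall_eq 0 fun x => ?_
  have hS := sc_exact i p hex hi hp
  obtain ⟨y, hy⟩ := Ext.covariant_sequence_exact₁ (S := sc i p hex)
    (ModuleCat.of R Y) hS (n₁ := 1) x (h2.elim _ _) (n₀ := 0) rfl
  obtain ⟨g, rfl⟩ := Ext.addEquiv₀.symm.surjective y
  obtain ⟨g', hg'⟩ := h g.hom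
  have e1 : g = ModuleCat.ofHom g' ≫ (sc i p hex).g := by
    ext x
    exact (LinearMap.congr_fun hg' x).symm
  have e2 : (Ext.addEquiv₀.symm (ModuleCat.ofHom g' ≫ (sc i p hex).g) :
      Ext (ModuleCat.of R Y) (sc i p hex).X₃ 0) =
      (Ext.mk₀ (Y := (sc i p hex).X₂) (X := ModuleCat.of R Y) (ModuleCat.ofHom g')).comp
        (Ext.mk₀ (sc i p hex).g) (add_zero 0) :=
    (Ext.mk₀_comp_mk₀ (X := ModuleCat.of R Y) (ModuleCat.ofHom g') (sc i p hex).g).symm
  rw [← hy, e1, e2, Ext.comp_assoc_of_second_deg_zero, hS.comp_extClass, Ext.comp_zero]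
  rfl

/-- Vanishing into a finitely generated projective module. -/
theorem ext_projective {Q : Type u} [AddCommGroup Q] [Module R Q] (hf : Module.Finite R Q)
    (hp : Module.Projective R Q) {n : ℕ} (h : ExtZero R Y R n) : ExtZero R Y Q n := by
  obtain ⟨m, f, hf⟩ := Module.Finite.exists_fin' R Q
  obtain ⟨g, hg⟩ := Module.projective_lifting_property f LinearMap.id hf
  exact ext_retract_right (i := g) (p := f) hg (ext_pow_right m h)

theorem ext_injective (hI : Module.Injective R X₁) (n : ℕ) : ExtZero R Y X₁ (n + 1) := by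
  refine subsingleton_of_forall_eq 0 fun x => ?_
  have : Injective (ModuleCat.of R X₁) := Module.injective_object_of_injective_module R X₁
  exact Ext.eq_zero_of_injective (I := ModuleCat.of R X₁) _

end LES

/-- `X 0, X 1, …` are the successive syzygies in a resolution of `X 0` by finitely generated
projective modules. -/
def IsRes (A : Type u) [Ring A] (X : ℕ → ModuleCat.{u} A) : Prop :=
  ∀ n, ∃ (Q : ModuleCat.{u} A) (i : X (n + 1) →ₗ[A] Q) (q : Q →ₗ[A] X n),
    Module.Finite A Q ∧ Module.Projective A Q ∧ Function.Injective i ∧ Function.Exact i q ∧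
      Function.Surjective q

section res

variable {A : Type u} [Ring A] {X : ℕ → ModuleCat.{u} A}

theorem res_ext (hX : IsRes A X) {B : ℕ} (h : ∀ i, 1 ≤ i → i ≤ B → ExtZero A (X 0) A i) :
    ∀ n i, 1 ≤ i → i + n ≤ B → ExtZero A (X n) A i := by
  intro n
  induction n with
  | zero =>
    intro i h1 h2
    exact h i h1 (by omega)
  | succ n ih =>
    intro i h1 h2
    obtain ⟨Q, a, q, hf, hp, ha, hex, hq⟩ := hX n
    obtain ⟨j, rfl⟩ : ∃ j, i = j + 1 := ⟨i - 1, by omega⟩
    exact ext_X₁ hex ha hq (ext_of_projective j) (ih (j + 1 + 1) (by omega) (by omega))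

theorem res_self (hX : IsRes A X) {L : ℕ}
    (hA : ∀ i, 1 ≤ i → i ≤ L + 1 → ExtZero A (X 0) A i)
    (h : ∀ i, 1 ≤ i → i ≤ L → ExtZero A (X 0) (X 0) i) :
    ∀ n i, 1 ≤ i → i ≤ L → i + n ≤ L + 1 → ExtZero A (X n) (X n) i := by
  intro n
  induction n with
  | zero =>
    intro i h1 h2 _
    exact h i h1 h2
  | succ n ih =>
    intro i h1 h2 h3
    obtain ⟨Q, a, q, hf, hp, ha, hex, hq⟩ := hX n
    have hQ : ExtZero A (X (n + 1)) Q i := ext_projective hf hp (res_ext hX hA (n + 1) i h1 h3)
    by_cases hi : i = 1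
    · subst hi
      refine ext_cov_one hex ha hq hQ fun g => ?_
      obtain ⟨g', hg'⟩ := exists_extend hex ha hq (ih 1 le_rfl h2 (by omega)) g
      obtain ⟨g'', hg''⟩ := Module.projective_lifting_property q g' hq
      refine ⟨g'' ∘ₗ a, ?_⟩
      rw [← LinearMap.comp_assoc, hg'', hg']
    · obtain ⟨j, rfl⟩ : ∃ j, i = j + 1 + 1 := ⟨i - 2, by omega⟩
      refine ext_cov hex ha hq ?_ hQ
      exact ext_X₁ hex ha hq (ext_of_projective j) (ih (j + 1 + 1) h1 h2 (by omega))

/-- `Ext^t(X_i, X_{i+t}) = 0` for some `t ≥ 1` implies that `X_i` is projective. -/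
theorem projective_of_ext (hX : IsRes A X) (i : ℕ) (t : ℕ)
    (hA : ∀ j, 1 ≤ j → j ≤ t → ExtZero A (X i) A j)
    (h : ExtZero A (X i) (X (i + (t + 1))) (t + 1)) : Module.Projective A (X i) := by
  induction t with
  | zero =>
    obtain ⟨Q, a, q, hf, hp, ha, hex, hq⟩ := hX i
    obtain ⟨r, hr⟩ := exists_extend hex ha hq h LinearMap.id
    exact projective_of_retract hex hq r fun x => LinearMap.congr_fun hr x
  | succ t ih =>
    obtain ⟨Q, a, q, hf, hp, ha, hex, hq⟩ := hX (i + (t + 1))
    refine ih (fun j h1 h2 => hA j h1 (by omega)) ?_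
    exact ext_cov_X₃ hex ha hq (ext_projective hf hp (hA (t + 1) (by omega) le_rfl)) h

theorem projective_down (hN : IsNoetherianRing A) (hX : IsRes A X) (i : ℕ)
    (hA : ∀ n, n < i → ExtZero A (X n) A 1) (h : Module.Projective A (X i)) :
    Module.Projective A (X 0) := by
  induction i with
  | zero => exact h
  | succ i ih =>
    refine ih (fun n hn => hA n (by omega)) ?_
    obtain ⟨Q, a, q, hf, hp, ha, hex, hq⟩ := hX i
    have hfin : Module.Finite A (X (i + 1)) := Module.Finite.of_injective a ha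
    obtain ⟨r, hr⟩ := exists_extend hex ha hq
      (ext_projective hfin h (hA i (by omega))) LinearMap.id
    exact projective_of_retract hex hq r fun x => LinearMap.congr_fun hr x

theorem projective_of_iso (hN : IsNoetherianRing A) (hX : IsRes A X) {L : ℕ}
    (hA : ∀ i, 1 ≤ i → i ≤ L + 1 → ExtZero A (X 0) A i)
    (h : ∀ i, 1 ≤ i → i ≤ L → ExtZero A (X 0) (X 0) i) {i j : ℕ} (hij : i < j) (hj : j ≤ L)
    (e : X i ≃ₗ[A] X j) : Module.Projective A (X 0) := by
  refine projective_down hN hX i (fun n hn => res_ext hX hA n 1 le_rfl (by omega)) ?_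
  obtain ⟨t, rfl⟩ : ∃ t, j = i + (t + 1) := ⟨j - i - 1, by omega⟩
  refine projective_of_ext hX i t (fun s h1 h2 => res_ext hX hA i s h1 (by omega)) ?_
  refine ext_retract_right (i := e.symm.toLinearMap) (p := e.toLinearMap) ?_
    (res_self hX hA h i (t + 1) (by omega) (by omega) (by omega))
  apply LinearMap.ext
  intro x
  exact e.apply_symm_apply x

end res

/-- Finitely many modules without self-extensions of dimension at most `c`. -/
theorem exists_reps_dim (k : Type u) [Field k] (A : Type u) [Ring A] [Algebra k A]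
    [Module.Finite k A] (c : ℕ) :
    ∃ (ι : Type) (_ : Fintype ι) (Y : ι → ModuleCat.{u} A),
      ∀ (W : Type u) [AddCommGroup W] [Module A W], DimLE k A W c → ExtZero A W W 1 →
        ∃ i, Nonempty (W ≃ₗ[A] Y i) := by
  choose N y hy using fun j : ℕ => exists_reps (k := k) (R := A) (Fin j → k)
  refine ⟨Σ j : Fin (c + 1), Fin (N j), inferInstance,
    fun p => ModuleCat.of A (WM (y p.1 p.2)), ?_⟩
  intro W _ _ hW hE
  let _ : Module k W := Module.compHom W (algebraMap k A)
  have : IsScalarTower k A W := ⟨fun c a t => by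
    rw [Algebra.smul_def, mul_smul]
    rfl⟩
  obtain ⟨hWf, hWc⟩ := hW
  have e : W ≃ₗ[k] (Fin (finrank k W) → k) := (finBasis k W).equivFun
  let e' : W ≃ₗ[A] WM (strOf (R := A) e) := strOfEquiv (R := A) e
  have h1 : ExtZero A (WM (strOf (R := A) e)) (WM (strOf (R := A) e)) 1 := by
    refine ext_retract_left (i := e'.symm.toLinearMap) (p := e'.toLinearMap)
      (LinearMap.ext fun x => e'.apply_symm_apply x) ?_
    exact ext_retract_right (i := e'.symm.toLinearMap) (p := e'.toLinearMap)
      (LinearMap.ext fun x => e'.apply_symm_apply x) hE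
  obtain ⟨i, ⟨f⟩⟩ := hy (finrank k W) (strOf (R := A) e) h1
  exact ⟨⟨⟨finrank k W, by omega⟩, i⟩, ⟨e'.trans f⟩⟩

/-- `M` has a resolution by finitely generated projective modules in which more than `N` of the
syzygies `X_0 = M, X_1, …, X_L` have dimension at most `c` over `k`. -/
def SmallSyzygies (k : Type u) [Field k] (A : Type u) [Ring A] [Algebra k A] (M : Type u)
    [AddCommGroup M] [Module A M] (N c L : ℕ) : Prop :=
  ∃ X : ℕ → ModuleCat.{u} A, IsRes A X ∧ Nonempty (M ≃ₗ[A] X 0) ∧
    ∃ S : Finset ℕ, N < S.card ∧ ∀ n ∈ S, n ≤ L ∧ DimLE k A (X n) c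

theorem exists_small (k : Type u) [Field k] (A : Type u) [Ring A] [Algebra k A]
    [Module.Finite k A] (c : ℕ) :
    ∃ N : ℕ, ∀ (M : Type u) [AddCommGroup M] [Module A M] (L : ℕ), SmallSyzygies k A M N c L →
      (∀ i, 1 ≤ i → i ≤ L + 1 → ExtZero A M A i) →
      (∀ i, 1 ≤ i → i ≤ L → ExtZero A M M i) → Module.Projective A M := by
  classical
  have hN : IsNoetherianRing A := isNoetherian_of_tower k inferInstance
  obtain ⟨ι, _, Y, hY⟩ := exists_reps_dim k A c
  refine ⟨Fintype.card ι, ?_⟩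
  rintro M _ _ L ⟨X, hX, ⟨e⟩, S, hS, hSX⟩ hA hM
  have hA' : ∀ i, 1 ≤ i → i ≤ L + 1 → ExtZero A (X 0) A i := fun i h1 h2 =>
    ext_retract_left (i := e.symm.toLinearMap) (p := e.toLinearMap)
      (LinearMap.ext fun x => e.apply_symm_apply x) (hA i h1 h2)
  have hM' : ∀ i, 1 ≤ i → i ≤ L → ExtZero A (X 0) (X 0) i := fun i h1 h2 =>
    ext_retract_left (i := e.symm.toLinearMap) (p := e.toLinearMap)
      (LinearMap.ext fun x => e.apply_symm_apply x)
      (ext_retract_right (i := e.symm.toLinearMap) (p := e.toLinearMap)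
        (LinearMap.ext fun x => e.apply_symm_apply x) (hM i h1 h2))
  have hproj : Module.Projective A (X 0) := by
    by_cases hL : 1 ≤ L
    · have hc : ∀ n : S, ∃ j : ι, Nonempty (X n ≃ₗ[A] Y j) := fun n =>
        hY (X n) (hSX n n.2).2 (res_self hX hA' hM' n 1 le_rfl hL (by
          have := (hSX n n.2).1
          omega))
      choose f hf using hc
      have hcard : Fintype.card ι < Fintype.card S := by
        rwa [Fintype.card_coe]
      obtain ⟨a, b, hab, hfab⟩ := Fintype.exists_ne_map_eq_of_card_lt f hcard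
      have key : ∀ a b : S, (a : ℕ) < b → f a = f b → Module.Projective A (X 0) := by
        intro a b hab hfab
        obtain ⟨ea⟩ := hf a
        obtain ⟨eb⟩ := hf b
        rw [← hfab] at eb
        exact projective_of_iso hN hX hA' hM' hab (hSX b b.2).1 (ea.trans eb.symm)
      rcases lt_trichotomy (a : ℕ) b with h | h | h
      · exact key a b h hfab
      · exact absurd (Subtype.ext h) hab
      · exact key b a h hfab.symm
    · exfalso
      have hE : ExtZero A PUnit.{u + 1} PUnit.{u + 1} 1 := ext_of_projective 0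
      have hD : DimLE k A PUnit.{u + 1} c := by
        let _ : Module k PUnit.{u + 1} := Module.compHom PUnit.{u + 1} (algebraMap k A)
        have h1 : Module.Finite k PUnit.{u + 1} := inferInstance
        have h2 : Module.finrank k PUnit.{u + 1} = 0 := Module.finrank_zero_of_subsingleton
        exact ⟨h1, h2.le.trans (Nat.zero_le c)⟩
      obtain ⟨i, _⟩ := hY PUnit.{u + 1} hD hE
      have h3 : 0 < Fintype.card ι := Fintype.card_pos_iff.2 ⟨i⟩
      have h4 : S.card ≤ 1 := by
        refine Finset.card_le_one.2 fun a ha b hb => ?_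
        have h5 := (hSX a ha).1
        have h6 := (hSX b hb).1
        omega
      omega
  exact Module.Projective.of_equiv e.symm

end W5h64.TT
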