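/-
Algebras whose simple modules have small syzygies.
-/
import Pool.Agent.W5h64.TT.RigB
import Pool.Agent.W5h64.TT.RigC

namespace W5h64.TT

open CategoryTheory CategoryTheory.Abelian Module

universe u

section horseshoe

variable {A : Type u} [Ring A]

/-- An extension of the `n`-th syzygies. -/
structure HS (X' X'' : ℕ → ModuleCat.{u} A) (n : ℕ) where
  E : ModuleCat.{u} A
  i : X' n →ₗ[A] E
  p : E →ₗ[A] X'' n
  hi : Function.Injective i
  hex : Function.Exact i p
  hp : Function.Surjective p

variable {X' X'' : ℕ → ModuleCat.{u} A}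

theorem hs_step (hX' : IsRes A X') (hX'' : IsRes A X'') (n : ℕ) (s : HS X' X'' n) :
    ∃ (t : HS X' X'' (n + 1)) (Q : ModuleCat.{u} A) (a : t.E →ₗ[A] Q) (q : Q →ₗ[A] s.E),
      Module.Finite A Q ∧ Module.Projective A Q ∧ Function.Injective a ∧ Function.Exact a q ∧
        Function.Surjective q := by
  obtain ⟨Q', a', q', hf', hp', ha', hex', hq'⟩ := hX' n
  obtain ⟨Q'', a'', q'', hf'', hp'', ha'', hex'', hq''⟩ := hX'' n
  obtain ⟨h, hh⟩ := Module.projective_lifting_property s.p q'' s.hp
  have hh' : ∀ y, s.p (h y) = q'' y := fun y => LinearMap.congr_fun hh y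
  let q : (Q' × Q'') →ₗ[A] s.E := (s.i ∘ₗ q').coprod h
  have hq : ∀ x y, q (x, y) = s.i (q' x) + h y := fun x y => rfl
  have hker : ∀ z : LinearMap.ker q, q'' (z : Q' × Q'').2 = 0 := by
    rintro ⟨⟨x, y⟩, hz⟩
    have h1 : s.i (q' x) + h y = 0 := hz
    have h2 := congrArg s.p h1
    rw [map_add, s.hex.apply_apply_eq_zero, zero_add, hh', map_zero] at h2
    exact h2
  obtain ⟨g, hg⟩ := exists_cofactor a'' ha''
    (LinearMap.snd A Q' Q'' ∘ₗ (LinearMap.ker q).subtype) (fun z => (hex'' _).1 (hker z))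
  have hg' : ∀ z : LinearMap.ker q, a'' (g z) = (z : Q' × Q'').2 := hg
  let ι : X' (n + 1) →ₗ[A] LinearMap.ker q :=
    (LinearMap.inl A Q' Q'' ∘ₗ a').codRestrict _ (fun x => by
      change s.i (q' (a' x)) + h 0 = 0
      rw [hex'.apply_apply_eq_zero, map_zero, map_zero, add_zero])
  refine ⟨{ E := ModuleCat.of A (LinearMap.ker q)
            i := ι
            p := g
            hi := ?_
            hex := ?_
            hp := ?_ }, ModuleCat.of A (Q' × Q''), (LinearMap.ker q).subtype, q,
    inferInstanceAs (Module.Finite A (Q' × Q'')), inferInstanceAs (Module.Projective A (Q' × Q'')),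
    Subtype.val_injective, LinearMap.exact_subtype_ker_map q, ?_⟩
  · intro x y hxy
    have h1 := congrArg (fun z : LinearMap.ker q => (z : Q' × Q'').1) hxy
    exact ha' h1
  · intro z
    constructor
    · intro hz
      obtain ⟨⟨x, y⟩, hzk⟩ := z
      have h1 := hg' ⟨(x, y), hzk⟩
      rw [hz, map_zero] at h1
      have h2 : y = 0 := h1.symm
      subst h2
      have h3 : s.i (q' x) + h 0 = 0 := hzk
      rw [map_zero, add_zero] at h3
      have h4 : q' x = 0 := s.hi (by rw [h3, map_zero])
      obtain ⟨w, hw⟩ := (hex' _).1 h4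
      refine ⟨w, Subtype.ext ?_⟩
      exact Prod.ext hw rfl
    · rintro ⟨x, rfl⟩
      apply ha''
      rw [hg', map_zero]
      rfl
  · intro w
    have h1 : s.p (h (a'' w)) = 0 := by rw [hh', hex''.apply_apply_eq_zero]
    obtain ⟨v, hv⟩ := (s.hex _).1 h1
    obtain ⟨x, rfl⟩ := hq' v
    refine ⟨⟨(-x, a'' w), ?_⟩, ha'' ?_⟩
    · change s.i (q' (-x)) + h (a'' w) = 0
      rw [map_neg, map_neg, hv, neg_add_cancel]
    · rw [hg']
  · intro e
    obtain ⟨y, hy⟩ := hq'' (s.p e)
    have h1 : s.p (e - h y) = 0 := by rw [map_sub, hh', hy, sub_self]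
    obtain ⟨v, hv⟩ := (s.hex _).1 h1
    obtain ⟨x, rfl⟩ := hq' v
    refine ⟨(x, y), ?_⟩
    rw [hq, hv, sub_add_cancel]

/-- The sequence of extensions. -/
noncomputable def hsSeq (hX' : IsRes A X') (hX'' : IsRes A X'') (s : HS X' X'' 0) :
    ∀ n, HS X' X'' n
  | 0 => s
  | n + 1 => (hs_step hX' hX'' n (hsSeq hX' hX'' s n)).choose

theorem hsSeq_isRes (hX' : IsRes A X') (hX'' : IsRes A X'') (s : HS X' X'' 0) :
    IsRes A (fun n => (hsSeq hX' hX'' s n).E) := fun n =>
  (hs_step hX' hX'' n (hsSeq hX' hX'' s n)).choose_spec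

end horseshoe

section dim

variable (k : Type u) [Field k] (A : Type u) [Ring A] [Algebra k A]

theorem dimLE_ext {X E Y : Type u} [AddCommGroup X] [Module A X] [AddCommGroup E] [Module A E]
    [AddCommGroup Y] [Module A Y] (i : X →ₗ[A] E) (p : E →ₗ[A] Y) (hi : Function.Injective i)
    (hex : Function.Exact i p) (hp : Function.Surjective p) {c d : ℕ} (hX : DimLE k A X c)
    (hY : DimLE k A Y d) : DimLE k A E (c + d) := by
  let _ : Module k X := Module.compHom X (algebraMap k A)
  let _ : Module k E := Module.compHom E (algebraMap k A)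
  let _ : Module k Y := Module.compHom Y (algebraMap k A)
  have : IsScalarTower k A X := ⟨fun c a t => by
    rw [Algebra.smul_def, mul_smul]
    rfl⟩
  have : IsScalarTower k A E := ⟨fun c a t => by
    rw [Algebra.smul_def, mul_smul]
    rfl⟩
  have : IsScalarTower k A Y := ⟨fun c a t => by
    rw [Algebra.smul_def, mul_smul]
    rfl⟩
  obtain ⟨hXf, hXc⟩ := hX
  obtain ⟨hYf, hYc⟩ := hY
  let i' := i.restrictScalars k
  let p' := p.restrictScalars k
  have hk : LinearMap.ker p' = LinearMap.range i' := by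
    ext x
    exact hex x
  have hkf : Module.Finite k (LinearMap.ker p') := by
    rw [hk]
    infer_instance
  have hqf : Module.Finite k (E ⧸ LinearMap.ker p') :=
    Module.Finite.equiv (p'.quotKerEquivOfSurjective hp).symm
  have hEf : Module.Finite k E := Module.Finite.of_submodule_quotient (LinearMap.ker p')
  refine ⟨hEf, ?_⟩
  have h1 := LinearMap.finrank_range_add_finrank_ker p'
  have h2 : finrank k (LinearMap.range p') = finrank k Y := by
    have h0 : LinearMap.range p' = ⊤ := LinearMap.range_eq_top.2 hp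
    rw [h0, finrank_top]
  have h3 : finrank k (LinearMap.ker p') = finrank k X := by
    rw [hk]
    exact LinearMap.finrank_range_of_inj hi
  omega

/-- `M` has a resolution by finitely generated projective modules whose `n`-th syzygies, `n ∈ S`,
have dimension at most `c` over `k`. -/
def SmallRes (S : Set ℕ) (c : ℕ) (M : Type u) [AddCommGroup M] [Module A M] : Prop :=
  ∃ X : ℕ → ModuleCat.{u} A, IsRes A X ∧ Nonempty (M ≃ₗ[A] X 0) ∧ ∀ n ∈ S, DimLE k A (X n) c

variable {k A}

theorem smallRes_ext {S : Set ℕ} {c d : ℕ} {M' M M'' : Type u} [AddCommGroup M'] [Module A M']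
    [AddCommGroup M] [Module A M] [AddCommGroup M''] [Module A M''] (i : M' →ₗ[A] M)
    (p : M →ₗ[A] M'') (hi : Function.Injective i) (hex : Function.Exact i p)
    (hp : Function.Surjective p) (h' : SmallRes k A S c M') (h'' : SmallRes k A S d M'') :
    SmallRes k A S (c + d) M := by
  obtain ⟨X', hX', ⟨e'⟩, hc'⟩ := h'
  obtain ⟨X'', hX'', ⟨e''⟩, hc''⟩ := h''
  let s : HS X' X'' 0 :=
    { E := ModuleCat.of A M
      i := i ∘ₗ e'.symm.toLinearMap
      p := e''.toLinearMap ∘ₗ p
      hi := hi.comp e'.symm.injective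
      hex := by
        intro x
        change e'' (p x) = 0 ↔ _
        rw [LinearEquiv.map_eq_zero_iff]
        constructor
        · intro h
          obtain ⟨y, hy⟩ := (hex x).1 h
          refine ⟨e' y, ?_⟩
          change i (e'.symm (e' y)) = x
          rw [e'.symm_apply_apply, hy]
        · rintro ⟨y, hy⟩
          rw [← hy]
          exact hex.apply_apply_eq_zero _
      hp := e''.surjective.comp hp }
  refine ⟨fun n => (hsSeq hX' hX'' s n).E, hsSeq_isRes hX' hX'' s,
    ⟨LinearEquiv.refl A M⟩, fun n hn => ?_⟩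
  exact dimLE_ext k A (hsSeq hX' hX'' s n).i (hsSeq hX' hX'' s n).p (hsSeq hX' hX'' s n).hi
    (hsSeq hX' hX'' s n).hex (hsSeq hX' hX'' s n).hp (hc' n hn) (hc'' n hn)

theorem smallRes_zero {S : Set ℕ} {c : ℕ} {M : Type u} [AddCommGroup M] [Module A M]
    [Subsingleton M] : SmallRes k A S c M := by
  refine ⟨fun _ => ModuleCat.of A M, fun n => ⟨ModuleCat.of A M, LinearMap.id, LinearMap.id,
    inferInstanceAs (Module.Finite A M), inferInstanceAs (Module.Projective A M),
    Function.injective_id, fun x => ?_, Function.surjective_id⟩, ⟨LinearEquiv.refl A M⟩, ?_⟩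
  · have hs : Subsingleton (ModuleCat.of A M) := inferInstanceAs (Subsingleton M)
    exact ⟨fun _ => ⟨x, rfl⟩, fun _ => Subsingleton.elim _ _⟩
  · intro n _
    let _ : Module k M := Module.compHom M (algebraMap k A)
    have h1 : Module.Finite k M := inferInstance
    have h2 : Module.finrank k M = 0 := Module.finrank_zero_of_subsingleton
    exact ⟨h1, h2.le.trans (Nat.zero_le c)⟩

theorem smallRes_finiteLength {S : Set ℕ}
    (hS : ∀ (T : Type u) [AddCommGroup T] [Module A T], IsSimpleModule A T →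
      ∃ c, SmallRes k A S c T) {M : Type u} [AddCommGroup M] [Module A M]
    (hM : IsFiniteLength A M) : ∃ c, SmallRes k A S c M := by
  induction hM with
  | of_subsingleton => exact ⟨0, smallRes_zero⟩
  | @of_simple_quotient M _ _ N hsimple _ ih =>
    obtain ⟨c, hc⟩ := ih
    obtain ⟨d, hd⟩ := hS (M ⧸ N) hsimple
    exact ⟨c + d, smallRes_ext N.subtype N.mkQ Subtype.val_injective
      (LinearMap.exact_subtype_mkQ _) (Submodule.mkQ_surjective _) hc hd⟩

theorem smallSyzygies_of_smallRes {S : Set ℕ} (hS : S.Infinite) {c : ℕ} {M : Type u}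
    [AddCommGroup M] [Module A M] (h : SmallRes k A S c M) (N : ℕ) :
    ∃ L, SmallSyzygies k A M N c L := by
  obtain ⟨X, hX, he, hc⟩ := h
  obtain ⟨t, ht, htc⟩ := hS.exists_subset_card_eq (N + 1)
  exact ⟨t.sup id, X, hX, he, t, by omega, fun n hn => ⟨Finset.le_sup (f := id) hn, hc n (ht hn)⟩⟩

/-- The Auslander–Reiten conjecture for algebras whose simple modules have small syzygies. -/
theorem projective_of_simple_small [Module.Finite k A] {S : Set ℕ} (hS : S.Infinite)
    (hT : ∀ (T : Type u) [AddCommGroup T] [Module A T], IsSimpleModule A T →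
      ∃ c, SmallRes k A S c T) (M : Type u) [AddCommGroup M] [Module A M] [Module.Finite A M]
    (hA : ∀ i, 1 ≤ i → ExtZero A M A i) (hM : ∀ i, 1 ≤ i → ExtZero A M M i) :
    Module.Projective A M := by
  have hN : IsNoetherianRing A := isNoetherian_of_tower k inferInstance
  have hA' : IsArtinianRing A := isArtinian_of_tower k inferInstance
  have h1 : IsFiniteLength A M :=
    isFiniteLength_iff_isNoetherian_isArtinian.2 ⟨inferInstance, inferInstance⟩
  obtain ⟨c, hc⟩ := smallRes_finiteLength hT h1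
  obtain ⟨N, hN'⟩ := exists_small k A c
  obtain ⟨L, hL⟩ := smallSyzygies_of_smallRes hS hc N
  exact hN' M L hL (fun i h1 _ => hA i h1) (fun i h1 _ => hM i h1)

end dim

end W5h64.TT
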